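import Pool.Agent.FV86.Main

/-!
# Six prime divisors of the conductor of an arbitrary character
-/

set_option autoImplicit false

namespace Pool.Agent.FV86

theorem relfinrank_mono {K A B : IntermediateField ℚ ℂ} (h1 : K ≤ A) (h2 : A ≤ B)
    (h3 : FiniteDimensional ℚ B) : K.relfinrank A ≤ K.relfinrank B := by
  have hmul := IntermediateField.relfinrank_mul_relfinrank h1 h2
  rw [← hmul]
  refine Nat.le_mul_of_pos_right _ ?_
  have h4 := IntermediateField.finrank_bot_mul_relfinrank h2
  have h5 : 0 < Module.finrank ℚ B := Module.finrank_pos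
  rw [← h4] at h5
  exact Nat.pos_of_mul_pos_left h5

theorem part {G V : Type*} [Group G] [Finite G] [AddCommGroup V] [Module ℂ V]
    [FiniteDimensional ℂ V] (ρ : Representation ℂ G V) [ρ.IsIrreducible] {d : ℕ}
    (hd : d ∣ conductor ρ.character) (hcop : d.Coprime (conductor ρ.character / d))
    (h6 : d.primeFactors.card ≤ 6) :
    (∃ g z, Module.End.HasEigenvalue (ρ g) z ∧ d ∣ orderOf z) ∧
      (∃ g : G, orderOf g = d) ∧
      (valueField ρ.character).relfinrank (valueField ρ.character ⊔ cyc d) ≤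
        Module.finrank ℂ V := by
  have hc := conductor_pos ρ
  have hd0 : 0 < d := Nat.pos_of_dvd_of_pos hd hc
  haveI : FiniteDimensional ℚ (valueField ρ.character) :=
    finiteDimensional_of_le Nat.card_pos (valueField_le ρ)
  obtain ⟨ℓ, hℓ, ψ, hψ⟩ :=
    exists_psi (A := valueField ρ.character ≃ₐ[ℚ] valueField ρ.character)
      (comm_of_le Nat.card_pos (valueField_le ρ)) d.primeFactors
      (inertia ρ.character) (fun p hp => inertia_ne ρ
        (Nat.mem_primeFactors.2 ⟨Nat.prime_of_mem_primeFactors hp,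
            (Nat.dvd_of_mem_primeFactors hp).trans hd, hc.ne'⟩)) (Or.inl h6)
  obtain ⟨g, z, hz, hdz⟩ := core_dvd ρ hℓ hd hcop ψ hψ
  refine ⟨⟨g, z, hz, hdz⟩, ?_, ?_⟩
  · have hdg : d ∣ orderOf g := hdz.trans (orderOf_dvd ρ g hz)
    refine ⟨g ^ (orderOf g / d), ?_⟩
    rw [orderOf_pow_of_dvd (Nat.div_pos (Nat.le_of_dvd (orderOf_pos g) hdg) hd0).ne'
      (Nat.div_dvd_of_dvd hdg), Nat.div_div_self hdg (orderOf_pos g).ne']
  · have hpos := orderOf_pos_of_eigen ρ g hz
    refine le_trans ?_ (relfinrank_sup_le ρ g hz)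
    refine relfinrank_mono le_sup_left (sup_le_sup_left (cyc_le_adjoin hd0 hpos.ne' hdz) _) ?_
    haveI : FiniteDimensional ℚ (IntermediateField.adjoin ℚ {z}) := by
      apply IntermediateField.adjoin.finiteDimensional
      refine IsIntegral.of_pow hpos ?_
      rw [pow_orderOf_eq_one]
      exact isIntegral_one
    exact IntermediateField.finiteDimensional_sup _ _

/-- The unitary divisor with the same prime divisors. -/
theorem exists_unitary {n d : ℕ} (hn : 0 < n) (hd : d ∣ n) :
    ∃ e, d ∣ e ∧ e ∣ n ∧ e.Coprime (n / e) ∧ e.primeFactors = d.primeFactors := by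
  have hd0 : 0 < d := Nat.pos_of_dvd_of_pos hd hn
  have hsub : d.primeFactors ⊆ n.primeFactors := Nat.primeFactors_mono hd hn.ne'
  set e := ∏ p ∈ d.primeFactors, p ^ n.factorization p with he
  set f := ∏ p ∈ n.primeFactors \ d.primeFactors, p ^ n.factorization p with hf
  have hef : e * f = n := by
    rw [he, hf, mul_comm, Finset.prod_sdiff hsub]
    exact Nat.prod_factorization_pow_eq_self hn.ne'
  have hcop : e.Coprime f := by
    rw [he, hf]
    refine Nat.Coprime.prod_left fun p hp => Nat.Coprime.prod_right fun q hq => ?_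
    rw [Finset.mem_sdiff] at hq
    refine Nat.Coprime.pow _ _ ?_
    refine (Nat.coprime_primes (Nat.prime_of_mem_primeFactors hp)
      (Nat.prime_of_mem_primeFactors hq.1)).2 ?_
    rintro rfl
    exact hq.2 hp
  have he0 : e ≠ 0 := by
    intro h
    rw [h, zero_mul] at hef
    exact hn.ne hef
  have hdiv : n / e = f := by
    rw [← hef, Nat.mul_div_cancel_left _ (Nat.pos_of_ne_zero he0)]
  refine ⟨e, ?_, ⟨f, hef.symm⟩, by rw [hdiv]; exact hcop, ?_⟩
  · have h1 : ∏ p ∈ d.primeFactors, p ^ d.factorization p = d :=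
      Nat.prod_factorization_pow_eq_self hd0.ne'
    have h2 : ∏ p ∈ d.primeFactors, p ^ d.factorization p ∣ e := by
      rw [he]
      refine Finset.prod_dvd_prod_of_dvd _ _ fun p _ => ?_
      exact pow_dvd_pow p ((Nat.factorization_le_iff_dvd hd0.ne' hn.ne').2 hd p)
    rw [h1] at h2
    exact h2
  · ext p
    constructor
    · intro hp
      have hpp := Nat.prime_of_mem_primeFactors hp
      have h1 := Nat.dvd_of_mem_primeFactors hp
      rw [he] at h1
      obtain ⟨q, hq, h2⟩ := (Prime.dvd_finset_prod_iff hpp.prime _).1 h1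
      have h3 := hpp.dvd_of_dvd_pow h2
      rw [Nat.prime_dvd_prime_iff_eq hpp (Nat.prime_of_mem_primeFactors hq)] at h3
      rwa [h3]
    · intro hp
      refine Nat.mem_primeFactors.2 ⟨Nat.prime_of_mem_primeFactors hp, ?_, he0⟩
      rw [he]
      refine dvd_trans ?_ (Finset.dvd_prod_of_mem _ hp)
      refine dvd_pow_self p ?_
      have h1 := (Nat.prime_of_mem_primeFactors hp).factorization_pos_of_dvd hn.ne'
        ((Nat.dvd_of_mem_primeFactors hp).trans hd)
      exact h1.ne'

theorem part_dvd {G V : Type*} [Group G] [Finite G] [AddCommGroup V] [Module ℂ V]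
    [FiniteDimensional ℂ V] (ρ : Representation ℂ G V) [ρ.IsIrreducible] {d : ℕ}
    (hd : d ∣ conductor ρ.character) (h6 : d.primeFactors.card ≤ 6) :
    (∃ g z, Module.End.HasEigenvalue (ρ g) z ∧ d ∣ orderOf z) ∧
      (∃ g : G, orderOf g = d) ∧
      (valueField ρ.character).relfinrank (valueField ρ.character ⊔ cyc d) ≤
        Module.finrank ℂ V := by
  have hc := conductor_pos ρ
  have hd0 : 0 < d := Nat.pos_of_dvd_of_pos hd hc
  obtain ⟨e, hde, hen, hcop, hpf⟩ := exists_unitary hc hd
  have he0 : 0 < e := Nat.pos_of_dvd_of_pos hen hc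
  obtain ⟨⟨g, z, hz, hez⟩, ⟨h, hh⟩, hdeg⟩ := part ρ hen hcop (by rw [hpf]; exact h6)
  refine ⟨⟨g, z, hz, hde.trans hez⟩, ⟨h ^ (e / d), ?_⟩, ?_⟩
  · rw [orderOf_pow_of_dvd (Nat.div_pos (Nat.le_of_dvd he0 hde) hd0).ne'
      (by rw [hh]; exact Nat.div_dvd_of_dvd hde), hh, Nat.div_div_self hde he0.ne']
  · refine le_trans (relfinrank_mono le_sup_left (sup_le_sup_left (cyc_mono he0 hde) _) ?_) hdeg
    haveI := finiteDimensional_of_le Nat.card_pos (valueField_le ρ)
    haveI := finiteDimensional_of_le (F := cyc e) he0 le_rfl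
    exact IntermediateField.finiteDimensional_sup _ _

end Pool.Agent.FV86
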