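import Pool.Agent.FV86.Cyc

/-!
# Values of characters lie in the cyclotomic field of the order of the group

PROOF. `ρ g` satisfies `(ρ g)^|G| = 1`, so all roots of its characteristic polynomial are
`|G|`-th roots of unity (an eigenvalue `z` of `f` with `f^n = 1` satisfies `z^n = 1`:
`Module.End.HasEigenvector.pow_apply`), and the trace is the sum of the roots of the characteristic
polynomial (`Matrix.trace_eq_sum_roots_charpoly` or `LinearMap.trace_eq_sum_roots_charpoly`). The
conductor: the set in its definition is not empty (it contains `|G|`), use `Nat.sInf_mem`.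
-/

set_option autoImplicit false

namespace Pool.Agent.FV86

variable {G V : Type*} [Group G] [Finite G] [AddCommGroup V] [Module ℂ V] [FiniteDimensional ℂ V]

omit [Finite G] in
private theorem root_pow (ρ : Representation ℂ G V) (g : G) {z : ℂ}
    (hz : z ∈ (LinearMap.charpoly (ρ g)).roots) : z ^ Nat.card G = 1 := by
  have h1 : Module.End.HasEigenvalue (ρ g) z :=
    (Module.End.hasEigenvalue_iff_isRoot_charpoly (ρ g) z).2 (Polynomial.isRoot_of_mem_roots hz)
  obtain ⟨v, hv⟩ := h1.exists_hasEigenvector
  have h2 := hv.pow_apply (Nat.card G)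
  rw [← map_pow, pow_card_eq_one', map_one] at h2
  have h3 : (z ^ Nat.card G - 1) • v = 0 := by
    rw [sub_smul, one_smul, ← h2]
    simp
  rcases smul_eq_zero.1 h3 with h4 | h4
  · exact sub_eq_zero.1 h4
  · exact absurd h4 hv.2

omit [Finite G] in
private theorem char_eq (ρ : Representation ℂ G V) (g : G) :
    ρ.character g = (LinearMap.charpoly (ρ g)).roots.sum :=
  Module.End.trace_eq_sum_roots_charpoly_of_splits (IsAlgClosed.splits _)

theorem valueField_le (ρ : Representation ℂ G V) :
    valueField ρ.character ≤ cyc (Nat.card G) := by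
  unfold valueField
  rw [IntermediateField.adjoin_le_iff]
  rintro _ ⟨g, rfl⟩
  rw [char_eq]
  exact multiset_sum_mem _ fun z hz => mem_cyc Nat.card_pos (root_pow ρ g hz)

theorem conductor_pos (ρ : Representation ℂ G V) : 0 < conductor ρ.character :=
  (Nat.sInf_mem (s := {n : ℕ | 0 < n ∧ valueField ρ.character ≤ cyc n})
    ⟨Nat.card G, Nat.card_pos, valueField_le ρ⟩).1

theorem valueField_le_conductor (ρ : Representation ℂ G V) :
    valueField ρ.character ≤ cyc (conductor ρ.character) :=
  (Nat.sInf_mem (s := {n : ℕ | 0 < n ∧ valueField ρ.character ≤ cyc n})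
    ⟨Nat.card G, Nat.card_pos, valueField_le ρ⟩).2

/-- Values of characters are algebraic integers. -/
theorem isIntegral_character (ρ : Representation ℂ G V) (g : G) :
    IsIntegral ℤ (ρ.character g) := by
  rw [char_eq]
  exact IsIntegral.multiset_sum fun z hz => isIntegral_of_pow Nat.card_pos (root_pow ρ g hz)

end Pool.Agent.FV86
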