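import Pool.Agent.FV86.Cyc

/-!
# Intersections of cyclotomic fields

PROOF. `⊇` is `cyc_mono`. For `⊆` compare degrees: `cyc a ⊔ cyc b` is cyclotomic of level
`lcm a b` (`IntermediateField.isCyclotomicExtension_lcm_sup`), so it has degree `φ (lcm a b)`
(`IsCyclotomicExtension.Rat.finrank`), and for Galois extensions
`[K₁ ⊔ K₂ : ℚ] * [K₁ ⊓ K₂ : ℚ] = [K₁ : ℚ] * [K₂ : ℚ]`; with `φ (gcd) φ (lcm) = φ a φ b`
(`Nat.totient_gcd_mul_totient_mul` or similar) the degree of `cyc a ⊓ cyc b` is `φ (gcd a b)`.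
Alternative: in `L = cyc (lcm a b)` the Galois group is `(ZMod (lcm a b))ˣ` and an element which is
`1` modulo `gcd a b` is a product of one which is `1` modulo `a` and one which is `1` modulo `b`
(Chinese remainder theorem).
-/

set_option autoImplicit false

namespace Pool.Agent.FV86

/-- Intersection of two intermediate fields of a Galois extension, by degrees. -/
theorem inf_le_of_finrank {F E : Type*} [Field F] [Field E] [Algebra F E] [FiniteDimensional F E]
    [IsGalois F E] (A B C : IntermediateField F E) (hCA : C ≤ A) (hCB : C ≤ B) (hAB : A ⊔ B = ⊤)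
    (hcard : Module.finrank F A * Module.finrank F B = Module.finrank F C * Module.finrank F E) :
    A ⊓ B ≤ C := by
  have cA : Module.finrank F A * Nat.card A.fixingSubgroup = Module.finrank F E := by
    rw [IsGalois.card_fixingSubgroup_eq_finrank]; exact Module.finrank_mul_finrank F A E
  have cB : Module.finrank F B * Nat.card B.fixingSubgroup = Module.finrank F E := by
    rw [IsGalois.card_fixingSubgroup_eq_finrank]; exact Module.finrank_mul_finrank F B E
  have cC : Module.finrank F C * Nat.card C.fixingSubgroup = Module.finrank F E := by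
    rw [IsGalois.card_fixingSubgroup_eq_finrank]; exact Module.finrank_mul_finrank F C E
  have leA : A.fixingSubgroup ≤ C.fixingSubgroup := IntermediateField.fixingSubgroup_le hCA
  have leB : B.fixingSubgroup ≤ C.fixingSubgroup := IntermediateField.fixingSubgroup_le hCB
  have triv : ∀ σ, σ ∈ A.fixingSubgroup → σ ∈ B.fixingSubgroup → σ = 1 := by
    intro σ h1 h2
    have h3 : A ⊔ B ≤ IntermediateField.fixedField (Subgroup.zpowers σ) := by
      apply sup_le
      · rw [IntermediateField.le_iff_le, Subgroup.zpowers_le]; exact h1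
      · rw [IntermediateField.le_iff_le, Subgroup.zpowers_le]; exact h2
    rw [hAB] at h3
    apply AlgEquiv.ext
    intro x
    have h4 := h3 (IntermediateField.mem_top : x ∈ (⊤ : IntermediateField F E))
    rw [IntermediateField.mem_fixedField_iff] at h4
    exact h4 σ (Subgroup.mem_zpowers σ)
  let f : A.fixingSubgroup × B.fixingSubgroup → C.fixingSubgroup := fun p =>
    ⟨p.1.1 * p.2.1, C.fixingSubgroup.mul_mem (leA p.1.2) (leB p.2.2)⟩
  have finj : Function.Injective f := by
    rintro ⟨⟨x, hx⟩, ⟨y, hy⟩⟩ ⟨⟨x', hx'⟩, ⟨y', hy'⟩⟩ h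
    have h1 : x * y = x' * y' := congrArg Subtype.val h
    have h2 : x'⁻¹ * x = y' * y⁻¹ := by
      rw [inv_mul_eq_iff_eq_mul, ← mul_assoc, ← h1, mul_assoc, mul_inv_cancel, mul_one]
    have h3 : x'⁻¹ * x = 1 := triv _ (A.fixingSubgroup.mul_mem (A.fixingSubgroup.inv_mem hx') hx)
      (by rw [h2]; exact B.fixingSubgroup.mul_mem hy' (B.fixingSubgroup.inv_mem hy))
    have h4 : x' = x := inv_mul_eq_one.1 h3
    have h5 : y = y' := by
      rw [h4] at h1
      exact mul_left_cancel h1
    subst h4 h5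
    rfl
  have pA : 0 < Module.finrank F A := Module.finrank_pos
  have pB : 0 < Module.finrank F B := Module.finrank_pos
  have hc : Nat.card (A.fixingSubgroup × B.fixingSubgroup) = Nat.card C.fixingSubgroup := by
    rw [Nat.card_prod]
    apply Nat.eq_of_mul_eq_mul_left (Nat.mul_pos pA pB)
    calc Module.finrank F A * Module.finrank F B *
          (Nat.card A.fixingSubgroup * Nat.card B.fixingSubgroup)
        = (Module.finrank F A * Nat.card A.fixingSubgroup) *
          (Module.finrank F B * Nat.card B.fixingSubgroup) := by ring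
      _ = Module.finrank F E * (Module.finrank F C * Nat.card C.fixingSubgroup) := by
          rw [cA, cB, cC]
      _ = (Module.finrank F C * Module.finrank F E) * Nat.card C.fixingSubgroup := by ring
      _ = _ := by rw [hcard]
  have fsurj : Function.Surjective f :=
    ((Nat.bijective_iff_injective_and_card f).2 ⟨finj, hc⟩).2
  rintro x ⟨hxa, hxb⟩
  have h1 : x ∈ IntermediateField.fixedField C.fixingSubgroup := by
    rw [IntermediateField.mem_fixedField_iff]
    intro σ hσ
    obtain ⟨⟨⟨s, hs⟩, ⟨t, ht⟩⟩, hst⟩ := fsurj ⟨σ, hσ⟩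
    have h2 : s * t = σ := congrArg Subtype.val hst
    rw [← h2]
    show s (t x) = _
    rw [(IntermediateField.mem_fixingSubgroup_iff _ _).1 ht x hxb,
      (IntermediateField.mem_fixingSubgroup_iff _ _).1 hs x hxa]
  rwa [IsGalois.fixedField_fixingSubgroup] at h1

theorem totient_gcd_lcm {a b : ℕ} (ha : 0 < a) :
    (a.gcd b).totient * (a.lcm b).totient = a.totient * b.totient := by
  have hg : 0 < a.gcd b := Nat.gcd_pos_of_pos_left b ha
  have h1 := Nat.totient_gcd_mul_totient_mul a b
  have h2 := Nat.totient_gcd_mul_totient_mul (a.gcd b) (a.lcm b)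
  have h3 : (a.gcd b).gcd (a.lcm b) = a.gcd b :=
    Nat.gcd_eq_left ((Nat.gcd_dvd_left a b).trans (Nat.dvd_lcm_left a b))
  rw [h3, Nat.gcd_mul_lcm] at h2
  rw [h2] at h1
  have h4 : ((a.gcd b).totient * (a.lcm b).totient) * a.gcd b =
      (a.totient * b.totient) * a.gcd b := h1
  exact Nat.eq_of_mul_eq_mul_right hg h4

theorem finrank_cyc {n : ℕ} (hn : 0 < n) : Module.finrank ℚ (cyc n) = n.totient := by
  have : NeZero n := ⟨hn.ne'⟩
  have i1 := isCyclotomic_cyc hn
  exact IsCyclotomicExtension.Rat.finrank n _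

theorem finrank_restrict {d n : ℕ} (hd : 0 < d) (h : cyc d ≤ cyc n) :
    Module.finrank ℚ (IntermediateField.restrict h) = d.totient := by
  rw [← finrank_cyc hd]
  exact (IntermediateField.restrictAlgEquiv h).symm.toLinearEquiv.finrank_eq

theorem restrict_sup {a b : ℕ} (ha : 0 < a) (hb : 0 < b) (h1 : cyc a ≤ cyc (a.lcm b))
    (h2 : cyc b ≤ cyc (a.lcm b)) :
    IntermediateField.restrict h1 ⊔ IntermediateField.restrict h2 = ⊤ := by
  have hN : 0 < a.lcm b := Nat.lcm_pos ha hb
  let z : ℕ → ℂ := fun n => Complex.exp (2 * Real.pi * Complex.I / n)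
  have hz : ∀ n, z n ∈ cyc n := fun n => IntermediateField.mem_adjoin_simple_self ℚ _
  have hbez : z (a.lcm b) = z a ^ (a.gcdB b) * z b ^ (a.gcdA b) := by
    simp only [z]
    rw [← Complex.exp_int_mul, ← Complex.exp_int_mul, ← Complex.exp_add]
    congr 1
    have e1 : ((a.gcd b : ℕ) : ℂ) = a * (a.gcdA b : ℂ) + b * (a.gcdB b : ℂ) := by
      have := Nat.gcd_eq_gcd_ab a b
      exact_mod_cast this
    have e2 : ((a.gcd b : ℕ) : ℂ) * ((a.lcm b : ℕ) : ℂ) = a * b := by
      exact_mod_cast Nat.gcd_mul_lcm a b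
    have n1 : (a : ℂ) ≠ 0 := by exact_mod_cast ha.ne'
    have n2 : (b : ℂ) ≠ 0 := by exact_mod_cast hb.ne'
    have n3 : ((a.lcm b : ℕ) : ℂ) ≠ 0 := by exact_mod_cast hN.ne'
    field_simp
    rw [← e2, e1]
    ring
  have hza : (⟨z a, h1 (hz a)⟩ : cyc (a.lcm b)) ∈ IntermediateField.restrict h1 :=
    (IntermediateField.mem_restrict h1 _).2 (hz a)
  have hzb : (⟨z b, h2 (hz b)⟩ : cyc (a.lcm b)) ∈ IntermediateField.restrict h2 :=
    (IntermediateField.mem_restrict h2 _).2 (hz b)
  set T := IntermediateField.restrict h1 ⊔ IntermediateField.restrict h2 with hT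
  have hza' : (⟨z a, h1 (hz a)⟩ : cyc (a.lcm b)) ∈ T := (le_sup_left : _ ≤ T) hza
  have hzb' : (⟨z b, h2 (hz b)⟩ : cyc (a.lcm b)) ∈ T := (le_sup_right : _ ≤ T) hzb
  have hgen : (⟨z (a.lcm b), hz _⟩ : cyc (a.lcm b)) ∈ T := by
    have e3 : (⟨z (a.lcm b), hz _⟩ : cyc (a.lcm b)) =
        (⟨z a, h1 (hz a)⟩ : cyc (a.lcm b)) ^ (a.gcdB b) *
          (⟨z b, h2 (hz b)⟩ : cyc (a.lcm b)) ^ (a.gcdA b) := by
      apply Subtype.ext
      exact hbez
    rw [e3]
    exact mul_mem (zpow_mem hza' _) (zpow_mem hzb' _)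
  rw [eq_top_iff]
  rintro ⟨x, hx⟩ -
  have key : ∀ x (hx : x ∈ cyc (a.lcm b)), (⟨x, hx⟩ : cyc (a.lcm b)) ∈ T := by
    intro x hx
    induction hx using IntermediateField.adjoin_induction with
    | mem x hx =>
      rw [Set.mem_singleton_iff] at hx
      subst hx
      exact hgen
    | algebraMap x => exact T.algebraMap_mem x
    | add x y hx hy h1 h2 => exact add_mem h1 h2
    | inv x hx h1 => exact inv_mem h1
    | mul x y hx hy h1 h2 => exact mul_mem h1 h2
  exact key x hx

theorem cyc_inf {a b : ℕ} (ha : 0 < a) (hb : 0 < b) : cyc a ⊓ cyc b = cyc (a.gcd b) := by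
  have hg : 0 < a.gcd b := Nat.gcd_pos_of_pos_left b ha
  have hN : 0 < a.lcm b := Nat.lcm_pos ha hb
  have haN : cyc a ≤ cyc (a.lcm b) := cyc_mono hN (Nat.dvd_lcm_left a b)
  have hbN : cyc b ≤ cyc (a.lcm b) := cyc_mono hN (Nat.dvd_lcm_right a b)
  have hga : cyc (a.gcd b) ≤ cyc a := cyc_mono ha (Nat.gcd_dvd_left a b)
  have hgb : cyc (a.gcd b) ≤ cyc b := cyc_mono hb (Nat.gcd_dvd_right a b)
  have hG : IsGalois ℚ (cyc (a.lcm b)) := isGalois_of_le hN le_rfl
  have hfd : FiniteDimensional ℚ (cyc (a.lcm b)) := finiteDimensional_of_le hN le_rfl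
  apply le_antisymm
  swap
  · exact le_inf hga hgb
  have h1 := @inf_le_of_finrank ℚ (cyc (a.lcm b)) _ _ _ (by exact hfd) (by exact hG)
    (IntermediateField.restrict haN) (IntermediateField.restrict hbN)
    (IntermediateField.restrict (hga.trans haN))
    (fun y hy => (IntermediateField.mem_restrict _ y).2
      (hga ((IntermediateField.mem_restrict _ y).1 hy)))
    (fun y hy => (IntermediateField.mem_restrict _ y).2
      (hgb ((IntermediateField.mem_restrict _ y).1 hy)))
    (restrict_sup ha hb haN hbN)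
    (by
      rw [finrank_restrict ha, finrank_restrict hb, finrank_restrict hg, ← totient_gcd_lcm ha]
      congr 1
      exact (finrank_cyc hN).symm)
  rintro x ⟨hxa, hxb⟩
  have h2 : (⟨x, haN hxa⟩ : cyc (a.lcm b)) ∈ IntermediateField.restrict haN ⊓
      IntermediateField.restrict hbN :=
    ⟨(IntermediateField.mem_restrict _ _).2 hxa, (IntermediateField.mem_restrict _ _).2 hxb⟩
  exact (IntermediateField.mem_restrict _ _).1 (h1 h2)

end Pool.Agent.FV86
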