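import Pool.Agent.FV86.Defs

/-!
# Extending automorphisms of a subfield to the complex numbers

PROOF. Choose a transcendence basis `v : ι → ℂ` of `ℂ` over `L` for the usual `L`-algebra structure
(`exists_isTranscendenceBasis`). Let `ℂ'` be `ℂ` with the `L`-algebra structure `x ↦ τ x` (a type
synonym, or `letI` with `RingHom.toAlgebra`); the same `v` is a transcendence basis of `ℂ'` over
`L`, because the set of `L`-polynomial relations is only changed by `τ`. Now copy the construction
of `IsAlgClosed.equivOfTranscendenceBasis` (Mathlib/FieldTheory/IsAlgClosed/Classification.lean):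
the isomorphism of the adjoins `L[v] ≃ L'[v]` is an `L`-algebra isomorphism, and
`IsAlgClosure.equivOfEquiv` extends it (`IsAlgClosure.equivOfEquiv_comp_algebraMap`).
Alternative: `L[v]` is a polynomial ring; map it by `MvPolynomial.map τ`, take fraction fields and
`IsAlgClosed.lift`/`IsAlgClosure.equivOfEquiv`.
-/

set_option autoImplicit false

namespace Pool.Agent.FV86

theorem exists_ext (L : IntermediateField ℚ ℂ) (τ : L ≃ₐ[ℚ] L) :
    ∃ T : ℂ ≃+* ℂ, ∀ x : L, T (x : ℂ) = ((τ x : L) : ℂ) := by
  obtain ⟨s, hs⟩ := exists_isTranscendenceBasis L ℂ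
  let _ := IsAlgClosed.isAlgClosure_of_transcendence_basis _ hs
  let e : Algebra.adjoin L (Set.range ((↑) : s → ℂ)) ≃+* Algebra.adjoin L (Set.range ((↑) : s → ℂ)) :=
    (hs.1.aevalEquiv.symm.toRingEquiv.trans (MvPolynomial.mapEquiv s τ.toRingEquiv)).trans
      hs.1.aevalEquiv.toRingEquiv
  refine ⟨IsAlgClosure.equivOfEquiv ℂ ℂ e, fun x => ?_⟩
  have h1 : (x : ℂ) = algebraMap (Algebra.adjoin L (Set.range ((↑) : s → ℂ))) ℂ
      (algebraMap L (Algebra.adjoin L (Set.range ((↑) : s → ℂ))) x) := rfl
  have h2 : e (algebraMap L (Algebra.adjoin L (Set.range ((↑) : s → ℂ))) x) =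
      algebraMap L (Algebra.adjoin L (Set.range ((↑) : s → ℂ))) (τ x) := by
    show hs.1.aevalEquiv (MvPolynomial.map (τ : L →+* L) (hs.1.aevalEquiv.symm _)) = _
    rw [AlgEquiv.commutes, MvPolynomial.algebraMap_eq, MvPolynomial.map_C,
      ← MvPolynomial.algebraMap_eq, AlgEquiv.commutes]
    rfl
  rw [h1, IsAlgClosure.equivOfEquiv_algebraMap, h2]
  rfl

end Pool.Agent.FV86
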