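import Pool.Agent.FV86.Defs

/-!
# Fixed points on cosets

PROOFS. `sum_fix`: `fix (Z ⧸ P) v = #{c ∈ Z ⧸ P : v • c = c}`; exchange the sums; for `c = y P` one has
`v • c = c` iff `y⁻¹ v y ∈ P`, and `∑_{v : y⁻¹ v y ∈ P} H v = ∑_{w ∈ P} H w` by the substitution
`v = y w y⁻¹` as `H` is a class function.
`fix_modEq`: the `ℓ`-group `zpowers v` acts on `Z ⧸ P`; its fixed points are those of `v`;
`IsPGroup.card_modEq_card_fixedPoints`; the index of a Sylow subgroup is prime to `ℓ`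
(`Sylow.not_dvd_index`).
`fix_pow`: `fix` is prime to `ℓ`, so `Nat.ModEq.pow_totient`.
-/

set_option autoImplicit false

namespace Pool.Agent.FV86

theorem sum_fix {Z : Type*} [Group Z] [Fintype Z] (P : Subgroup Z) [Fintype P] (H : Z → ℂ)
    (hH : ∀ v y : Z, H (y * v * y⁻¹) = H v) :
    ∑ v : Z, H v * fix (Z ⧸ P) v = P.index * ∑ v : P, H (v : Z) := by
  classical
  have : Fintype (Z ⧸ P) := Fintype.ofFinite _
  have h1 : ∀ v : Z, ((fix (Z ⧸ P) v : ℕ) : ℂ) = ∑ c : Z ⧸ P, if v • c = c then (1 : ℂ) else 0 := by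
    intro v
    rw [Finset.sum_boole]
    congr 1
    unfold fix
    rw [Nat.card_eq_fintype_card, Fintype.card_subtype]
    rfl
  have h2 : ∀ c : Z ⧸ P, ∑ v : Z, H v * (if v • c = c then (1 : ℂ) else 0)
      = ∑ v : P, H (v : Z) := by
    intro c
    induction c using QuotientGroup.induction_on with
    | H y =>
      have e1 : ∀ v : Z, (v • (y : Z ⧸ P) = (y : Z ⧸ P)) ↔ y⁻¹ * v * y ∈ P := by
        intro v
        have : v • (y : Z ⧸ P) = ((v * y : Z) : Z ⧸ P) := rfl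
        rw [this, eq_comm, QuotientGroup.eq, ← mul_assoc]
      rw [← Equiv.sum_comp (MulAut.conj y).toEquiv]
      have e2 : ∀ w : Z, H ((MulAut.conj y).toEquiv w) *
          (if ((MulAut.conj y).toEquiv w) • (y : Z ⧸ P) = (y : Z ⧸ P) then (1 : ℂ) else 0)
          = if w ∈ P then H w else 0 := by
        intro w
        have e3 : (MulAut.conj y).toEquiv w = y * w * y⁻¹ := rfl
        rw [e3, hH, mul_ite, mul_one, mul_zero]
        have e4 : y⁻¹ * (y * w * y⁻¹) * y = w := by group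
        simp only [e1, e4]
      rw [Finset.sum_congr rfl fun w _ => e2 w, ← Finset.sum_filter]
      symm
      apply Finset.sum_bij (fun (w : P) _ => (w : Z))
      · intro a _
        simp
      · intro a _ b _ hab
        exact Subtype.ext hab
      · intro b hb
        simp only [Finset.mem_filter, Finset.mem_univ, true_and] at hb
        exact ⟨⟨b, hb⟩, Finset.mem_univ _, rfl⟩
      · intro a _
        rfl
  calc ∑ v : Z, H v * fix (Z ⧸ P) v
      = ∑ v : Z, ∑ c : Z ⧸ P, H v * (if v • c = c then (1 : ℂ) else 0) := by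
        apply Finset.sum_congr rfl
        intro v _
        rw [h1, Finset.mul_sum]
    _ = ∑ c : Z ⧸ P, ∑ v : Z, H v * (if v • c = c then (1 : ℂ) else 0) := Finset.sum_comm
    _ = ∑ c : Z ⧸ P, ∑ v : P, H (v : Z) := Finset.sum_congr rfl fun c _ => h2 c
    _ = P.index * ∑ v : P, H (v : Z) := by
        rw [Finset.sum_const, Finset.card_univ, nsmul_eq_mul, ← Nat.card_eq_fintype_card]
        rfl

theorem fix_pow {Z : Type*} [Group Z] [Finite Z] {ℓ : ℕ} (hℓ : ℓ.Prime) (P : Subgroup Z)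
    (hP : ¬ ℓ ∣ P.index) {v : Z} {r : ℕ} (hv : v ^ ℓ ^ r = 1) (k : ℕ) :
    ∃ q : ℤ, ((fix (Z ⧸ P) v : ℕ) : ℂ) ^ (ℓ ^ k).totient = 1 + (ℓ : ℂ) ^ k * q := by
  classical
  have : Fact ℓ.Prime := ⟨hℓ⟩
  have hpg : IsPGroup ℓ (Subgroup.zpowers v) := by
    intro g
    obtain ⟨g, hg⟩ := g
    obtain ⟨m, rfl⟩ := Subgroup.mem_zpowers_iff.1 hg
    refine ⟨r, Subtype.ext ?_⟩
    change (v ^ m) ^ ℓ ^ r = 1
    rw [← zpow_natCast, ← zpow_mul, mul_comm, zpow_mul, zpow_natCast, hv, one_zpow]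
  have h1 : Nat.card (Z ⧸ P) ≡ Nat.card (MulAction.fixedPoints (Subgroup.zpowers v) (Z ⧸ P)) [MOD ℓ] :=
    hpg.card_modEq_card_fixedPoints (Z ⧸ P)
  have h2 : MulAction.fixedPoints (Subgroup.zpowers v) (Z ⧸ P) = MulAction.fixedBy (Z ⧸ P) v := by
    ext c
    constructor
    · intro h
      exact h ⟨v, Subgroup.mem_zpowers v⟩
    · intro h g
      obtain ⟨g, hg⟩ := g
      obtain ⟨m, rfl⟩ := Subgroup.mem_zpowers_iff.1 hg
      change v ^ m • c = c
      have h3 : v • c = c := h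
      exact MulAction.mem_fixedBy_zpow h3 m
  have h4 : ¬ ℓ ∣ fix (Z ⧸ P) v := by
    intro hd
    rw [h2] at h1
    apply hP
    have h5 : P.index ≡ fix (Z ⧸ P) v [MOD ℓ] := h1
    exact (Nat.modEq_zero_iff_dvd).1 (h5.trans ((Nat.modEq_zero_iff_dvd).2 hd))
  have hcop : Nat.Coprime (fix (Z ⧸ P) v) (ℓ ^ k) :=
    Nat.Coprime.pow_right k ((Nat.Prime.coprime_iff_not_dvd hℓ).2 h4).symm
  have h6 : (fix (Z ⧸ P) v) ^ (ℓ ^ k).totient ≡ 1 [MOD ℓ ^ k] := Nat.ModEq.pow_totient hcop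
  have h7 : ((ℓ ^ k : ℕ) : ℤ) ∣ (((fix (Z ⧸ P) v) ^ (ℓ ^ k).totient : ℕ) : ℤ) - ((1 : ℕ) : ℤ) :=
    (Nat.modEq_iff_dvd).1 h6.symm
  obtain ⟨q, hq⟩ := h7
  refine ⟨q, ?_⟩
  have h8 : (((fix (Z ⧸ P) v) ^ (ℓ ^ k).totient : ℕ) : ℤ) = 1 + (ℓ : ℤ) ^ k * q := by
    push_cast at hq ⊢
    linarith
  have h9 := congrArg (fun t : ℤ => (t : ℂ)) h8
  push_cast at h9
  exact h9

end Pool.Agent.FV86
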