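import Mathlib

/-!
# Fields of values of irreducible characters: the definitions used in the statement

All characters are complex characters of finite groups. `valueField χ = ℚ(χ)`, `cyc n = ℚ_n`,
`conductor χ = c(χ)`, `fixer K M = Gal(K / K ∩ M)`.
-/

set_option autoImplicit false

namespace Pool.Agent.FV86

/-- The field of values `ℚ(χ)`, the subfield of `ℂ` generated by the values of `χ`. -/
noncomputable def valueField {G : Type*} (χ : G → ℂ) : IntermediateField ℚ ℂ :=
  IntermediateField.adjoin ℚ (Set.range χ)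

/-- The cyclotomic field `ℚ_n = ℚ(e^{2πi/n})`, as a subfield of `ℂ`. -/
noncomputable def cyc (n : ℕ) : IntermediateField ℚ ℂ :=
  IntermediateField.adjoin ℚ {Complex.exp (2 * Real.pi * Complex.I / n)}

/-- The conductor `c(χ)`: the least positive `n` with `ℚ(χ) ⊆ ℚ_n`. -/
noncomputable def conductor {G : Type*} (χ : G → ℂ) : ℕ :=
  sInf {n : ℕ | 0 < n ∧ valueField χ ≤ cyc n}

/-- The group `Gal(K / K ∩ M)`: the automorphisms of `K` which fix all elements of `K ∩ M`. -/
noncomputable def fixer (K M : IntermediateField ℚ ℂ) : Subgroup (K ≃ₐ[ℚ] K) :=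
  (M.comap K.val).fixingSubgroup

/-- The assertion of the question for the character of `ρ`: some proper subgroup `H` has an
irreducible character `ψ` (the character of `σ`) with `ℚ(χ) ⊆ ℚ(ψ)` and
`ψ(1) · [ℚ(ψ) : ℚ(χ)] ≤ χ(1)`. -/
def HasSmallCharacter {G V : Type*} [Group G] [AddCommGroup V] [Module ℂ V]
    (ρ : Representation ℂ G V) : Prop :=
  ∃ H : Subgroup G, H ≠ ⊤ ∧
    ∃ (W : Type) (_ : AddCommGroup W) (_ : Module ℂ W) (_ : FiniteDimensional ℂ W)
      (σ : Representation ℂ H W), σ.IsIrreducible ∧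
      valueField ρ.character ≤ valueField σ.character ∧
      Module.finrank ℂ W * (valueField ρ.character).relfinrank (valueField σ.character) ≤
        Module.finrank ℂ V

/-- Some Sylow `m`-subgroup of `A` is not cyclic. -/
def NoncyclicSylow (A : Type*) [Group A] (m : ℕ) : Prop := ∃ P : Sylow m A, ¬ IsCyclic P

/-- For every prime `ℓ` and every homomorphism `ψ : A → ℂˣ` there is `p ∈ I` such that `ψ` is trivial
on the subgroup `S p` and `ℓ` does not divide `|S p|`. -/
def Blocking {A : Type*} [Group A] (I : Finset ℕ) (S : ℕ → Subgroup A) : Prop :=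
  ∀ ℓ : ℕ, ℓ.Prime → ∀ ψ : A →* ℂˣ, ∃ p ∈ I, (∀ σ ∈ S p, ψ σ = 1) ∧ ¬ ℓ ∣ Nat.card (S p)

/-- A family `S p`, `p ∈ I`, of subgroups of a group `A` is exceptional if `I` has at least seven
elements, `A` has non-cyclic Sylow subgroups for two different primes, and for every prime `ℓ` and
every homomorphism `ψ : A → ℂˣ` there is `p ∈ I` such that `ψ` is trivial on `S p` and `ℓ` does not
divide `|S p|`. -/
structure ExceptionalFamily {A : Type*} [Group A] (I : Finset ℕ) (S : ℕ → Subgroup A) : Prop where
  seven : 7 ≤ I.card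
  sylow : ∃ m₁ m₂ : ℕ, m₁.Prime ∧ m₂.Prime ∧ m₁ ≠ m₂ ∧ NoncyclicSylow A m₁ ∧ NoncyclicSylow A m₂
  block : Blocking I S

/-- The groups `Gal(K / K ∩ ℚ_{n/p})`, for the primes `p ∣ n`, are an exceptional family of subgroups
of `Gal(K/ℚ)`. -/
def ExceptionalField (K : IntermediateField ℚ ℂ) (n : ℕ) : Prop :=
  ExceptionalFamily n.primeFactors fun p => fixer K (cyc (n / p))

/-- The exceptional characters, which the theorem does not cover: the conductor has at least seven
prime divisors, `Gal(ℚ(χ)/ℚ)` has non-cyclic Sylow subgroups for two different primes, and for every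
prime `ℓ` and every homomorphism `ψ : Gal(ℚ(χ)/ℚ) → ℂˣ` there is a prime `p ∣ c(χ)` such that `ψ` is
trivial on `I_p = Gal(ℚ(χ) / ℚ(χ) ∩ ℚ_{c(χ)/p})` and `ℓ` does not divide `|I_p|`. -/
def Exceptional {G : Type*} (χ : G → ℂ) : Prop := ExceptionalField (valueField χ) (conductor χ)

end Pool.Agent.FV86
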