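import Pool.Agent.FV86.Cover

/-!
# Existence of the prime and the character

PROOF. Choose for `p ∈ I` a prime `m p` dividing `|S p|` and `s p ∈ S p` of order `m p` (Cauchy). Let
`X = A →* ℂˣ`, a finite commutative group of order `|A|`, and `K p = {ψ : ψ (s p) = 1}`, of index `m p`
(`ψ (s p)` is an `m p`-th root of unity, and some `ψ` has `ψ (s p) ≠ 1`:
`CommGroup.exists_apply_ne_one_of_hasEnoughRootsOfUnity`).
Case 1 (`I.card ≤ 6`): take `ℓ` from `exists_prime`. Case 2: `ℓ` is given. For each prime `q ≠ ℓ` there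
is `y q ∈ X` with `y q ∉ K p` for all `p ∈ I` with `m p = q`: in case 1 by `exists_notMem`; in case 2
because all the elements of order `q` lie in one subgroup of order `q` (the Sylow subgroup is cyclic
and contains all of them, `A` being commutative), so all these `K p` are equal.
Replacing `y q` by its power with exponent the part of `|X|` prime to `q`, we may assume that its
order is a power of `q`; then `y q (s p) = 1` for `m p ≠ q`. Let `ψ` be the product of the `y q` over the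
primes `q ≠ ℓ` of the form `m p`. Then `ψ (s p) = y (m p) (s p) ≠ 1` if `m p ≠ ℓ`, and `ℓ ∣ |S p|` if
`m p = ℓ`.
-/

set_option autoImplicit false

namespace Pool.Agent.FV86

/-- In a finite commutative group with a cyclic Sylow `q`-subgroup, elements of order `q` generate
the same subgroup. -/
theorem comb_mem_zpowers {A : Type*} [CommGroup A] [Finite A] {q : ℕ} (hq : q.Prime)
    (hcyc : ∀ P : Sylow q A, IsCyclic P) {a b : A} (ha : orderOf a = q) (hb : orderOf b = q) :
    b ∈ Subgroup.zpowers a := by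
  classical
  have := Fact.mk hq
  obtain ⟨P, hP⟩ := IsPGroup.exists_le_sylow (p := q) (P := Subgroup.zpowers a)
    (IsPGroup.of_card (n := 1) (by rw [Nat.card_zpowers, ha, pow_one]))
  obtain ⟨Q, hQ⟩ := IsPGroup.exists_le_sylow (p := q) (P := Subgroup.zpowers b)
    (IsPGroup.of_card (n := 1) (by rw [Nat.card_zpowers, hb, pow_one]))
  have hn : (P : Subgroup A).Normal := inferInstance
  let _ := Sylow.unique_of_normal P hn
  have hPQ : Q = P := Subsingleton.elim _ _
  rw [hPQ] at hQ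
  have : IsCyclic P := hcyc P
  have haP : a ∈ (P : Subgroup A) := hP (Subgroup.mem_zpowers a)
  have hbP : b ∈ (P : Subgroup A) := hQ (Subgroup.mem_zpowers b)
  let _ : Fintype P := Fintype.ofFinite _
  let a' : P := ⟨a, haP⟩
  let b' : P := ⟨b, hbP⟩
  have ha' : orderOf a' = q := (Subgroup.orderOf_mk a haP).trans ha
  have hb' : orderOf b' = q := (Subgroup.orderOf_mk b hbP).trans hb
  have haq : a' ^ q = 1 := orderOf_dvd_iff_pow_eq_one.mp (dvd_of_eq ha')
  have hbq : b' ^ q = 1 := orderOf_dvd_iff_pow_eq_one.mp (dvd_of_eq hb')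
  have hle := IsCyclic.card_pow_eq_one_le (α := P) (n := q) hq.pos
  let Z : Finset P := Finset.univ.filter fun x => x ∈ Subgroup.zpowers a'
  have hZc : Z.card = q := by
    have h1 : Nat.card (Subgroup.zpowers a') = Z.card :=
      Nat.subtype_card Z (fun x => by simp [Z])
    rw [← h1, Nat.card_zpowers, ha']
  have hsub : Z ⊆ Finset.univ.filter fun x : P => x ^ q = 1 := by
    intro x hx
    rw [Finset.mem_filter] at hx ⊢
    refine ⟨Finset.mem_univ _, ?_⟩
    obtain ⟨k, hk⟩ := hx.2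
    have hk' : a' ^ k = x := hk
    rw [← hk', ← zpow_natCast, zpow_comm, zpow_natCast, haq, one_zpow]
  have heq : Z = Finset.univ.filter fun x : P => x ^ q = 1 :=
    Finset.eq_of_subset_of_card_le hsub (by rw [hZc]; exact hle)
  have hbZ : b' ∈ Z := by
    rw [heq, Finset.mem_filter]
    exact ⟨Finset.mem_univ _, hbq⟩
  obtain ⟨k, hk⟩ := (Finset.mem_filter.mp hbZ).2
  have hk' : a' ^ k = b' := hk
  refine ⟨k, ?_⟩
  have := congrArg (fun x : P => (x : A)) hk'
  simpa using this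

theorem comb_exists_psi {A : Type*} [CommGroup A] [Finite A]
    (I : Finset ℕ) (S : ℕ → Subgroup A) (hS : ∀ p ∈ I, S p ≠ ⊥)
    (h : I.card ≤ 6 ∨ ∃ ℓ : ℕ, ℓ.Prime ∧ ∀ m : ℕ, m.Prime → m ≠ ℓ →
      ∀ P : Sylow m A, IsCyclic P) :
    ∃ ℓ : ℕ, ℓ.Prime ∧ ∃ ψ : A →* ℂˣ, ∀ p ∈ I, (∃ s ∈ S p, ψ s ≠ 1) ∨ ℓ ∣ Nat.card (S p) := by
  classical
  have hex : ∀ p : ℕ, ∃ (m : ℕ) (s : A), p ∈ I → m.Prime ∧ s ∈ S p ∧ orderOf s = m := by
    intro p
    by_cases hp : p ∈ I
    · obtain ⟨m, hm, hmd⟩ := Nat.exists_prime_and_dvd (n := Nat.card (S p)) (by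
        intro h1
        exact hS p hp (Subgroup.card_eq_one.mp h1))
      have := Fact.mk hm
      obtain ⟨x, hx⟩ := exists_prime_orderOf_dvd_card' m hmd
      exact ⟨m, x, fun _ => ⟨hm, x.2, by rw [Subgroup.orderOf_coe]; exact hx⟩⟩
    · exact ⟨0, 1, fun h => absurd h hp⟩
  choose m s hms using hex
  have : NeZero ((Monoid.exponent A : ℕ) : ℂ) := ⟨by
    exact_mod_cast (Monoid.exponent_ne_zero_of_finite (G := A))⟩
  have : Finite (A →* ℂˣ) :=
    Finite.of_equiv A (CommGroup.monoidHom_mulEquiv_of_hasEnoughRootsOfUnity A ℂ).some.symm.toEquiv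
  have hval : ∀ p ∈ I, ∀ y : A →* ℂˣ, y (s p) ^ m p = 1 := by
    intro p hp y
    rw [← map_pow, ← (hms p hp).2.2, pow_orderOf_eq_one, map_one]
  obtain ⟨ℓ, hℓ, hy⟩ : ∃ ℓ : ℕ, ℓ.Prime ∧ ∀ q : ℕ, q.Prime → q ≠ ℓ →
      ∃ y : A →* ℂˣ, ∀ p ∈ I, m p = q → y (s p) ≠ 1 := by
    rcases h with h6 | ⟨ℓ, hℓ, hcyc⟩
    · obtain ⟨ℓ, hℓ, hcard⟩ := exists_prime I h6 m (fun p hp => (hms p hp).1)
      refine ⟨ℓ, hℓ, fun q hq hqℓ => ?_⟩
      obtain ⟨y, hy⟩ := exists_notMem (X := A →* ℂˣ) hq.one_lt (I.filter fun p => m p = q)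
        (hcard q hqℓ) (fun p => (MonoidHom.eval (s p) : (A →* ℂˣ) →* ℂˣ).ker) (by
          intro p hp
          obtain ⟨hpI, hpq⟩ := Finset.mem_filter.mp hp
          have := Fact.mk hq
          have hne : s p ≠ 1 := by
            intro h1
            have h2 := (hms p hpI).2.2
            rw [h1, orderOf_one, hpq] at h2
            exact hq.one_lt.ne h2
          obtain ⟨φ, hφ⟩ := CommGroup.exists_apply_ne_one_of_hasEnoughRootsOfUnity A ℂ hne
          rw [Subgroup.index_ker]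
          have h3 : orderOf (φ (s p)) = q := by
            refine orderOf_eq_prime ?_ hφ
            rw [← hpq]; exact hval p hpI φ
          have h4 : φ (s p) ∈ (MonoidHom.eval (s p) : (A →* ℂˣ) →* ℂˣ).range := ⟨φ, rfl⟩
          have h5 : orderOf (⟨φ (s p), h4⟩ :
              (MonoidHom.eval (s p) : (A →* ℂˣ) →* ℂˣ).range) = q := by
            rw [← h3]; exact Subgroup.orderOf_mk _ h4
          rw [← h5]
          exact orderOf_dvd_natCard _)
      refine ⟨y, fun p hp hpq h1 => hy p (Finset.mem_filter.mpr ⟨hp, hpq⟩) ?_⟩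
      exact h1
    · refine ⟨ℓ, hℓ, fun q hq hqℓ => ?_⟩
      by_cases hex : ∃ p ∈ I, m p = q
      · obtain ⟨p₀, hp₀, hq₀⟩ := hex
        have hne : s p₀ ≠ 1 := by
          intro h1
          have h2 := (hms p₀ hp₀).2.2
          rw [h1, orderOf_one, hq₀] at h2
          exact hq.one_lt.ne h2
        obtain ⟨y, hy⟩ := CommGroup.exists_apply_ne_one_of_hasEnoughRootsOfUnity A ℂ hne
        refine ⟨y, fun p hp hpq h1 => hy ?_⟩
        obtain ⟨k, hk⟩ := comb_mem_zpowers hq (hcyc q hq hqℓ)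
          ((hms p hp).2.2.trans hpq) ((hms p₀ hp₀).2.2.trans hq₀)
        have hk' : s p ^ k = s p₀ := hk
        rw [← hk', map_zpow, h1, one_zpow]
      · exact ⟨1, fun p hp hpq => absurd ⟨p, hp, hpq⟩ hex⟩
  choose! y hy using hy
  let N : ℕ := Nat.card A
  have hN : N ≠ 0 := Nat.card_pos.ne'
  let Q : Finset ℕ := (I.image m).filter fun q => q ≠ ℓ
  refine ⟨ℓ, hℓ, ∏ q ∈ Q, (y q) ^ (ordCompl[q] N), fun p hp => ?_⟩
  by_cases hmℓ : m p = ℓ
  · right
    rw [← hmℓ, ← (hms p hp).2.2]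
    have h1 : orderOf (⟨s p, (hms p hp).2.1⟩ : S p) = orderOf (s p) := Subgroup.orderOf_mk _ _
    rw [← h1]
    exact orderOf_dvd_natCard _
  · left
    refine ⟨s p, (hms p hp).2.1, ?_⟩
    have hmp : (m p).Prime := (hms p hp).1
    have hmN : m p ∣ N := by
      rw [← (hms p hp).2.2]
      exact orderOf_dvd_natCard _
    have hprod : (∏ q ∈ Q, (y q) ^ (ordCompl[q] N)) (s p) =
        ∏ q ∈ Q, (y q (s p)) ^ (ordCompl[q] N) := by
      rw [MonoidHom.finsetProd_apply]
      rfl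
    rw [hprod]
    rw [Finset.prod_eq_single (m p)]
    · intro h1
      have h2 : orderOf (y (m p) (s p)) = m p := by
        have := Fact.mk hmp
        exact orderOf_eq_prime (hval p hp _) (hy (m p) hmp hmℓ p hp rfl)
      have h3 : m p ∣ ordCompl[m p] N := by
        conv_lhs => rw [← h2]
        exact orderOf_dvd_of_pow_eq_one h1
      exact Nat.not_dvd_ordCompl hmp hN h3
    · intro q hq hqm
      obtain ⟨hqI, hqℓ⟩ := Finset.mem_filter.mp hq
      obtain ⟨p', hp', hpq'⟩ := Finset.mem_image.mp hqI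
      have hqp : q.Prime := by rw [← hpq']; exact (hms p' hp').1
      have hdiv : m p ∣ ordCompl[q] N := by
        have h1 : m p ∣ ordProj[q] N * ordCompl[q] N := by
          rw [Nat.ordProj_mul_ordCompl_eq_self]; exact hmN
        have h2 : Nat.Coprime (m p) (ordProj[q] N) :=
          Nat.Coprime.pow_right _ ((Nat.coprime_primes hmp hqp).mpr (Ne.symm hqm))
        exact h2.dvd_of_dvd_mul_left h1
      obtain ⟨c, hc⟩ := hdiv
      rw [hc, pow_mul, hval p hp, one_pow]
    · intro hnot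
      exact absurd (Finset.mem_filter.mpr ⟨Finset.mem_image_of_mem m hp, hmℓ⟩) hnot

theorem exists_psi {A : Type*} [Group A] [Finite A] (hA : ∀ a b : A, a * b = b * a)
    (I : Finset ℕ) (S : ℕ → Subgroup A) (hS : ∀ p ∈ I, S p ≠ ⊥)
    (h : I.card ≤ 6 ∨ ∃ ℓ : ℕ, ℓ.Prime ∧ ∀ m : ℕ, m.Prime → m ≠ ℓ →
      ∀ P : Sylow m A, IsCyclic P) :
    ∃ ℓ : ℕ, ℓ.Prime ∧ ∃ ψ : A →* ℂˣ, ∀ p ∈ I, (∃ s ∈ S p, ψ s ≠ 1) ∨ ℓ ∣ Nat.card (S p) := by
  let _ : CommGroup A := { ‹Group A› with mul_comm := hA }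
  exact comb_exists_psi I S hS h

end Pool.Agent.FV86
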