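import Pool.Agent.FV86.Defs

/-!
# Decomposition of elements into commuting parts; sums over conjugacy classes

PROOFS. `sum_decomp`: write `|G| = ℓ^k * m` with `ℓ ∤ m` and choose `u` with `u ≡ 1` modulo `m`,
`u ≡ 0` modulo `ℓ^k` (`Nat.chineseRemainder`). The map `π g = g^u` has values in the elements of
order prime to `ℓ`, and `g ↦ (π g)⁻¹ * g` is a bijection from the fibre over `x` to the elements `v` of
the centralizer of `x` with `v ^ ℓ^k = 1` (inverse `v ↦ x * v`, `(x v)^u = x^u v^u = x`). Use
`Finset.sum_fiberwise` or `Finset.sum_bij`/`Finset.sum_sigma`.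
`sum_classes`: group the sum over conjugacy classes; the class of `x` has `|G| / |C(x)|` elements
(`ConjClasses`, `Subgroup.nat_card_centralizer...` or the orbit-stabilizer theorem for `ConjAct`),
so the sum is `∑ A x_K` over the classes `K`.
-/

set_option autoImplicit false

namespace Pool.Agent.FV86

/-- The exponent which projects onto the part of order prime to `ℓ`. -/
theorem exists_proj (G : Type*) [Group G] [Fintype G] {ℓ : ℕ} (hℓ : ℓ.Prime) :
    ∃ u : ℕ, (∀ g : G, ℓ.Coprime (orderOf (g ^ u))) ∧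
      (∀ x : G, ℓ.Coprime (orderOf x) → x ^ u = x) ∧
      (∀ v : G, v ^ ℓ ^ (Nat.card G).factorization ℓ = 1 → v ^ u = 1) ∧
      (∀ g : G, (g ^ u) ^ ℓ ^ (Nat.card G).factorization ℓ =
        g ^ ℓ ^ (Nat.card G).factorization ℓ) := by
  set N := Nat.card G with hN
  have hNpos : 0 < N := Nat.card_pos
  set k := N.factorization ℓ with hk
  obtain ⟨m, hm⟩ : ∃ m, N = ℓ ^ k * m := ⟨N / ℓ ^ k, by
    rw [Nat.mul_div_cancel' (Nat.ordProj_dvd N ℓ)]⟩
  have hcop : Nat.Coprime (ℓ ^ k) m := by
    have h1 : N / ℓ ^ k = m := by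
      rw [hm]; exact Nat.mul_div_cancel_left m (pow_pos hℓ.pos k)
    have h2 := Nat.coprime_ordCompl hℓ hNpos.ne'
    rw [← hk, h1] at h2
    exact Nat.Coprime.pow_left k h2
  have hcopm : 0 < k ∨ k = 0 := by omega
  have hlm : Nat.Coprime ℓ m := by
    have h1 : N / ℓ ^ k = m := by
      rw [hm]; exact Nat.mul_div_cancel_left m (pow_pos hℓ.pos k)
    have h2 := Nat.coprime_ordCompl hℓ hNpos.ne'
    rw [← hk, h1] at h2
    exact h2
  obtain ⟨u, hu0, hu1⟩ := Nat.chineseRemainder hcop 0 1
  have hdu : ℓ ^ k ∣ u := (Nat.modEq_zero_iff_dvd).1 hu0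
  have hord : ∀ g : G, g ^ N = 1 := fun g => pow_card_eq_one'
  refine ⟨u, fun g => ?_, fun x hx => ?_, fun v hv => ?_, fun g => ?_⟩
  · have h1 : (g ^ u) ^ m = 1 := by
      rw [← pow_mul]
      obtain ⟨c, hc⟩ := hdu
      have h2 : u * m = N * c := by rw [hc, hm]; ring
      rw [h2, pow_mul, hord, one_pow]
    exact Nat.Coprime.coprime_dvd_right (orderOf_dvd_of_pow_eq_one h1) hlm
  · have h1 : orderOf x ∣ m := by
      have h2 : orderOf x ∣ ℓ ^ k * m := by
        rw [← hm]; exact orderOf_dvd_of_pow_eq_one (hord x)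
      exact Nat.Coprime.dvd_of_dvd_mul_left (Nat.Coprime.symm (Nat.Coprime.pow_left k hx)) h2
    have h2 : u ≡ 1 [MOD orderOf x] := hu1.of_dvd h1
    have h3 := (pow_eq_pow_iff_modEq (x := x) (n := u) (m := 1)).2 h2
    rw [h3, pow_one]
  · obtain ⟨c, hc⟩ := hdu
    rw [hc, pow_mul, hv, one_pow]
  · rw [← pow_mul]
    apply pow_eq_pow_iff_modEq.2
    have h1 : u * ℓ ^ k ≡ 1 * ℓ ^ k [MOD m * ℓ ^ k] := Nat.ModEq.mul_right' _ hu1
    rw [one_mul] at h1
    refine h1.of_dvd ?_
    rw [mul_comm, ← hm]
    exact orderOf_dvd_of_pow_eq_one (hord g)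

open Classical in
theorem sum_decomp {G : Type*} [Group G] [Fintype G] {ℓ : ℕ} (hℓ : ℓ.Prime) (Φ : G → ℂ) :
    ∑ g, Φ g = ∑ x : G, if ℓ.Coprime (orderOf x) then
      ∑ v : Subgroup.centralizer ({x} : Set G),
        (if (v : G) ^ ℓ ^ (Nat.card G).factorization ℓ = 1 then Φ (x * v) else 0) else 0 := by
  obtain ⟨u, hu1, hu2, hu3, hu4⟩ := exists_proj G hℓ
  rw [← Finset.sum_fiberwise (s := Finset.univ) (g := fun g : G => g ^ u)]
  refine Finset.sum_congr rfl fun x _ => ?_
  split_ifs with hx
  · rw [← Finset.sum_filter]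
    symm
    refine Finset.sum_bij (fun v _ => x * (v : G)) ?_ ?_ ?_ ?_
    · intro v hv
      simp only [Finset.mem_filter, Finset.mem_univ, true_and] at hv ⊢
      have hcomm : Commute x (v : G) := by
        have := v.2
        rw [Subgroup.mem_centralizer_iff] at this
        exact this x (Set.mem_singleton x)
      rw [hcomm.mul_pow, hu3 _ hv, mul_one, hu2 x hx]
    · intro v _ w _ h
      exact Subtype.ext (mul_left_cancel h)
    · intro g hg
      simp only [Finset.mem_filter, Finset.mem_univ, true_and] at hg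
      have hcomm : Commute x g := by
        rw [← hg]
        exact (Commute.refl g).pow_left u
      have hmem : x⁻¹ * g ∈ Subgroup.centralizer ({x} : Set G) := by
        rw [Subgroup.mem_centralizer_iff]
        intro y hy
        rw [Set.mem_singleton_iff] at hy
        subst hy
        rw [← mul_assoc, mul_inv_cancel, one_mul, mul_assoc, ← hcomm.eq, ← mul_assoc,
          inv_mul_cancel, one_mul]
      refine ⟨⟨x⁻¹ * g, hmem⟩, ?_, ?_⟩
      · simp only [Finset.mem_filter, Finset.mem_univ, true_and]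
        rw [(hcomm.inv_left).mul_pow, inv_pow]
        have h1 : x ^ ℓ ^ (Nat.card G).factorization ℓ = g ^ ℓ ^ (Nat.card G).factorization ℓ := by
          rw [← hg]; exact hu4 g
        rw [h1, inv_mul_cancel]
      · change x * (x⁻¹ * g) = g
        rw [mul_inv_cancel_left]
    · intro v _
      rfl
  · apply Finset.sum_eq_zero
    intro g hg
    simp only [Finset.mem_filter, Finset.mem_univ, true_and] at hg
    exact absurd (hg ▸ hu1 g) hx

theorem sum_classes {G : Type*} [Group G] [Fintype G] {ℓ : ℕ} (B : G → ℂ)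
    (hB : ∀ g h, B (h * g * h⁻¹) = B g) (hD : ∀ g, DivBy ℓ (B g)) :
    DivBy ℓ (∑ g, (Nat.card (Subgroup.centralizer ({g} : Set G)) : ℂ) / Nat.card G * B g) := by
  classical
  rw [← Finset.sum_fiberwise (s := Finset.univ) (g := fun g : G => ConjClasses.mk g)]
  refine DivBy.sum _ _ fun K _ => ?_
  obtain ⟨x, rfl⟩ := ConjClasses.exists_rep K
  have hcard : ∀ g ∈ Finset.univ.filter (fun g : G => ConjClasses.mk g = ConjClasses.mk x),
      (Nat.card (Subgroup.centralizer ({g} : Set G)) : ℂ) / Nat.card G * B g =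
      (Nat.card (Subgroup.centralizer ({x} : Set G)) : ℂ) / Nat.card G * B x := by
    intro g hg
    simp only [Finset.mem_filter, Finset.mem_univ, true_and] at hg
    have hconj : IsConj x g := (ConjClasses.mk_eq_mk_iff_isConj.1 hg).symm
    obtain ⟨h, hh⟩ := isConj_iff.1 hconj
    rw [← hh, hB]
    have h1 : Nat.card (Subgroup.centralizer ({h * x * h⁻¹} : Set G)) =
        Nat.card (Subgroup.centralizer ({x} : Set G)) := by
      have h2 : (Subgroup.centralizer ({x} : Set G)).map (MulAut.conj h).toMonoidHom =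
          Subgroup.centralizer ({h * x * h⁻¹} : Set G) := by
        ext y
        rw [Subgroup.mem_map]
        constructor
        · rintro ⟨z, hz, rfl⟩
          rw [Subgroup.mem_centralizer_iff] at hz ⊢
          intro w hw
          rw [Set.mem_singleton_iff] at hw
          subst hw
          have := hz x (Set.mem_singleton x)
          change h * x * h⁻¹ * (h * z * h⁻¹) = h * z * h⁻¹ * (h * x * h⁻¹)
          calc h * x * h⁻¹ * (h * z * h⁻¹) = h * (x * z) * h⁻¹ := by group
            _ = h * (z * x) * h⁻¹ := by rw [this]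
            _ = h * z * h⁻¹ * (h * x * h⁻¹) := by group
        · intro hy
          rw [Subgroup.mem_centralizer_iff] at hy
          have hy' := hy (h * x * h⁻¹) (Set.mem_singleton _)
          refine ⟨h⁻¹ * y * h, ?_, ?_⟩
          · rw [Subgroup.mem_centralizer_iff]
            intro w hw
            rw [Set.mem_singleton_iff] at hw
            subst hw
            calc w * (h⁻¹ * y * h) = h⁻¹ * (h * w * h⁻¹ * y) * h := by group
              _ = h⁻¹ * (y * (h * w * h⁻¹)) * h := by rw [hy']
              _ = h⁻¹ * y * h * w := by group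
          · change h * (h⁻¹ * y * h) * h⁻¹ = y
            group
      rw [← h2]
      exact Nat.card_congr ((Subgroup.equivMapOfInjective _ _
        (MulAut.conj h).injective).symm.toEquiv)
    rw [h1]
  rw [Finset.sum_congr rfl hcard, Finset.sum_const, nsmul_eq_mul]
  have hG : (Nat.card G : ℂ) ≠ 0 := by
    exact_mod_cast Nat.card_pos.ne'
  have hsize : (Finset.univ.filter (fun g : G => ConjClasses.mk g = ConjClasses.mk x)).card *
      Nat.card (Subgroup.centralizer ({x} : Set G)) = Nat.card G := by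
    rw [Subgroup.nat_card_centralizer_nat_card_stabilizer]
    have h1 := MulAction.card_orbit_mul_card_stabilizer_eq_card_group (ConjAct G) x
    rw [Nat.card_eq_fintype_card, Nat.card_eq_fintype_card]
    have h2 : Fintype.card (ConjAct G) = Fintype.card G := ConjAct.card
    rw [h2] at h1
    rw [← h1]
    congr 1
    rw [← Set.toFinset_card]
    congr 1
    ext g
    simp only [Finset.mem_filter, Finset.mem_univ, true_and, Set.mem_toFinset]
    rw [ConjAct.mem_orbit_conjAct, ConjClasses.mk_eq_mk_iff_isConj]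
  have h3 : (((Finset.univ.filter (fun g : G => ConjClasses.mk g = ConjClasses.mk x)).card : ℕ) : ℂ) *
      ((Nat.card (Subgroup.centralizer ({x} : Set G)) : ℂ) / Nat.card G * B x) = B x := by
    rw [← mul_assoc, ← mul_div_assoc, ← Nat.cast_mul, hsize, div_self hG, one_mul]
  rw [h3]
  exact hD x

end Pool.Agent.FV86
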