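import Pool.Agent.FV86.Defs

/-!
# The character of a permutation representation; averages are natural numbers

`char_ofMulAction`: `Representation.ofMulAction ℂ P Ω v` permutes the basis of `Ω →₀ ℂ`; the trace of
its matrix counts the fixed points (`LinearMap.trace_eq_matrix_trace` with
`Finsupp.basisSingleOne`).
`isIntegral_average`: `Representation.card_inv_mul_sum_char_eq_finrank`; the average is the dimension
of the invariants.
`exists_invariant`: if the average is not `0` there is a non-zero invariant vector.
-/

set_option autoImplicit false

namespace Pool.Agent.FV86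

theorem char_ofMulAction {P Ω : Type*} [Group P] [MulAction P Ω] [Finite Ω] (v : P) :
    (Representation.ofMulAction ℂ P Ω).character v = (fix Ω v : ℂ) := by
  classical
  have := Fintype.ofFinite Ω
  rw [Representation.character,
    LinearMap.trace_eq_matrix_trace ℂ (MonoidAlgebra.basis Ω ℂ), Matrix.trace]
  have h : ∀ x : Ω, (LinearMap.toMatrix (MonoidAlgebra.basis Ω ℂ) (MonoidAlgebra.basis Ω ℂ)
      (Representation.ofMulAction ℂ P Ω v)).diag x = if v • x = x then 1 else 0 := by
    intro x
    rw [Matrix.diag_apply, LinearMap.toMatrix_apply, MonoidAlgebra.basis_apply,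
      Representation.ofMulAction_single]
    change (MonoidAlgebra.single (v • x) (1 : ℂ)).coeff x = _
    rw [MonoidAlgebra.coeff_single, Finsupp.single_apply]
  rw [Finset.sum_congr rfl fun x _ => h x, Finset.sum_boole]
  unfold fix
  rw [Nat.card_eq_fintype_card, Fintype.card_subtype]
  rfl

theorem average_nat {D V : Type*} [Group D] [Fintype D] [AddCommGroup V] [Module ℂ V]
    [FiniteDimensional ℂ V] (σ : Representation ℂ D V) :
    (Fintype.card D : ℂ)⁻¹ * ∑ d, σ.character d = (Module.finrank ℂ σ.invariants : ℂ) := by
  have : Invertible (Nat.card D : ℂ) := invertibleOfNonzero (by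
    simp [Nat.card_eq_fintype_card, Fintype.card_ne_zero])
  have h := Representation.card_inv_mul_sum_char_eq_finrank σ
  rwa [Nat.card_eq_fintype_card] at h

/-- The fixed points on a function space. -/
theorem fix_pi {P Ω : Type*} [Group P] [MulAction P Ω] [Finite Ω] (j : ℕ) (v : P) :
    fix (Fin j → Ω) v = fix Ω v ^ j := by
  unfold fix
  have e : MulAction.fixedBy (Fin j → Ω) v ≃ (Fin j → MulAction.fixedBy Ω v) :=
    { toFun := fun f i => ⟨f.1 i, by
        have := f.2
        rw [MulAction.mem_fixedBy] at this ⊢
        exact congrFun this i⟩
      invFun := fun f => ⟨fun i => (f i).1, by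
        rw [MulAction.mem_fixedBy]
        funext i
        exact (f i).2⟩
      left_inv := fun f => rfl
      right_inv := fun f => rfl }
  rw [Nat.card_congr e, Nat.card_fun]
  simp

end Pool.Agent.FV86
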