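import Pool.Agent.FV86.Fixed
import Pool.Agent.FV86.Decomp
import Pool.Agent.FV86.Perm

/-!
# The global argument (the elementary form of Brauer's theorem which is needed)

PROOF. `|G| = ℓ^k * m`. For `x` of order prime to `ℓ` let `Z = C(x)`, `P` a Sylow `ℓ`-subgroup of `Z`,
`S x = ∑_{v ∈ Z, v^(ℓ^k) = 1} Φ (x v)`, `g v = Φ (x v)` if `v^(ℓ^k) = 1` and `0` otherwise, a class
function on `Z`. With `j = φ(ℓ^k) - 1`, `sum_fix` for `H v = g v * fix v ^ j` gives
`∑_v g v * fix v ^ (j+1) = |Z| * T` with `T = |P|⁻¹ * ∑_{v ∈ P} Φ (x v) * fix v ^ j`, and `T` is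
divisible by `ℓ` by `hβ` for `Ω = Fin j → Z ⧸ P` (`fix_pi`). By `fix_pow`,
`S x = |Z| * T - ℓ^k * ∑_v g v * q_v`, so `(m / |Z|) * S x = m * T - (ℓ^k m / |Z|) * ∑ g v q_v` is
divisible by `ℓ` (`|Z| ∣ |G|`, `hα`). By `sum_decomp`,
`m * (|G|⁻¹ * ∑ Φ) = ∑_x (|Z(x)| / |G|) * ((m / |Z(x)|) * S x)` and `sum_classes` applies
(`S` is a class function: conjugation by `h` maps `C(x)` to `C(h x h⁻¹)`).
-/

set_option autoImplicit false

namespace Pool.Agent.FV86

universe u

/-- The number of fixed points is a class function. -/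
theorem fix_conj {Z Ω : Type*} [Group Z] [MulAction Z Ω] (y v : Z) :
    fix Ω (y * v * y⁻¹) = fix Ω v := by
  unfold fix
  refine Nat.card_congr ⟨fun c => ⟨y⁻¹ • (c : Ω), ?_⟩, fun c => ⟨y • (c : Ω), ?_⟩, ?_, ?_⟩
  · have h := c.2
    rw [MulAction.mem_fixedBy] at h ⊢
    have h2 : y⁻¹ • ((y * v * y⁻¹) • (c : Ω)) = y⁻¹ • (c : Ω) := by rw [h]
    rw [smul_smul] at h2
    rw [smul_smul]
    have h3 : y⁻¹ * (y * v * y⁻¹) = v * y⁻¹ := by group
    rw [h3] at h2
    exact h2
  · have h := c.2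
    rw [MulAction.mem_fixedBy] at h ⊢
    rw [smul_smul]
    have h3 : y * v * y⁻¹ * y = y * v := by group
    rw [h3, mul_smul, h]
  · intro c
    apply Subtype.ext
    simp
  · intro c
    apply Subtype.ext
    simp

theorem card_centralizer_conj {G : Type*} [Group G] (x h : G) :
    Nat.card (Subgroup.centralizer ({h * x * h⁻¹} : Set G)) =
      Nat.card (Subgroup.centralizer ({x} : Set G)) := by
  refine Nat.card_congr ⟨fun y => ⟨h⁻¹ * (y : G) * h, ?_⟩, fun y => ⟨h * (y : G) * h⁻¹, ?_⟩, ?_, ?_⟩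
  · have hy := (Subgroup.mem_centralizer_iff.1 y.2) (h * x * h⁻¹) (Set.mem_singleton _)
    rw [Subgroup.mem_centralizer_iff]
    intro w hw
    rw [Set.mem_singleton_iff] at hw
    subst hw
    calc w * (h⁻¹ * (y : G) * h) = h⁻¹ * (h * w * h⁻¹ * (y : G)) * h := by group
      _ = h⁻¹ * ((y : G) * (h * w * h⁻¹)) * h := by rw [hy]
      _ = h⁻¹ * (y : G) * h * w := by group
  · have hy := (Subgroup.mem_centralizer_iff.1 y.2) x (Set.mem_singleton _)
    rw [Subgroup.mem_centralizer_iff]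
    intro w hw
    rw [Set.mem_singleton_iff] at hw
    subst hw
    calc h * x * h⁻¹ * (h * (y : G) * h⁻¹) = h * (x * (y : G)) * h⁻¹ := by group
      _ = h * ((y : G) * x) * h⁻¹ := by rw [hy]
      _ = h * (y : G) * h⁻¹ * (h * x * h⁻¹) := by group
  · intro y
    apply Subtype.ext
    change h * (h⁻¹ * (y : G) * h) * h⁻¹ = y
    group
  · intro y
    apply Subtype.ext
    change h⁻¹ * (h * (y : G) * h⁻¹) * h = y
    group

open Classical in
/-- The sum over the `ℓ`-elements of the centralizer. -/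
theorem sum_centralizer_conj {G : Type*} [Group G] [Fintype G] (Φ : G → ℂ)
    (hconj : ∀ g h, Φ (h * g * h⁻¹) = Φ g) (q : ℕ) (x h : G) :
    (∑ v : Subgroup.centralizer ({h * x * h⁻¹} : Set G),
        (if (v : G) ^ q = 1 then Φ (h * x * h⁻¹ * v) else 0)) =
      ∑ v : Subgroup.centralizer ({x} : Set G), (if (v : G) ^ q = 1 then Φ (x * v) else 0) := by
  symm
  refine Finset.sum_bij (fun v _ => ⟨h * (v : G) * h⁻¹, ?_⟩) ?_ ?_ ?_ ?_
  · have hy := (Subgroup.mem_centralizer_iff.1 v.2) x (Set.mem_singleton _)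
    rw [Subgroup.mem_centralizer_iff]
    intro w hw
    rw [Set.mem_singleton_iff] at hw
    subst hw
    calc h * x * h⁻¹ * (h * (v : G) * h⁻¹) = h * (x * (v : G)) * h⁻¹ := by group
      _ = h * ((v : G) * x) * h⁻¹ := by rw [hy]
      _ = h * (v : G) * h⁻¹ * (h * x * h⁻¹) := by group
  · intro v _
    exact Finset.mem_univ _
  · intro v _ w _ hvw
    have h1 := congrArg (Subtype.val) hvw
    have h2 : h * (v : G) * h⁻¹ = h * (w : G) * h⁻¹ := h1
    exact Subtype.ext (mul_left_cancel (mul_right_cancel h2))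
  · intro y _
    have hy := (Subgroup.mem_centralizer_iff.1 y.2) (h * x * h⁻¹) (Set.mem_singleton _)
    refine ⟨⟨h⁻¹ * (y : G) * h, ?_⟩, Finset.mem_univ _, ?_⟩
    · rw [Subgroup.mem_centralizer_iff]
      intro w hw
      rw [Set.mem_singleton_iff] at hw
      subst hw
      calc w * (h⁻¹ * (y : G) * h) = h⁻¹ * (h * w * h⁻¹ * (y : G)) * h := by group
        _ = h⁻¹ * ((y : G) * (h * w * h⁻¹)) * h := by rw [hy]
        _ = h⁻¹ * (y : G) * h * w := by group
    · apply Subtype.ext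
      change h * (h⁻¹ * (y : G) * h) * h⁻¹ = y
      group
  · intro v _
    have h1 : (h * (v : G) * h⁻¹) ^ q = 1 ↔ (v : G) ^ q = 1 := by
      rw [conj_pow]
      constructor
      · intro h2
        have h3 : h * (v : G) ^ q = h * 1 := by
          rw [mul_one]; exact mul_inv_eq_one.1 h2
        exact mul_left_cancel h3
      · intro h2
        rw [h2]
        group
    have h4 : h * x * h⁻¹ * (h * (v : G) * h⁻¹) = h * (x * (v : G)) * h⁻¹ := by group
    change (if (v : G) ^ q = 1 then Φ (x * v) else 0) =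
      (if (h * (v : G) * h⁻¹) ^ q = 1 then Φ (h * x * h⁻¹ * (h * (v : G) * h⁻¹)) else 0)
    rw [h4, hconj]
    by_cases h5 : (v : G) ^ q = 1
    · rw [if_pos h5, if_pos (h1.2 h5)]
    · rw [if_neg h5, if_neg (fun h6 => h5 (h1.1 h6))]

open Classical in
/-- The local part of the count. -/
theorem count_local {G : Type u} [Group G] [Fintype G] {ℓ : ℕ} (hℓ : ℓ.Prime) (Φ : G → ℂ)
    (hconj : ∀ g h, Φ (h * g * h⁻¹) = Φ g)
    (hα : ∀ (x v : G) (r : ℕ), Commute x v → ℓ.Coprime (orderOf x) → v ^ ℓ ^ r = 1 →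
      DivBy ℓ (Φ (x * v)))
    (hβ : ∀ (x : G) (P : Subgroup (Subgroup.centralizer ({x} : Set G)))
      (Ω : Type u) [MulAction P Ω] [Finite Ω] [Fintype P], ℓ.Coprime (orderOf x) →
      IsPGroup ℓ P → DivBy ℓ ((Fintype.card P : ℂ)⁻¹ * ∑ v : P, Φ (x * ((v : Subgroup.centralizer ({x} : Set G)) : G)) *
        fix Ω v)) (x : G) (hx : ℓ.Coprime (orderOf x)) :
    DivBy ℓ (((Nat.card G / ℓ ^ (Nat.card G).factorization ℓ : ℕ) : ℂ) /
      (Nat.card (Subgroup.centralizer ({x} : Set G)) : ℂ) *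
      ∑ v : Subgroup.centralizer ({x} : Set G),
        (if (v : G) ^ ℓ ^ (Nat.card G).factorization ℓ = 1 then Φ (x * v) else 0)) := by
  have := Fact.mk hℓ
  set k := (Nat.card G).factorization ℓ with hk
  set m := Nat.card G / ℓ ^ k with hm
  have hNpos : 0 < Nat.card G := Nat.card_pos
  have hNm : ℓ ^ k * m = Nat.card G := Nat.mul_div_cancel' (Nat.ordProj_dvd _ ℓ)
  let P : Sylow ℓ (Subgroup.centralizer ({x} : Set G)) := default
  have hcentx : ∀ v : Subgroup.centralizer ({x} : Set G), Commute x (v : G) := fun v =>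
    (Subgroup.mem_centralizer_iff.1 v.2) x (Set.mem_singleton _)
  let g : Subgroup.centralizer ({x} : Set G) → ℂ := fun v =>
    if (v : G) ^ ℓ ^ k = 1 then Φ (x * v) else 0
  have hgclass : ∀ v y : Subgroup.centralizer ({x} : Set G), g (y * v * y⁻¹) = g v := by
    intro v y
    have h1 : ((y * v * y⁻¹ : Subgroup.centralizer ({x} : Set G)) : G) =
        (y : G) * (v : G) * (y : G)⁻¹ := rfl
    have h2 : ((y : G) * (v : G) * (y : G)⁻¹) ^ ℓ ^ k = 1 ↔ (v : G) ^ ℓ ^ k = 1 := by
      rw [conj_pow]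
      constructor
      · intro h2
        have h3 : (y : G) * (v : G) ^ ℓ ^ k = (y : G) * 1 := by
          rw [mul_one]; exact mul_inv_eq_one.1 h2
        exact mul_left_cancel h3
      · intro h2
        rw [h2]
        group
    have h3 : x * ((y : G) * (v : G) * (y : G)⁻¹) = (y : G) * (x * (v : G)) * (y : G)⁻¹ := by
      have h4 := (hcentx y).eq
      calc x * ((y : G) * (v : G) * (y : G)⁻¹) = (x * (y : G)) * (v : G) * (y : G)⁻¹ := by group
        _ = ((y : G) * x) * (v : G) * (y : G)⁻¹ := by rw [h4]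
        _ = _ := by group
    change (if ((y * v * y⁻¹ : Subgroup.centralizer ({x} : Set G)) : G) ^ ℓ ^ k = 1 then
      Φ (x * ((y * v * y⁻¹ : Subgroup.centralizer ({x} : Set G)) : G)) else 0) =
      (if (v : G) ^ ℓ ^ k = 1 then Φ (x * v) else 0)
    rw [h1, h3, hconj]
    by_cases h5 : (v : G) ^ ℓ ^ k = 1
    · rw [if_pos h5, if_pos (h2.2 h5)]
    · rw [if_neg h5, if_neg (fun h6 => h5 (h2.1 h6))]
  have hgdiv : ∀ v, DivBy ℓ (g v) := by
    intro v
    change DivBy ℓ (if (v : G) ^ ℓ ^ k = 1 then Φ (x * v) else 0)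
    split_ifs with h
    · exact hα x v k (hcentx v) hx h
    · exact DivBy.zero ℓ
  -- the exponent
  obtain ⟨j, hj⟩ : ∃ j, (ℓ ^ k).totient = j + 1 :=
    ⟨(ℓ ^ k).totient - 1, by
      have := Nat.totient_pos.2 (pow_pos hℓ.pos k)
      omega⟩
  -- the fixed points
  let Ω₀ := Subgroup.centralizer ({x} : Set G) ⧸ (P : Subgroup (Subgroup.centralizer ({x} : Set G)))
  have hq : ∀ v : Subgroup.centralizer ({x} : Set G), ∃ q : ℤ,
      g v * (fix Ω₀ v : ℂ) ^ (j + 1) = g v + (ℓ : ℂ) ^ k * (g v * q) := by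
    intro v
    by_cases h : (v : G) ^ ℓ ^ k = 1
    · have h1 : v ^ ℓ ^ k = 1 := by
        apply Subtype.ext
        exact h
      have h2 : ¬ ℓ ∣ (P : Subgroup (Subgroup.centralizer ({x} : Set G))).index := P.not_dvd_index
      obtain ⟨q, hq⟩ := fix_pow hℓ (P : Subgroup (Subgroup.centralizer ({x} : Set G))) h2 h1 k
      refine ⟨q, ?_⟩
      rw [hj] at hq
      have hq' : (fix Ω₀ v : ℂ) ^ (j + 1) = 1 + (ℓ : ℂ) ^ k * q := hq
      rw [hq']
      ring
    · refine ⟨0, ?_⟩
      have h1 : g v = 0 := if_neg h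
      rw [h1]
      simp
  choose q hq using hq
  -- the sum formula
  have hsum : ∑ v : Subgroup.centralizer ({x} : Set G), (g v * (fix Ω₀ v : ℂ) ^ j) * fix Ω₀ v =
      (P : Subgroup (Subgroup.centralizer ({x} : Set G))).index *
        ∑ v : (P : Subgroup (Subgroup.centralizer ({x} : Set G))),
          (g (v : Subgroup.centralizer ({x} : Set G)) *
            (fix Ω₀ (v : Subgroup.centralizer ({x} : Set G)) : ℂ) ^ j) :=
    sum_fix (P : Subgroup (Subgroup.centralizer ({x} : Set G)))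
      (fun v => g v * (fix Ω₀ v : ℂ) ^ j) (fun v y => by
        change g (y * v * y⁻¹) * (fix Ω₀ (y * v * y⁻¹) : ℂ) ^ j = g v * (fix Ω₀ v : ℂ) ^ j
        rw [hgclass, fix_conj])
  have hP : IsPGroup ℓ (P : Subgroup (Subgroup.centralizer ({x} : Set G))) := P.isPGroup'
  have hT := hβ x (P : Subgroup (Subgroup.centralizer ({x} : Set G))) (Fin j → Ω₀) hx hP
  set T : ℂ := (Fintype.card (P : Subgroup (Subgroup.centralizer ({x} : Set G))) : ℂ)⁻¹ *
    ∑ v : (P : Subgroup (Subgroup.centralizer ({x} : Set G))),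
      Φ (x * ((v : Subgroup.centralizer ({x} : Set G)) : G)) * fix (Fin j → Ω₀) v with hTdef
  have hTsum : ∑ v : (P : Subgroup (Subgroup.centralizer ({x} : Set G))),
          (g (v : Subgroup.centralizer ({x} : Set G)) *
            (fix Ω₀ (v : Subgroup.centralizer ({x} : Set G)) : ℂ) ^ j) =
      (Fintype.card (P : Subgroup (Subgroup.centralizer ({x} : Set G))) : ℂ) * T := by
    rw [hTdef, ← mul_assoc, mul_inv_cancel₀, one_mul]
    · refine Finset.sum_congr rfl fun v _ => ?_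
      have h1 : ((v : Subgroup.centralizer ({x} : Set G)) : G) ^ ℓ ^ k = 1 := by
        obtain ⟨a, ha⟩ := hP.exists_card_eq
        have h2 : orderOf ((v : Subgroup.centralizer ({x} : Set G)) : G) ∣ ℓ ^ k := by
          have h3 : orderOf ((v : Subgroup.centralizer ({x} : Set G)) : G) = orderOf v := by
            rw [Subgroup.orderOf_coe, Subgroup.orderOf_coe]
          have h4 : orderOf v ∣ ℓ ^ a := by
            rw [← ha]
            exact orderOf_dvd_natCard v
          obtain ⟨b, _, hb⟩ := (Nat.dvd_prime_pow hℓ).1 h4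
          have h5 : orderOf ((v : Subgroup.centralizer ({x} : Set G)) : G) ∣ Nat.card G :=
            orderOf_dvd_natCard _
          rw [h3, hb] at h5
          rw [h3, hb]
          exact pow_dvd_pow ℓ ((hℓ.pow_dvd_iff_le_factorization hNpos.ne').1 h5)
        exact orderOf_dvd_iff_pow_eq_one.1 h2
      have h2 : g (v : Subgroup.centralizer ({x} : Set G)) =
          Φ (x * ((v : Subgroup.centralizer ({x} : Set G)) : G)) := if_pos h1
      have h3 : fix (Fin j → Ω₀) v = fix Ω₀ v ^ j := fix_pi j v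
      have h4 : fix Ω₀ v = fix Ω₀ (v : Subgroup.centralizer ({x} : Set G)) := rfl
      rw [h2, h3, h4]
      push_cast
      rfl
    · exact_mod_cast Fintype.card_ne_zero
  have hcardZ : ((P : Subgroup (Subgroup.centralizer ({x} : Set G))).index : ℂ) *
      (Fintype.card (P : Subgroup (Subgroup.centralizer ({x} : Set G))) : ℂ) =
      (Nat.card (Subgroup.centralizer ({x} : Set G)) : ℂ) := by
    have h1 := Subgroup.index_mul_card (P : Subgroup (Subgroup.centralizer ({x} : Set G)))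
    rw [← Nat.card_eq_fintype_card, ← Nat.cast_mul, h1]
  have hmain : (∑ v : Subgroup.centralizer ({x} : Set G), g v) =
      (Nat.card (Subgroup.centralizer ({x} : Set G)) : ℂ) * T -
        (ℓ : ℂ) ^ k * ∑ v : Subgroup.centralizer ({x} : Set G), g v * q v := by
    rw [hTsum, ← mul_assoc, hcardZ] at hsum
    rw [← hsum, Finset.mul_sum, ← Finset.sum_sub_distrib]
    refine Finset.sum_congr rfl fun v _ => ?_
    have h1 := hq v
    have h2 : g v * (fix Ω₀ v : ℂ) ^ j * fix Ω₀ v = g v * (fix Ω₀ v : ℂ) ^ (j + 1) := by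
      rw [pow_succ]; ring
    rw [h2, h1]
    ring
  have hZne : (Nat.card (Subgroup.centralizer ({x} : Set G)) : ℂ) ≠ 0 := by
    exact_mod_cast Nat.card_pos.ne'
  obtain ⟨c, hc⟩ := Subgroup.card_subgroup_dvd_card (Subgroup.centralizer ({x} : Set G))
  have hgoal : (m : ℂ) / (Nat.card (Subgroup.centralizer ({x} : Set G)) : ℂ) *
      (∑ v : Subgroup.centralizer ({x} : Set G), g v) =
      (m : ℂ) * T - (c : ℂ) * ∑ v : Subgroup.centralizer ({x} : Set G), g v * q v := by
    rw [hmain, mul_sub]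
    congr 1
    · field_simp
    · have h1 : (m : ℂ) / (Nat.card (Subgroup.centralizer ({x} : Set G)) : ℂ) * (ℓ : ℂ) ^ k =
          (c : ℂ) := by
        rw [div_mul_eq_mul_div, div_eq_iff hZne]
        have h2 : ((ℓ ^ k * m : ℕ) : ℂ) =
            ((Nat.card (Subgroup.centralizer ({x} : Set G)) * c : ℕ) : ℂ) := by
          rw [hNm, hc]
        push_cast at h2
        rw [mul_comm (m : ℂ), h2]
        ring
      rw [← mul_assoc, h1]
  have hfin : DivBy ℓ ((m : ℂ) / (Nat.card (Subgroup.centralizer ({x} : Set G)) : ℂ) *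
      (∑ v : Subgroup.centralizer ({x} : Set G), g v)) := by
    rw [hgoal]
    refine DivBy.sub (hT.mul_left (isIntegral_natCast m)) (DivBy.mul_left ?_ (isIntegral_natCast c))
    exact DivBy.sum _ _ fun v _ => (hgdiv v).mul_right (isIntegral_intCast (q v))
  exact hfin

theorem count {G : Type u} [Group G] [Fintype G] {ℓ : ℕ} (hℓ : ℓ.Prime) (Φ : G → ℂ)
    (hconj : ∀ g h, Φ (h * g * h⁻¹) = Φ g)
    (hα : ∀ (x v : G) (r : ℕ), Commute x v → ℓ.Coprime (orderOf x) → v ^ ℓ ^ r = 1 →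
      DivBy ℓ (Φ (x * v)))
    (hβ : ∀ (x : G) (P : Subgroup (Subgroup.centralizer ({x} : Set G)))
      (Ω : Type u) [MulAction P Ω] [Finite Ω] [Fintype P], ℓ.Coprime (orderOf x) →
      IsPGroup ℓ P → DivBy ℓ ((Fintype.card P : ℂ)⁻¹ * ∑ v : P, Φ (x * ((v : Subgroup.centralizer ({x} : Set G)) : G)) *
        fix Ω v)) :
    DivBy ℓ (((Nat.card G / ℓ ^ (Nat.card G).factorization ℓ : ℕ) : ℂ) *
      ((Nat.card G : ℂ)⁻¹ * ∑ g, Φ g)) := by
  classical
  set k := (Nat.card G).factorization ℓ with hk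
  set m := Nat.card G / ℓ ^ k with hm
  let B : G → ℂ := fun x => if ℓ.Coprime (orderOf x) then
    (m : ℂ) / (Nat.card (Subgroup.centralizer ({x} : Set G)) : ℂ) *
      ∑ v : Subgroup.centralizer ({x} : Set G),
        (if (v : G) ^ ℓ ^ k = 1 then Φ (x * v) else 0) else 0
  have hB : ∀ x h, B (h * x * h⁻¹) = B x := by
    intro x h
    change (if ℓ.Coprime (orderOf (h * x * h⁻¹)) then
      (m : ℂ) / (Nat.card (Subgroup.centralizer ({h * x * h⁻¹} : Set G)) : ℂ) *
      ∑ v : Subgroup.centralizer ({h * x * h⁻¹} : Set G),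
        (if (v : G) ^ ℓ ^ k = 1 then Φ (h * x * h⁻¹ * v) else 0) else 0) =
      (if ℓ.Coprime (orderOf x) then
      (m : ℂ) / (Nat.card (Subgroup.centralizer ({x} : Set G)) : ℂ) *
      ∑ v : Subgroup.centralizer ({x} : Set G),
        (if (v : G) ^ ℓ ^ k = 1 then Φ (x * v) else 0) else 0)
    have ho : orderOf (h * x * h⁻¹) = orderOf x := by
      have h1 : h * x * h⁻¹ = MulAut.conj h x := rfl
      rw [h1]
      exact MulEquiv.orderOf_eq (MulAut.conj h) x
    rw [ho, card_centralizer_conj, sum_centralizer_conj Φ hconj]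
  have hD : ∀ x, DivBy ℓ (B x) := by
    intro x
    change DivBy ℓ (if ℓ.Coprime (orderOf x) then
      (m : ℂ) / (Nat.card (Subgroup.centralizer ({x} : Set G)) : ℂ) *
      ∑ v : Subgroup.centralizer ({x} : Set G),
        (if (v : G) ^ ℓ ^ k = 1 then Φ (x * v) else 0) else 0)
    split_ifs with hx
    · exact count_local hℓ Φ hconj hα hβ x hx
    · exact DivBy.zero ℓ
  have h := sum_classes B hB hD
  have heq : (m : ℂ) * ((Nat.card G : ℂ)⁻¹ * ∑ g, Φ g) =
      ∑ g, (Nat.card (Subgroup.centralizer ({g} : Set G)) : ℂ) / Nat.card G * B g := by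
    rw [sum_decomp hℓ Φ, ← mul_assoc, Finset.mul_sum]
    refine Finset.sum_congr rfl fun x _ => ?_
    change _ = (Nat.card (Subgroup.centralizer ({x} : Set G)) : ℂ) / Nat.card G *
      (if ℓ.Coprime (orderOf x) then
      (m : ℂ) / (Nat.card (Subgroup.centralizer ({x} : Set G)) : ℂ) *
      ∑ v : Subgroup.centralizer ({x} : Set G),
        (if (v : G) ^ ℓ ^ k = 1 then Φ (x * v) else 0) else 0)
    have hZne : (Nat.card (Subgroup.centralizer ({x} : Set G)) : ℂ) ≠ 0 := by
      exact_mod_cast Nat.card_pos.ne'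
    have hGne : (Nat.card G : ℂ) ≠ 0 := by
      exact_mod_cast Nat.card_pos.ne'
    split_ifs with hx
    · rw [← mul_assoc]
      congr 1
      field_simp
    · simp
  rw [heq]
  exact h

end Pool.Agent.FV86
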