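import Pool.Agent.FV86.Cyc

/-!
# Natural irrationalities in a cyclotomic field

PROOF. Let `L = cyc N`, `Γ = Gal(L/ℚ)` (abelian), `F' = F` and `M' = cyc M` as intermediate fields
of `L/ℚ` (`IntermediateField.restrict`, or `IntermediateField.comap L.val`). By the Galois
correspondence (`IsGalois.intermediateFieldEquivSubgroup` is an order isomorphism onto the dual)
`fixingSubgroup (F' ⊓ M') = fixingSubgroup F' ⊔ fixingSubgroup M'`, and in an abelian group every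
element of the join is a product (`Subgroup.mem_sup`). Extend `σ` to some `σ' ∈ Γ`
(`F` is normal: `AlgEquiv.liftNormal`, or surjectivity of the restriction); `σ'` fixes `F' ⊓ M'`, so
`σ' = α * τ` with `α` trivial on `F'` and `τ` trivial on `M'`. As everything commutes,
`τ` and `σ'` agree on `F'`.
-/

set_option autoImplicit false

namespace Pool.Agent.FV86

theorem exists_ext_fix {F : IntermediateField ℚ ℂ} {N M : ℕ} (hN : 0 < N) (hM : M ∣ N)
    (hF : F ≤ cyc N) (σ : F ≃ₐ[ℚ] F) (hσ : ∀ x : F, (x : ℂ) ∈ cyc M → σ x = x) :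
    ∃ τ : cyc N ≃ₐ[ℚ] cyc N,
      (∀ x : F, ((τ ⟨(x : ℂ), hF x.2⟩ : cyc N) : ℂ) = ((σ x : F) : ℂ)) ∧
      ∀ y : cyc N, (y : ℂ) ∈ cyc M → τ y = y := by
  have hG : IsGalois ℚ (cyc N) := isGalois_of_le hN le_rfl
  have hfd : FiniteDimensional ℚ (cyc N) := finiteDimensional_of_le hN le_rfl
  have hMN : cyc M ≤ cyc N := cyc_mono hN hM
  have hcomm : ∀ σ τ : cyc N ≃ₐ[ℚ] cyc N, σ * τ = τ * σ := comm_of_le hN le_rfl
  set F' : IntermediateField ℚ (cyc N) := IntermediateField.restrict hF with hF'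
  set M' : IntermediateField ℚ (cyc N) := IntermediateField.restrict hMN with hM'
  let e : F ≃ₐ[ℚ] F' := IntermediateField.restrictAlgEquiv hF
  let σ₁ : F' ≃ₐ[ℚ] F' := (e.symm.trans σ).trans e
  let σ₂ : cyc N ≃ₐ[ℚ] cyc N := σ₁.liftNormal (cyc N)
  have h1 : ∀ x : F, ((σ₂ ⟨(x : ℂ), hF x.2⟩ : cyc N) : ℂ) = ((σ x : F) : ℂ) := by
    intro x
    have h2 : (⟨(x : ℂ), hF x.2⟩ : cyc N) = algebraMap F' (cyc N) (e x) := rfl
    rw [h2, AlgEquiv.liftNormal_commutes]
    have h3 : σ₁ (e x) = e (σ x) := by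
      show e (σ (e.symm (e x))) = e (σ x)
      rw [AlgEquiv.symm_apply_apply]
    rw [h3]
    rfl
  have h4 : (F' ⊓ M').fixingSubgroup = F'.fixingSubgroup ⊔ M'.fixingSubgroup := by
    have h5 := (IsGalois.intermediateFieldEquivSubgroup (F := ℚ) (E := cyc N)).map_inf F' M'
    exact congrArg OrderDual.ofDual h5
  have h6 : σ₂ ∈ (F' ⊓ M').fixingSubgroup := by
    rw [IntermediateField.mem_fixingSubgroup_iff]
    rintro y ⟨hy1, hy2⟩
    have hy1' : (y : ℂ) ∈ F := (IntermediateField.mem_restrict hF y).1 hy1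
    have hy2' : (y : ℂ) ∈ cyc M := (IntermediateField.mem_restrict hMN y).1 hy2
    have h7 := h1 ⟨(y : ℂ), hy1'⟩
    rw [hσ ⟨(y : ℂ), hy1'⟩ hy2'] at h7
    exact Subtype.ext h7
  have hn : (F'.fixingSubgroup).Normal := ⟨fun n hn g => by
    rw [hcomm g n, mul_assoc, mul_inv_cancel, mul_one]; exact hn⟩
  rw [h4] at h6
  obtain ⟨α, hα, τ, hτ, h8⟩ := Subgroup.mem_sup_of_normal_left.1 h6
  refine ⟨τ, fun x => ?_, fun y hy => ?_⟩
  · rw [← h1 x, ← h8, hcomm α τ]
    have h9 : α ⟨(x : ℂ), hF x.2⟩ = ⟨(x : ℂ), hF x.2⟩ :=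
      (IntermediateField.mem_fixingSubgroup_iff _ _).1 hα _
        ((IntermediateField.mem_restrict hF _).2 x.2)
    show _ = ((τ (α ⟨(x : ℂ), hF x.2⟩) : cyc N) : ℂ)
    rw [h9]
  · exact (IntermediateField.mem_fixingSubgroup_iff _ _).1 hτ y
      ((IntermediateField.mem_restrict hMN y).2 hy)

end Pool.Agent.FV86
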