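import Pool.Agent.FV86.CharVals
import Pool.Agent.FV86.CycInf
import Pool.Agent.FV86.Irr
import Pool.Agent.FV86.Ext

/-!
# The groups `I_p`

PROOFS. `conductor_dvd`: `valueField ≤ cyc c ⊓ cyc N = cyc (gcd c N)`, so `c ≤ gcd c N` by
minimality (`Nat.sInf_le`).
`inertia_ext`: let `N = |G|`, `r = c.factorization p ≥ 1`, `M = (N / p ^ N.factorization p) * p^(r-1)`
(`ordCompl[p] N * p^(r-1)`), `M ∣ N`, `gcd c M = c / p` as `c ∣ N`. If `x ∈ ℚ(χ)` lies in `cyc M`
then in `cyc (gcd c M) = cyc (c/p)`, so `σ x = x`. Use `exists_ext_fix`, then `exists_ext`. If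
`z^N = 1` and `p^r ∤ orderOf z` then `orderOf z ∣ M`, so `z ∈ cyc M` is fixed.
`inertia_ne`: otherwise `inertia` is trivial. By the Galois correspondence (`ℚ(χ)/ℚ` is Galois)
`ℚ(χ) ∩ cyc (c/p)` is all of `ℚ(χ)`, so `ℚ(χ) ≤ cyc (c/p)`, against minimality (`0 < c/p < c`).
-/

set_option autoImplicit false

namespace Pool.Agent.FV86

variable {G V : Type*} [Group G] [Finite G] [AddCommGroup V] [Module ℂ V] [FiniteDimensional ℂ V]

theorem conductor_dvd (ρ : Representation ℂ G V) : conductor ρ.character ∣ Nat.card G := by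
  have hc := conductor_pos ρ
  have hN : 0 < Nat.card G := Nat.card_pos
  have h1 : valueField ρ.character ≤ cyc ((conductor ρ.character).gcd (Nat.card G)) := by
    rw [← cyc_inf hc hN]
    exact le_inf (valueField_le_conductor ρ) (valueField_le ρ)
  have h2 : conductor ρ.character ≤ (conductor ρ.character).gcd (Nat.card G) :=
    Nat.sInf_le ⟨Nat.gcd_pos_of_pos_left _ hc, h1⟩
  have h3 : (conductor ρ.character).gcd (Nat.card G) = conductor ρ.character :=
    le_antisymm (Nat.gcd_le_left _ hc) h2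
  rw [← h3]
  exact Nat.gcd_dvd_right _ _

private theorem dvd_div_of_dvd {c N p d : ℕ} (hp : p.Prime) (hc : 0 < c) (hN : N ≠ 0)
    (hpc : p ∣ c) (hd : d ∣ c)
    (hdM : d ∣ N / p ^ N.factorization p * p ^ (c.factorization p - 1)) : d ∣ c / p := by
  obtain ⟨k, hk⟩ := hd
  have hr : 1 ≤ c.factorization p := (hp.dvd_iff_one_le_factorization hc.ne').mp hpc
  have hpk : p ∣ k := by
    by_contra hpk
    have h1 : p ^ c.factorization p ∣ d * k := hk ▸ Nat.ordProj_dvd c p
    have h2 : Nat.Coprime (p ^ c.factorization p) k :=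
      Nat.Coprime.pow_left _ ((Nat.Prime.coprime_iff_not_dvd hp).mpr hpk)
    have h3 : p ^ c.factorization p ∣ d := h2.dvd_of_dvd_mul_right h1
    have h4 := h3.trans hdM
    have h5 : Nat.Coprime (p ^ c.factorization p) (N / p ^ N.factorization p) :=
      Nat.Coprime.pow_left _ (Nat.coprime_ordCompl hp hN)
    have h6 : p ^ c.factorization p ∣ p ^ (c.factorization p - 1) := h5.dvd_of_dvd_mul_left h4
    have h7 := (Nat.pow_dvd_pow_iff_le_right hp.one_lt).mp h6
    omega
  obtain ⟨m, rfl⟩ := hpk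
  refine ⟨m, ?_⟩
  rw [hk]
  have : d * (p * m) = p * (d * m) := by ring
  rw [this, Nat.mul_div_cancel_left _ hp.pos]

private theorem order_dvd {o N p r : ℕ} (hN : N ≠ 0) (ho : o ∣ N)
    (hpo : ¬ p ^ r ∣ o) : o ∣ N / p ^ N.factorization p * p ^ (r - 1) := by
  have ho0 : o ≠ 0 := fun h => hN (by rw [h] at ho; exact Nat.eq_zero_of_zero_dvd ho)
  have h1 : o.factorization p ≤ r - 1 := by
    by_contra h
    have h2 : r ≤ o.factorization p := by omega
    exact hpo ((pow_dvd_pow p h2).trans (Nat.ordProj_dvd o p))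
  have h2 : o / p ^ o.factorization p ∣ N / p ^ N.factorization p :=
    Nat.ordCompl_dvd_ordCompl_of_dvd ho p
  have h3 := mul_dvd_mul h2 (pow_dvd_pow p h1)
  have h4 : o / p ^ o.factorization p * p ^ o.factorization p = o :=
    Nat.div_mul_cancel (Nat.ordProj_dvd o p)
  rwa [h4] at h3

private theorem level_dvd {c N p : ℕ} (hN : N ≠ 0) (hcN : c ∣ N) :
    N / p ^ N.factorization p * p ^ (c.factorization p - 1) ∣ N := by
  have hc0 : c ≠ 0 := fun h => hN (by rw [h] at hcN; exact Nat.eq_zero_of_zero_dvd hcN)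
  have h1 : c.factorization p ≤ N.factorization p :=
    (Nat.factorization_le_iff_dvd hc0 hN).mpr hcN p
  have h2 : N / p ^ N.factorization p * p ^ N.factorization p = N :=
    Nat.div_mul_cancel (Nat.ordProj_dvd N p)
  have h3 := mul_dvd_mul (dvd_refl (N / p ^ N.factorization p))
    (pow_dvd_pow p ((Nat.sub_le (c.factorization p) 1).trans h1))
  rwa [h2] at h3

theorem inertia_ext (ρ : Representation ℂ G V) {p : ℕ}
    (hp : p ∈ (conductor ρ.character).primeFactors)
    (σ : valueField ρ.character ≃ₐ[ℚ] valueField ρ.character) (hσ : σ ∈ inertia ρ.character p) :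
    ∃ T : ℂ ≃+* ℂ, (∀ x : valueField ρ.character, T (x : ℂ) = ((σ x : valueField ρ.character) : ℂ)) ∧
      ∀ z : ℂ, z ^ Nat.card G = 1 →
        ¬ p ^ (conductor ρ.character).factorization p ∣ orderOf z → T z = z := by
  have hc := conductor_pos ρ
  have hN : 0 < Nat.card G := Nat.card_pos
  have hcN := conductor_dvd ρ
  obtain ⟨hpp, hpc, _⟩ := Nat.mem_primeFactors.mp hp
  set c := conductor ρ.character with hcdef
  set N := Nat.card G with hNdef
  have hMN : N / p ^ N.factorization p * p ^ (c.factorization p - 1) ∣ N :=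
    level_dvd hN.ne' hcN
  set M := N / p ^ N.factorization p * p ^ (c.factorization p - 1) with hMdef
  have hM : 0 < M := Nat.pos_of_dvd_of_pos hMN hN
  have hcp : 0 < c / p := Nat.div_pos (Nat.le_of_dvd hc hpc) hpp.pos
  have hσ' : ∀ x : valueField ρ.character, (x : ℂ) ∈ cyc M → σ x = x := by
    intro x hx
    apply hσ x
    have h1 : (x : ℂ) ∈ cyc (c.gcd M) := by
      rw [← cyc_inf hc hM]
      exact ⟨valueField_le_conductor ρ x.2, hx⟩
    exact cyc_mono hcp (dvd_div_of_dvd hpp hc hN.ne' hpc (Nat.gcd_dvd_left _ _)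
      (Nat.gcd_dvd_right _ _)) h1
  obtain ⟨τ, h1, h2⟩ := exists_ext_fix hN hMN (valueField_le ρ) σ hσ'
  obtain ⟨T, hT⟩ := exists_ext (cyc N) τ
  refine ⟨T, ?_, ?_⟩
  · intro x
    rw [← h1 x, ← hT]
  · intro z hz hpz
    have h3 : z ^ M = 1 :=
      orderOf_dvd_iff_pow_eq_one.mp (order_dvd hN.ne' (orderOf_dvd_of_pow_eq_one hz) hpz)
    have h4 : z ∈ cyc M := mem_cyc hM h3
    have h5 : z ∈ cyc N := cyc_mono hN hMN h4
    have h6 := hT ⟨z, h5⟩
    rw [h2 ⟨z, h5⟩ h4] at h6
    exact h6

theorem inertia_ne (ρ : Representation ℂ G V) {p : ℕ}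
    (hp : p ∈ (conductor ρ.character).primeFactors) : inertia ρ.character p ≠ ⊥ := by
  intro hbot
  have hc := conductor_pos ρ
  obtain ⟨hpp, hpc, _⟩ := Nat.mem_primeFactors.mp hp
  have hcp : 0 < conductor ρ.character / p := Nat.div_pos (Nat.le_of_dvd hc hpc) hpp.pos
  have hfd : FiniteDimensional ℚ (valueField ρ.character) :=
    finiteDimensional_of_le hc (valueField_le_conductor ρ)
  have hgal : IsGalois ℚ (valueField ρ.character) :=
    isGalois_of_le hc (valueField_le_conductor ρ)
  let K : IntermediateField ℚ (valueField ρ.character) :=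
    (cyc (conductor ρ.character / p)).comap (valueField ρ.character).val
  have hK : K.fixingSubgroup = ⊥ := by
    rw [eq_bot_iff, ← hbot]
    intro σ hσ x hx
    exact (IntermediateField.mem_fixingSubgroup_iff K σ).mp hσ x hx
  have hK2 : K = ⊤ := by
    rw [← IsGalois.fixedField_fixingSubgroup K, hK, IntermediateField.fixedField_bot]
  have hle : valueField ρ.character ≤ cyc (conductor ρ.character / p) := by
    intro x hx
    have h1 : (⟨x, hx⟩ : valueField ρ.character) ∈ K := by
      rw [hK2]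
      exact IntermediateField.mem_top
    exact h1
  have h3 : conductor ρ.character ≤ conductor ρ.character / p := Nat.sInf_le ⟨hcp, hle⟩
  have h4 := Nat.div_lt_self hc hpp.one_lt
  omega

end Pool.Agent.FV86
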