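import Pool.Agent.FV86.CharVals

/-!
# Orthogonality of Galois conjugates

PROOF. `orth_one`: `conj χ 1 = χ` and the sum is `1` (`Representation.char_orthonormal`). `orth_ne`: the sum
is the dimension of the space of intertwining maps from `ρ` to `ρ'`
(`Representation.card_inv_mul_sum_char_mul_char_eq_finrank`). If it is not `0` there is a non-zero
intertwining map `f : ρ → ρ'`, injective because `ρ` is irreducible
(`Representation.IsIrreducible.injective_or_eq_zero`), and bijective since both spaces have dimension
`finrank ℂ V`; so the characters agree (`Representation.char_iso`), so `a` fixes all `χ g`, which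
generate `ℚ(χ)`, and `a = 1`.
-/

set_option autoImplicit false

namespace Pool.Agent.FV86

theorem orth_one {G V : Type*} [Group G] [Fintype G] [AddCommGroup V] [Module ℂ V]
    [FiniteDimensional ℂ V] (ρ : Representation ℂ G V) [ρ.IsIrreducible] :
    ((Nat.card G : ℂ)⁻¹ * ∑ g, conj ρ.character 1 g * ρ.character g⁻¹) = 1 := by
  classical
  have hG : (Nat.card G : ℂ) ≠ 0 := by
    have : Nat.card G ≠ 0 := Nat.card_ne_zero.mpr ⟨⟨1⟩, inferInstance⟩
    exact_mod_cast this
  let _ : Invertible (Nat.card G : ℂ) := invertibleOfNonzero hG
  have h1 : ∀ g, conj ρ.character 1 g = ρ.character g := fun g => rfl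
  simp_rw [h1]
  rw [Representation.char_orthonormal ρ ρ, if_pos ⟨Representation.Equiv.refl ρ⟩]

theorem orth_ne {G V : Type*} [Group G] [Fintype G] [AddCommGroup V] [Module ℂ V]
    [FiniteDimensional ℂ V] (ρ : Representation ℂ G V) [ρ.IsIrreducible]
    (a : valueField ρ.character ≃ₐ[ℚ] valueField ρ.character) (ha : a ≠ 1)
    (ρ' : Representation ℂ G (Fin (Module.finrank ℂ V) → ℂ))
    (hρ' : ∀ g, ρ'.character g = conj ρ.character a g) :
    ((Nat.card G : ℂ)⁻¹ * ∑ g, conj ρ.character a g * ρ.character g⁻¹) = 0 := by
  classical
  have hG : (Nat.card G : ℂ) ≠ 0 := by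
    have : Nat.card G ≠ 0 := Nat.card_ne_zero.mpr ⟨⟨1⟩, inferInstance⟩
    exact_mod_cast this
  let _ : Invertible (Nat.card G : ℂ) := invertibleOfNonzero hG
  simp_rw [← hρ']
  rw [Representation.card_inv_mul_sum_char_mul_char_eq_finrank ρ ρ']
  by_contra hne
  apply ha
  -- there is a nonzero intertwining map
  have hnt : ∃ f : Representation.IntertwiningMap ρ ρ', f ≠ 0 := by
    by_contra hall
    push Not at hall
    apply hne
    have : Subsingleton (Representation.IntertwiningMap ρ ρ') :=
      ⟨fun f g => by rw [hall f, hall g]⟩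
    simp [Module.finrank_zero_of_subsingleton]
  obtain ⟨f, hf⟩ := hnt
  have hinj : Function.Injective f :=
    (Representation.IsIrreducible.injective_or_eq_zero f).resolve_right hf
  have hfr : Module.finrank ℂ V = Module.finrank ℂ (Fin (Module.finrank ℂ V) → ℂ) := by
    rw [Module.finrank_fin_fun]
  have hsurj : Function.Surjective f := by
    have := (LinearMap.injective_iff_surjective_of_finrank_eq_finrank
      (f := f.toLinearMap) hfr).mp hinj
    exact this
  have hchar : ρ.character = ρ'.character :=
    Representation.char_iso (f.ofBijective ⟨hinj, hsurj⟩)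
  have hfix : ∀ g, conj ρ.character a g = ρ.character g := fun g => by
    rw [← hρ' g, ← hchar]
  have hAlg : (a : valueField ρ.character →ₐ[ℚ] valueField ρ.character) =
      AlgHom.id ℚ (valueField ρ.character) := by
    refine IntermediateField.algHom_ext_of_eq_adjoin (F := ℚ)
      (S := valueField ρ.character) (s := Set.range ρ.character) rfl ?_
    rintro x ⟨g, rfl⟩
    apply Subtype.ext
    exact hfix g
  ext z
  have := DFunLike.congr_fun hAlg z
  simpa using congrArg Subtype.val this

end Pool.Agent.FV86
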