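import Pool.Agent.FV86.Defs

/-!
# The Galois conjugate of a representation

PROOF. Choose a basis of `V` and write `ρ g` as a matrix `M g`; put
`ρ' g = Matrix.toLin' ((M g).map T)`. The trace is `T` of the trace. If `z` is an eigenvalue of
`ρ' g` with eigenvector `u`, then `T.symm ∘ u` is an eigenvector of `M g` for `T.symm z`.
-/

set_option autoImplicit false

namespace Pool.Agent.FV86

theorem exists_twist {G V : Type*} [Group G] [AddCommGroup V] [Module ℂ V] [FiniteDimensional ℂ V]
    (ρ : Representation ℂ G V) (T : ℂ ≃+* ℂ) :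
    ∃ ρ' : Representation ℂ G (Fin (Module.finrank ℂ V) → ℂ),
      (∀ g, ρ'.character g = T (ρ.character g)) ∧
      ∀ g z, Module.End.HasEigenvalue (ρ' g) z → Module.End.HasEigenvalue (ρ g) (T.symm z) := by
  classical
  let b := Module.finBasis ℂ V
  let M : G →* Matrix (Fin (Module.finrank ℂ V)) (Fin (Module.finrank ℂ V)) ℂ :=
    ((LinearMap.toMatrixAlgEquiv b : Module.End ℂ V ≃ₐ[ℂ] _) : Module.End ℂ V →* _).comp ρ
  let M' : G →* Matrix (Fin (Module.finrank ℂ V)) (Fin (Module.finrank ℂ V)) ℂ :=
    (RingHom.toMonoidHom ((T : ℂ →+* ℂ).mapMatrix)).comp M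
  let ρ' : Representation ℂ G (Fin (Module.finrank ℂ V) → ℂ) :=
    ((Matrix.toLinAlgEquiv' : Matrix (Fin (Module.finrank ℂ V)) (Fin (Module.finrank ℂ V)) ℂ ≃ₐ[ℂ]
      _) : _ →* Module.End ℂ (Fin (Module.finrank ℂ V) → ℂ)).comp M'
  have hM : ∀ g, M g = LinearMap.toMatrix b b (ρ g) := fun g => rfl
  have hM' : ∀ g, M' g = (M g).map T := fun g => rfl
  have hρ' : ∀ g, ρ' g = Matrix.toLin' (M' g) := fun g => rfl
  refine ⟨ρ', fun g => ?_, fun g z hz => ?_⟩
  · have h1 : ρ'.character g = (M' g).trace := by
      rw [Representation.character, hρ', Matrix.trace_toLin'_eq]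
    have h2 : ρ.character g = (M g).trace := by
      rw [Representation.character, hM, LinearMap.trace_eq_matrix_trace ℂ b]
    rw [h1, h2, hM']
    simp [Matrix.trace, map_sum]
  · obtain ⟨u, hu⟩ := hz.exists_hasEigenvector
    have hu1 : Matrix.mulVec (M' g) u = z • u := by
      have := hu.apply_eq_smul
      rw [hρ', Matrix.toLin'_apply] at this
      exact this
    have hu0 : u ≠ 0 := hu.2
    let w : Fin (Module.finrank ℂ V) → ℂ := fun i => T.symm (u i)
    have hw0 : w ≠ 0 := by
      intro h
      apply hu0
      funext i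
      have := congrFun h i
      simpa [w] using this
    have hw1 : Matrix.mulVec (M g) w = (T.symm z) • w := by
      funext i
      have h := congrFun hu1 i
      have h' := congrArg T.symm h
      simpa [Matrix.mulVec, dotProduct, hM', map_sum, w] using h'
    have key : (ρ g) (b.equivFun.symm w) = (T.symm z) • b.equivFun.symm w := by
      apply b.equivFun.injective
      have h3 : b.equivFun ((ρ g) (b.equivFun.symm w)) = Matrix.mulVec (M g) w := by
        have := LinearMap.toMatrix_mulVec_repr b b (ρ g) (b.equivFun.symm w)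
        rw [← hM] at this
        have h4 : (b.repr (b.equivFun.symm w) : Fin (Module.finrank ℂ V) → ℂ) = w := by
          rw [← Module.Basis.equivFun_apply, LinearEquiv.apply_symm_apply]
        rw [h4] at this
        rw [this]
        rfl
      rw [h3, hw1, map_smul, LinearEquiv.apply_symm_apply]
    refine Module.End.hasEigenvalue_of_hasEigenvector (x := b.equivFun.symm w) ⟨?_, ?_⟩
    · rw [Module.End.mem_eigenspace_iff]
      exact key
    · intro h
      apply hw0
      have := congrArg b.equivFun h
      rw [LinearEquiv.apply_symm_apply, map_zero] at this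
      exact this

end Pool.Agent.FV86
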