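import Pool.Agent.FV86.Local
import Pool.Agent.FV86.Count
import Pool.Agent.FV86.Orth
import Pool.Agent.FV86.Inert
import Pool.Agent.FV86.Twist

/-!
# The main argument
-/

set_option autoImplicit false

namespace Pool.Agent.FV86

/-- A natural number which is `ℓ` times an algebraic integer is divisible by `ℓ`. -/
theorem dvd_of_divBy {ℓ m : ℕ} (hℓ : ℓ ≠ 0) (h : DivBy ℓ (m : ℂ)) : ℓ ∣ m := by
  obtain ⟨w, hw, he⟩ := h
  have hℓ' : (ℓ : ℂ) ≠ 0 := Nat.cast_ne_zero.2 hℓ
  have hw2 : w = ((m / ℓ : ℚ) : ℂ) := by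
    rw [Rat.cast_div, Rat.cast_natCast, Rat.cast_natCast, he]
    field_simp
  have h1 : IsIntegral ℤ (algebraMap ℚ ℂ (m / ℓ : ℚ)) := by
    rw [hw2] at hw
    exact hw
  have h2 : IsIntegral ℤ (m / ℓ : ℚ) :=
    (isIntegral_algebraMap_iff (algebraMap ℚ ℂ).injective).1 h1
  obtain ⟨k, hk⟩ := IsIntegrallyClosed.isIntegral_iff.1 h2
  have h3 : (k : ℚ) * ℓ = m := by
    have h4 : ((k : ℤ) : ℚ) = m / ℓ := by simpa using hk
    rw [h4]
    have : (ℓ : ℚ) ≠ 0 := Nat.cast_ne_zero.2 hℓ
    field_simp
  have h5 : k * (ℓ : ℤ) = (m : ℤ) := by exact_mod_cast h3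
  exact Int.natCast_dvd_natCast.1 ⟨k, by rw [← h5, mul_comm]⟩

/-- The main argument, for a unitary divisor `d` of the conductor. -/
theorem core_dvd {G V : Type*} [Group G] [Finite G] [AddCommGroup V] [Module ℂ V]
    [FiniteDimensional ℂ V] (ρ : Representation ℂ G V) [ρ.IsIrreducible] {ℓ : ℕ} (hℓ : ℓ.Prime)
    {d : ℕ} (hd : d ∣ conductor ρ.character) (hcop : d.Coprime (conductor ρ.character / d))
    (ψ : (valueField ρ.character ≃ₐ[ℚ] valueField ρ.character) →* ℂˣ)
    (hψ : ∀ p ∈ d.primeFactors,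
      (∃ σ ∈ inertia ρ.character p, ψ σ ≠ 1) ∨ ℓ ∣ Nat.card (inertia ρ.character p)) :
    ∃ g z, Module.End.HasEigenvalue (ρ g) z ∧ d ∣ orderOf z := by
  classical
  have hc0 := conductor_pos ρ
  have hd0 : 0 < d := Nat.pos_of_dvd_of_pos hd hc0
  have hfact : ∀ p ∈ d.primeFactors,
      d.factorization p = (conductor ρ.character).factorization p := by
    intro p hp
    have h1 : conductor ρ.character = d * (conductor ρ.character / d) :=
      (Nat.mul_div_cancel' hd).symm
    have h2 : (conductor ρ.character / d).factorization p = 0 := by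
      apply Nat.factorization_eq_zero_of_not_dvd
      intro h3
      exact (Nat.prime_of_mem_primeFactors hp).one_lt.ne'
        (Nat.eq_one_of_dvd_coprimes hcop (Nat.dvd_of_mem_primeFactors hp) h3)
    have h4 : conductor ρ.character / d ≠ 0 := by
      intro h5
      rw [h5, mul_zero] at h1
      exact hc0.ne' h1
    conv_rhs => rw [h1]
    rw [Nat.factorization_mul hd0.ne' h4, Finsupp.add_apply, h2, add_zero]
  by_contra hno
  push Not at hno
  haveI : Fintype G := Fintype.ofFinite G
  haveI : FiniteDimensional ℚ (valueField ρ.character) :=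
    finiteDimensional_of_le Nat.card_pos (valueField_le ρ)
  haveI : Fintype (valueField ρ.character ≃ₐ[ℚ] valueField ρ.character) := Fintype.ofFinite _
  choose T hT using fun a : valueField ρ.character ≃ₐ[ℚ] valueField ρ.character =>
    exists_ext (valueField ρ.character) a
  choose ρ' hchar heig using fun a : valueField ρ.character ≃ₐ[ℚ] valueField ρ.character =>
    exists_twist ρ (T a)
  have hchar' : ∀ a g, (ρ' a).character g = conj ρ.character a g := by
    intro a g
    rw [hchar a g]
    exact hT a ⟨ρ.character g, mem_valueField _ g⟩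
  let D : Setup G (valueField ρ.character ≃ₐ[ℚ] valueField ρ.character) d ℓ :=
    { npos := hd0
      prime := hℓ
      ψ := ψ
      S := inertia ρ.character
      hS := hψ
      χ := fun a g => conj ρ.character a g
      d := Module.finrank ℂ V
      ρ := ρ'
      char := hchar'
      noeig := by
        intro a g z hz
        have h1 := hno g _ (heig a g z hz)
        have h2 : orderOf ((T a).symm z) = orderOf z :=
          MulEquiv.orderOf_eq (T a).symm.toMulEquiv z
        rw [h2] at h1
        exact h1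
      aut := by
        intro p hp s hs
        obtain ⟨T', hT1, hT2⟩ := inertia_ext ρ
          (Nat.mem_primeFactors.2 ⟨Nat.prime_of_mem_primeFactors hp,
            (Nat.dvd_of_mem_primeFactors hp).trans hd, hc0.ne'⟩) s hs
        rw [← hfact p hp] at hT2
        exact ⟨T', fun a g => (hT1 _).symm, hT2⟩ }
  have hD : ∀ a g, D.χ a g = conj ρ.character a g := fun _ _ => rfl
  have hF : ∀ g h, D.F (h * g * h⁻¹) = D.F g := by
    intro g h
    rw [Setup.F, Setup.F]
    refine Finset.sum_congr rfl fun a _ => ?_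
    rw [← D.char, ← D.char, Representation.char_conj]
  let Φ : G → ℂ := fun g => D.F g * ρ.character g⁻¹
  have hconj : ∀ g h, Φ (h * g * h⁻¹) = Φ g := by
    intro g h
    change D.F (h * g * h⁻¹) * ρ.character (h * g * h⁻¹)⁻¹ = D.F g * ρ.character g⁻¹
    rw [hF, show (h * g * h⁻¹)⁻¹ = h * g⁻¹ * h⁻¹ by group, Representation.char_conj]
  have hcount := count hℓ Φ hconj
    (fun x v r hxv hx hv => (alpha D hxv hx hv).mul_right (isIntegral_character ρ _))
    (by
      intro x P Ω _ _ _ hx hP
      have h := beta D ρ hP ((Subgroup.subtype _).comp P.subtype) (Ω := Ω) (x := x)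
        (fun v => by
          have h1 := (v : Subgroup.centralizer ({x} : Set G)).2
          rw [Subgroup.mem_centralizer_iff] at h1
          exact h1 x rfl) hx
      exact h)
  have hsum : ((Nat.card G : ℂ)⁻¹ * ∑ g, Φ g) = 1 := by
    have e1 : ((Nat.card G : ℂ)⁻¹ * ∑ g, Φ g) =
        ∑ a, (((ψ a)⁻¹ : ℂˣ) : ℂ) *
          ((Nat.card G : ℂ)⁻¹ * ∑ g, conj ρ.character a g * ρ.character g⁻¹) := by
      have e2 : ∀ g, Φ g = ∑ a, (((ψ a)⁻¹ : ℂˣ) : ℂ) *
          (conj ρ.character a g * ρ.character g⁻¹) := by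
        intro g
        change D.F g * ρ.character g⁻¹ = _
        rw [Setup.F, Finset.sum_mul]
        exact Finset.sum_congr rfl fun a _ => mul_assoc _ _ _
      simp_rw [e2]
      rw [Finset.sum_comm, Finset.mul_sum]
      refine Finset.sum_congr rfl fun a _ => ?_
      rw [← Finset.mul_sum]
      ring
    rw [e1, Finset.sum_eq_single 1]
    · rw [orth_one, map_one, inv_one, Units.val_one, mul_one]
    · intro a _ ha
      rw [orth_ne ρ a ha (ρ' a) (hchar' a), mul_zero]
    · intro h
      exact absurd (Finset.mem_univ _) h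
  rw [hsum, mul_one] at hcount
  have hdvd := dvd_of_divBy hℓ.ne_zero hcount
  exact Nat.not_dvd_ordCompl hℓ Nat.card_pos.ne' hdvd

theorem core {G V : Type*} [Group G] [Finite G] [AddCommGroup V] [Module ℂ V]
    [FiniteDimensional ℂ V] (ρ : Representation ℂ G V) [ρ.IsIrreducible] {ℓ : ℕ} (hℓ : ℓ.Prime)
    (ψ : (valueField ρ.character ≃ₐ[ℚ] valueField ρ.character) →* ℂˣ)
    (hψ : ∀ p ∈ (conductor ρ.character).primeFactors,
      (∃ σ ∈ inertia ρ.character p, ψ σ ≠ 1) ∨ ℓ ∣ Nat.card (inertia ρ.character p)) :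
    ∃ g z, Module.End.HasEigenvalue (ρ g) z ∧ conductor ρ.character ∣ orderOf z :=
  core_dvd ρ hℓ dvd_rfl
    (by rw [Nat.div_self (conductor_pos ρ)]; exact Nat.coprime_one_right _) ψ hψ

end Pool.Agent.FV86
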