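import Pool.Agent.FV86.Defs

/-!
# A group is not a union of few subgroups; a choice of primes

PROOFS. `exists_notMem`: the union of `t ≤ m` subgroups of order at most `|X| / m` has at most
`t * (|X|/m - 1) + 1 < |X|` elements (all contain `1`).
`exists_prime`: if for every prime `ℓ` some `m ≠ ℓ` is taken more than `m` times, take `ℓ = 2` to get
`m₁ ≥ 3` taken at least `4` times, and `ℓ = m₁` to get `m₂ ≠ m₁` taken at least `3` times, so
`I` has at least `7` elements.
-/

set_option autoImplicit false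

namespace Pool.Agent.FV86

theorem exists_notMem {X ι : Type*} [Group X] [Finite X] {m : ℕ} (hm : 1 < m) (J : Finset ι)
    (hJ : J.card ≤ m) (K : ι → Subgroup X) (hK : ∀ i ∈ J, m ∣ (K i).index) :
    ∃ y : X, ∀ i ∈ J, y ∉ K i := by
  classical
  have := Fintype.ofFinite X
  by_contra hcon
  push Not at hcon
  have hone : ∀ i, (1 : X) ∈ Finset.univ.filter (fun y => y ∈ K i) := fun i => by
    simp [(K i).one_mem]
  have hcard : ∀ i ∈ J, m * (Finset.univ.filter (fun y => y ∈ K i)).card ≤ Fintype.card X := by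
    intro i hi
    have h1 := (K i).card_mul_index
    have h2 : Nat.card (K i) = (Finset.univ.filter (fun y => y ∈ K i)).card := by
      rw [Nat.card_eq_fintype_card, Fintype.card_subtype]
    rw [h2, Nat.card_eq_fintype_card] at h1
    have h3 : 0 < Fintype.card X := Fintype.card_pos
    have h4 : (K i).index ≠ 0 := by
      intro h
      rw [h, mul_zero] at h1
      omega
    have h5 : m ≤ (K i).index := Nat.le_of_dvd (Nat.pos_of_ne_zero h4) (hK i hi)
    calc m * (Finset.univ.filter (fun y => y ∈ K i)).card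
        ≤ (K i).index * (Finset.univ.filter (fun y => y ∈ K i)).card :=
          Nat.mul_le_mul_right _ h5
      _ = Fintype.card X := by rw [mul_comm]; exact h1
  have hsub : (Finset.univ : Finset X).erase 1 ⊆
      J.biUnion fun i => (Finset.univ.filter (fun y => y ∈ K i)).erase 1 := by
    intro y hy
    obtain ⟨i, hi, hyi⟩ := hcon y
    rw [Finset.mem_biUnion]
    refine ⟨i, hi, ?_⟩
    rw [Finset.mem_erase] at hy ⊢
    exact ⟨hy.1, by simpa using hyi⟩
  obtain ⟨i₀, hi₀, _⟩ := hcon 1
  have hN := hcard i₀ hi₀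
  have hi₀1 : 1 ≤ (Finset.univ.filter (fun y => y ∈ K i₀)).card :=
    Finset.card_pos.mpr ⟨1, hone i₀⟩
  have hmN : m ≤ Fintype.card X := le_trans (Nat.le_mul_of_pos_right m hi₀1) hN
  have h1 : Fintype.card X - 1 ≤
      ∑ i ∈ J, ((Finset.univ.filter (fun y => y ∈ K i)).erase 1).card := by
    have := (Finset.card_le_card hsub).trans Finset.card_biUnion_le
    rwa [Finset.card_erase_of_mem (Finset.mem_univ _), Finset.card_univ] at this
  have h2 : m * ∑ i ∈ J, ((Finset.univ.filter (fun y => y ∈ K i)).erase 1).card ≤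
      m * (Fintype.card X - m) := by
    rw [Finset.mul_sum]
    calc ∑ i ∈ J, m * ((Finset.univ.filter (fun y => y ∈ K i)).erase 1).card
        ≤ ∑ i ∈ J, (Fintype.card X - m) := by
          apply Finset.sum_le_sum
          intro i hi
          rw [Finset.card_erase_of_mem (hone i), Nat.mul_sub, mul_one]
          exact Nat.sub_le_sub_right (hcard i hi) m
      _ = J.card * (Fintype.card X - m) := by rw [Finset.sum_const, smul_eq_mul]
      _ ≤ m * (Fintype.card X - m) := Nat.mul_le_mul_right _ hJ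
  have h3 := Nat.le_of_mul_le_mul_left h2 (by omega)
  omega

theorem exists_prime (I : Finset ℕ) (hI : I.card ≤ 6) (m : ℕ → ℕ) (hm : ∀ p ∈ I, (m p).Prime) :
    ∃ ℓ : ℕ, ℓ.Prime ∧ ∀ q : ℕ, q ≠ ℓ → (I.filter fun p => m p = q).card ≤ q := by
  by_contra hcon
  push Not at hcon
  have hpr : ∀ q, q < (I.filter fun p => m p = q).card → q.Prime := by
    intro q hq
    obtain ⟨p, hp⟩ := Finset.card_pos.mp (lt_of_le_of_lt (Nat.zero_le q) hq)
    rw [Finset.mem_filter] at hp
    rw [← hp.2]
    exact hm p hp.1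
  obtain ⟨q₁, hq₁, h₁⟩ := hcon 2 Nat.prime_two
  have hp₁ := hpr q₁ h₁
  have h3 : 3 ≤ q₁ := lt_of_le_of_ne hp₁.two_le (Ne.symm hq₁)
  obtain ⟨q₂, hq₂, h₂⟩ := hcon q₁ hp₁
  have hp₂ := (hpr q₂ h₂).two_le
  have hdisj : Disjoint (I.filter fun p => m p = q₁) (I.filter fun p => m p = q₂) := by
    rw [Finset.disjoint_filter]
    intro p _ h h'
    exact hq₂ (h'.symm.trans h)
  have h4 := Finset.card_le_card (Finset.union_subset (Finset.filter_subset (fun p => m p = q₁) I)
    (Finset.filter_subset (fun p => m p = q₂) I))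
  rw [Finset.card_union_of_disjoint hdisj] at h4
  omega

end Pool.Agent.FV86
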