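import Pool.Agent.FV86.Defs

/-!
# Cyclotomic fields inside the complex numbers

`Complex.isPrimitiveRoot_exp n` gives the primitive root; the field is cyclotomic by
`IntermediateField.isCyclotomicExtension_singleton_iff_eq_adjoin`, hence finite and abelian, and so
are its subfields.
-/

set_option autoImplicit false

namespace Pool.Agent.FV86

theorem mem_cyc {n : ℕ} (hn : 0 < n) {z : ℂ} (hz : z ^ n = 1) : z ∈ cyc n := by
  have hζ := Complex.isPrimitiveRoot_exp n hn.ne'
  have : NeZero n := ⟨hn.ne'⟩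
  obtain ⟨k, -, rfl⟩ := hζ.eq_pow_of_pow_eq_one hz
  exact pow_mem (IntermediateField.subset_adjoin ℚ _ (Set.mem_singleton _)) k

theorem cyc_mono {m n : ℕ} (hn : 0 < n) (h : m ∣ n) : cyc m ≤ cyc n := by
  have hm : 0 < m := Nat.pos_of_dvd_of_pos h hn
  have hζ := Complex.isPrimitiveRoot_exp m hm.ne'
  unfold cyc
  rw [IntermediateField.adjoin_le_iff]
  rintro x hx
  rw [Set.mem_singleton_iff] at hx
  subst hx
  obtain ⟨k, rfl⟩ := h
  refine mem_cyc hn ?_
  rw [pow_mul, hζ.pow_eq_one, one_pow]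

theorem isCyclotomic_cyc {n : ℕ} (hn : 0 < n) : IsCyclotomicExtension {n} ℚ (cyc n) := by
  have hζ := Complex.isPrimitiveRoot_exp n hn.ne'
  have : NeZero n := ⟨hn.ne'⟩
  have h := (IntermediateField.isCyclotomicExtension_singleton_iff_eq_adjoin n ℚ ℂ (cyc n) hζ).2 rfl
  convert! h

/-- The inclusion of a subfield of `cyc n`. -/
theorem isAbelianGalois_of_le {F : IntermediateField ℚ ℂ} {n : ℕ} (hn : 0 < n) (h : F ≤ cyc n) :
    IsAbelianGalois ℚ F ∧ FiniteDimensional ℚ F := by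
  have h1 := isCyclotomic_cyc hn
  have h2 : IsAbelianGalois ℚ (cyc n) := IsCyclotomicExtension.isAbelianGalois {n} ℚ (cyc n)
  have h3 : FiniteDimensional ℚ (cyc n) :=
    IsCyclotomicExtension.finiteDimensional {n} ℚ (cyc n)
  let f : F →+* cyc n := (IntermediateField.inclusion h).toRingHom
  let g : F →ₐ[ℚ] cyc n := f.toRatAlgHom
  exact ⟨IsAbelianGalois.of_algHom g, FiniteDimensional.of_injective g.toLinearMap f.injective⟩

theorem finiteDimensional_of_le {F : IntermediateField ℚ ℂ} {n : ℕ} (hn : 0 < n) (h : F ≤ cyc n) :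
    FiniteDimensional ℚ F := (isAbelianGalois_of_le hn h).2

theorem isGalois_of_le {F : IntermediateField ℚ ℂ} {n : ℕ} (hn : 0 < n) (h : F ≤ cyc n) :
    IsGalois ℚ F := (isAbelianGalois_of_le hn h).1.toIsGalois

theorem comm_of_le {F : IntermediateField ℚ ℂ} {n : ℕ} (hn : 0 < n) (h : F ≤ cyc n)
    (σ τ : F ≃ₐ[ℚ] F) : σ * τ = τ * σ :=
  (isAbelianGalois_of_le hn h).1.toIsMulCommutative.is_comm.comm σ τ

end Pool.Agent.FV86
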