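import Pool.Agent.FV86.Defs

/-!
# The linear character of a cyclic subgroup

PROOF. `z ^ orderOf g = 1` because `z` is an eigenvalue of `ρ g`. Let `φ : zpowers g →* ℂˣ` be the
homomorphism with `φ g = z` (`monoidHomOfForallMemZpowers` or by hand) and `σ h = φ h • id` on `ℂ`. It is
irreducible because `ℂ` has dimension one, its character is `φ`, whose values are the powers of `z`,
so `valueField σ.character = ℚ⟮z⟯`. If `zpowers g = ⊤` then `G` is commutative and an irreducible
representation has dimension one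
(`Representation.IsIrreducible.finrank_eq_one_of_isMulCommutative`).
-/

set_option autoImplicit false

namespace Pool.Agent.FV86

/-- The order of an eigenvalue divides the order of the element. -/
theorem orderOf_dvd {G V : Type*} [Group G] [AddCommGroup V] [Module ℂ V]
    (ρ : Representation ℂ G V) (g : G) {z : ℂ}
    (hz : Module.End.HasEigenvalue (ρ g) z) : orderOf z ∣ orderOf g := by
  obtain ⟨v, hv⟩ := hz.exists_hasEigenvector
  have h1 := hv.pow_apply (orderOf g)
  have h2 : (ρ g) ^ orderOf g = 1 := by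
    rw [← map_pow, pow_orderOf_eq_one, map_one]
  rw [h2] at h1
  have h3 : (z ^ orderOf g - 1) • v = 0 := by
    rw [sub_smul, ← h1, one_smul]
    simp
  rcases smul_eq_zero.mp h3 with h4 | h4
  · exact orderOf_dvd_of_pow_eq_one (sub_eq_zero.mp h4)
  · exact absurd h4 hv.2

private theorem irreducible_scalar {H : Type*} [Monoid H] (σ : Representation ℂ H ℂ) :
    σ.IsIrreducible := by
  have hnt : Nontrivial (Subrepresentation σ) := by
    refine ⟨⟨⊥, ⊤, fun h => ?_⟩⟩
    have h1 : (⊥ : Subrepresentation σ).toSubmodule = (⊤ : Subrepresentation σ).toSubmodule := by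
      rw [h]
    have h2 : (⊥ : Submodule ℂ ℂ) = ⊤ := h1
    exact bot_ne_top h2
  refine @IsSimpleOrder.mk _ _ _ hnt ?_
  intro K
  rcases eq_bot_or_eq_top K.toSubmodule with h | h
  · exact Or.inl (Subrepresentation.toSubmodule_injective h)
  · exact Or.inr (Subrepresentation.toSubmodule_injective h)

open IntermediateField in
theorem exists_linear {G V : Type*} [Group G] [Finite G] [AddCommGroup V] [Module ℂ V]
    [FiniteDimensional ℂ V] (ρ : Representation ℂ G V) (g : G) {z : ℂ}
    (hz : Module.End.HasEigenvalue (ρ g) z) :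
    ∃ σ : Representation ℂ (Subgroup.zpowers g) ℂ, σ.IsIrreducible ∧
      valueField σ.character = ℚ⟮z⟯ := by
  have hord : orderOf z ∣ orderOf g := orderOf_dvd ρ g hz
  have hzpow : z ^ orderOf g = 1 := orderOf_dvd_iff_pow_eq_one.mp hord
  have hz0 : z ≠ 0 := by
    rintro rfl
    rw [zero_pow (orderOf_pos g).ne'] at hzpow
    exact zero_ne_one hzpow
  let g₀ : Subgroup.zpowers g := ⟨g, Subgroup.mem_zpowers g⟩
  have hgen : ∀ x : Subgroup.zpowers g, x ∈ Subgroup.zpowers g₀ := by
    rintro ⟨x, k, rfl⟩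
    exact ⟨k, Subtype.ext (by simp [g₀])⟩
  have hord' : orderOf (Units.mk0 z hz0) ∣ orderOf g₀ := by
    rw [← orderOf_units, ← Subgroup.orderOf_coe]
    exact hord
  let φ : Subgroup.zpowers g →* ℂˣ := monoidHomOfForallMemZpowers hgen hord'
  have hφ : φ g₀ = Units.mk0 z hz0 := monoidHomOfForallMemZpowers_apply_gen hgen hord'
  let σ : Representation ℂ (Subgroup.zpowers g) ℂ :=
    ((algebraMap ℂ (Module.End ℂ ℂ)).toMonoidHom.comp (Units.coeHom ℂ)).comp φ
  have hσ : ∀ h, σ.character h = (φ h : ℂ) := by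
    intro h
    have h1 : σ h = (φ h : ℂ) • (LinearMap.id : ℂ →ₗ[ℂ] ℂ) := rfl
    unfold Representation.character
    rw [h1, map_smul, LinearMap.trace_id]
    simp
  refine ⟨σ, irreducible_scalar σ, ?_⟩
  apply le_antisymm
  · refine IntermediateField.adjoin_le_iff.mpr ?_
    rintro _ ⟨h, rfl⟩
    rw [hσ]
    obtain ⟨k, rfl⟩ := hgen h
    have h1 : ((φ (g₀ ^ k) : ℂˣ) : ℂ) = z ^ k := by
      rw [map_zpow, hφ]
      simp
    show ((φ (g₀ ^ k) : ℂˣ) : ℂ) ∈ ℚ⟮z⟯
    rw [h1]
    exact zpow_mem (IntermediateField.mem_adjoin_simple_self ℚ z) k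
  · refine IntermediateField.adjoin_le_iff.mpr ?_
    rintro _ rfl
    have h1 := mem_valueField σ.character g₀
    rw [hσ, hφ] at h1
    exact h1

theorem zpowers_ne_top {G V : Type*} [Group G] [Finite G] [AddCommGroup V] [Module ℂ V]
    [FiniteDimensional ℂ V] (ρ : Representation ℂ G V) [ρ.IsIrreducible]
    (h1 : 1 < Module.finrank ℂ V) (g : G) : Subgroup.zpowers g ≠ ⊤ := by
  intro htop
  have hcomm : IsMulCommutative G := by
    refine ⟨⟨fun a b => ?_⟩⟩
    have ha : a ∈ Subgroup.zpowers g := htop ▸ Subgroup.mem_top a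
    have hb : b ∈ Subgroup.zpowers g := htop ▸ Subgroup.mem_top b
    obtain ⟨i, rfl⟩ := ha
    obtain ⟨j, rfl⟩ := hb
    show g ^ i * g ^ j = g ^ j * g ^ i
    rw [← zpow_add, ← zpow_add, add_comm]
  have h2 := Representation.IsIrreducible.finrank_eq_one_of_isMulCommutative ρ
  omega

end Pool.Agent.FV86
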