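import Pool.Agent.FV86.Stmt

/-!
# Fields of values of irreducible characters: auxiliary definitions

`conj χ a` is the Galois conjugate, `DivBy ℓ y` means that `y` is `ℓ` times an algebraic integer,
`fix Ω v` is the number of fixed points, `theta` is the character on an eigenspace.
-/

set_option autoImplicit false

namespace Pool.Agent.FV86

/-- The group `I_p` (auxiliary form of `fixer`): the automorphisms of `ℚ(χ)` which fix every
element of `ℚ(χ) ∩ ℚ_{c(χ)/p}`. -/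
noncomputable def inertia {G : Type*} (χ : G → ℂ) (p : ℕ) :
    Subgroup (valueField χ ≃ₐ[ℚ] valueField χ) where
  carrier := {σ | ∀ x : valueField χ, (x : ℂ) ∈ cyc (conductor χ / p) → σ x = x}
  mul_mem' := fun {a b} ha hb x hx => by
    have h1 : (a * b) x = a (b x) := rfl
    rw [h1, hb x hx, ha x hx]
  one_mem' := fun _ _ => rfl
  inv_mem' := fun {a} ha x hx => by
    have h1 := ha x hx
    have h2 : a⁻¹ (a x) = x := by
      have : (a⁻¹ * a) x = x := by rw [inv_mul_cancel]; rfl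
      exact this
    rw [h1] at h2
    exact h2

theorem inertia_eq {G : Type*} (χ : G → ℂ) (p : ℕ) :
    fixer (valueField χ) (cyc (conductor χ / p)) = inertia χ p := by
  ext σ
  constructor
  · intro h x hx
    exact (IntermediateField.mem_fixingSubgroup_iff _ _).1 h x hx
  · intro h
    exact (IntermediateField.mem_fixingSubgroup_iff _ _).2 fun x hx => h x hx

theorem mem_valueField {G : Type*} (χ : G → ℂ) (g : G) : χ g ∈ valueField χ :=
  IntermediateField.subset_adjoin ℚ _ ⟨g, rfl⟩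

/-- The Galois conjugate `χ^a` for `a ∈ Gal(ℚ(χ)/ℚ)`. -/
noncomputable def conj {G : Type*} (χ : G → ℂ) (a : valueField χ ≃ₐ[ℚ] valueField χ) (g : G) :
    ℂ := ((a ⟨χ g, mem_valueField χ g⟩ : valueField χ) : ℂ)

/-- `y` is `ℓ` times an algebraic integer. -/
def DivBy (ℓ : ℕ) (y : ℂ) : Prop := ∃ w : ℂ, IsIntegral ℤ w ∧ y = ℓ * w

/-- The number of fixed points of `v` on `Ω`. -/
noncomputable def fix {P : Type*} [Monoid P] (Ω : Type*) [MulAction P Ω] (v : P) : ℕ :=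
  Nat.card (MulAction.fixedBy Ω v)

/-- The trace of `v` on the `z`-eigenspace of `x` (for commuting `x`, `v` with `x ^ e = 1`). -/
noncomputable def theta {G : Type*} [Group G] (χ : G → ℂ) (e : ℕ) (z : ℂ) (x v : G) : ℂ :=
  (e : ℂ)⁻¹ * ∑ k ∈ Finset.range e, (z⁻¹) ^ k * χ (x ^ k * v)

/-- The data of the local argument. -/
structure Setup (G : Type*) [Group G] (A : Type*) [Group A] (n ℓ : ℕ) where
  npos : 0 < n
  prime : ℓ.Prime
  ψ : A →* ℂˣ
  S : ℕ → Subgroup A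
  hS : ∀ p ∈ n.primeFactors, (∃ s ∈ S p, ψ s ≠ 1) ∨ ℓ ∣ Nat.card (S p)
  χ : A → G → ℂ
  d : ℕ
  ρ : A → Representation ℂ G (Fin d → ℂ)
  char : ∀ a g, (ρ a).character g = χ a g
  noeig : ∀ a g z, Module.End.HasEigenvalue (ρ a g) z → ¬ n ∣ orderOf z
  aut : ∀ p ∈ n.primeFactors, ∀ s ∈ S p, ∃ T : ℂ ≃+* ℂ, (∀ a g, χ (s * a) g = T (χ a g)) ∧
    ∀ z : ℂ, z ^ Nat.card G = 1 → ¬ p ^ n.factorization p ∣ orderOf z → T z = z

/-- The class function `∑_a ψ(a)⁻¹ χ_a`. -/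
noncomputable def Setup.F {G A : Type*} [Group G] [Group A] [Fintype A] {n ℓ : ℕ}
    (D : Setup G A n ℓ) (g : G) : ℂ := ∑ a, (((D.ψ a)⁻¹ : ℂˣ) : ℂ) * D.χ a g

theorem DivBy.add {ℓ : ℕ} {y z : ℂ} (hy : DivBy ℓ y) (hz : DivBy ℓ z) : DivBy ℓ (y + z) := by
  obtain ⟨u, hu, rfl⟩ := hy
  obtain ⟨v, hv, rfl⟩ := hz
  exact ⟨u + v, hu.add hv, by ring⟩

theorem DivBy.zero (ℓ : ℕ) : DivBy ℓ 0 := ⟨0, isIntegral_zero, by ring⟩

theorem DivBy.mul_left {ℓ : ℕ} {y z : ℂ} (hy : DivBy ℓ y) (hz : IsIntegral ℤ z) :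
    DivBy ℓ (z * y) := by
  obtain ⟨u, hu, rfl⟩ := hy
  exact ⟨z * u, hz.mul hu, by ring⟩

theorem DivBy.mul_right {ℓ : ℕ} {y z : ℂ} (hy : DivBy ℓ y) (hz : IsIntegral ℤ z) :
    DivBy ℓ (y * z) := by
  rw [mul_comm]
  exact hy.mul_left hz

theorem DivBy.sum {ℓ : ℕ} {ι : Type*} (s : Finset ι) (f : ι → ℂ) (h : ∀ i ∈ s, DivBy ℓ (f i)) :
    DivBy ℓ (∑ i ∈ s, f i) := by
  classical
  induction s using Finset.induction_on with
  | empty => simpa using DivBy.zero ℓ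
  | insert a s ha ih =>
    rw [Finset.sum_insert ha]
    exact (h a (Finset.mem_insert_self a s)).add
      (ih fun i hi => h i (Finset.mem_insert_of_mem hi))

theorem DivBy.neg {ℓ : ℕ} {y : ℂ} (hy : DivBy ℓ y) : DivBy ℓ (-y) := by
  obtain ⟨u, hu, rfl⟩ := hy
  exact ⟨-u, hu.neg, by ring⟩

theorem DivBy.sub {ℓ : ℕ} {y z : ℂ} (hy : DivBy ℓ y) (hz : DivBy ℓ z) : DivBy ℓ (y - z) := by
  rw [sub_eq_add_neg]
  exact hy.add hz.neg

theorem isIntegral_natCast (n : ℕ) : IsIntegral ℤ (n : ℂ) := by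
  have h := isIntegral_algebraMap (R := ℤ) (A := ℂ) (x := (n : ℤ))
  simpa using h

theorem isIntegral_intCast (n : ℤ) : IsIntegral ℤ (n : ℂ) := by
  have h := isIntegral_algebraMap (R := ℤ) (A := ℂ) (x := n)
  simpa using h

/-- A root of unity is an algebraic integer. -/
theorem isIntegral_of_pow {z : ℂ} {n : ℕ} (hn : 0 < n) (hz : z ^ n = 1) : IsIntegral ℤ z :=
  IsIntegral.of_pow hn (by rw [hz]; exact isIntegral_one)

end Pool.Agent.FV86
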