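import Pool.Agent.FV86.Defs

/-!
# Conjugate eigenvalues

PROOF. `o = |G|`, `z ^ o = 1`. Let `K = ℚ(χ)`. For every `o`-th root of unity `z'` the endomorphism
`o⁻¹ ∑ k, z'^(-k) ρ(g)^k` is a projection onto the `z'`-eigenspace of `ρ g`, so the dimension of
this eigenspace is `M(z') = o⁻¹ ∑ k, z'^(-k) χ(g^k)`. As `z` is a root of the polynomial
`∑ k, χ(g^k) X^(o-k) - o M(z)` over `K`, so is every root `z'` of the minimal polynomial of `z` over
`K`; hence `M(z') = M(z) ≠ 0` and `z'` is an eigenvalue of `ρ g`. So the minimal polynomial, which is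
separable and splits in `ℂ`, has at most `finrank ℂ V` roots, and its degree is `[ℚ(z) : K]`.
-/

set_option autoImplicit false

namespace Pool.Agent.FV86

/-- The projection onto an eigenspace of an endomorphism of finite order. -/
theorem isProj_eigenspace {V : Type*} [AddCommGroup V] [Module ℂ V]
    {f : Module.End ℂ V} {o : ℕ} (ho : 0 < o) (hf : f ^ o = 1) {z : ℂ} (hz : z ^ o = 1) :
    LinearMap.IsProj (f.eigenspace z)
      ((o : ℂ)⁻¹ • ∑ k ∈ Finset.range o, (z⁻¹) ^ k • f ^ k) := by
  have hz0 : z ≠ 0 := by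
    rintro rfl
    rw [zero_pow ho.ne'] at hz
    exact zero_ne_one hz
  have ho0 : (o : ℂ) ≠ 0 := Nat.cast_ne_zero.2 ho.ne'
  have h3 : ∑ k ∈ Finset.range o, (z⁻¹) ^ (k + 1) • f ^ (k + 1) =
      ∑ k ∈ Finset.range o, (z⁻¹) ^ k • f ^ k := by
    have h4 := Finset.sum_range_succ (fun k => (z⁻¹) ^ k • f ^ k) o
    have h5 := Finset.sum_range_succ' (fun k => (z⁻¹) ^ k • f ^ k) o
    rw [h5] at h4
    simp only [pow_zero, inv_pow, hz, hf, inv_one] at h4
    simp only [inv_pow]
    exact add_right_cancel h4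
  have h6 : f * ∑ k ∈ Finset.range o, (z⁻¹) ^ k • f ^ k =
      z • ∑ k ∈ Finset.range o, (z⁻¹) ^ k • f ^ k := by
    conv_rhs => rw [← h3]
    rw [Finset.mul_sum, Finset.smul_sum]
    refine Finset.sum_congr rfl fun k _ => ?_
    rw [mul_smul_comm, smul_smul, pow_succ' z⁻¹ k, ← mul_assoc, mul_inv_cancel₀ hz0, one_mul,
      pow_succ']
  constructor
  · intro u
    rw [Module.End.mem_eigenspace_iff]
    have h7 := LinearMap.congr_fun h6 u
    simp only [LinearMap.smul_apply, map_smul]
    rw [smul_comm]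
    congr 1
  · intro u hu
    rw [Module.End.mem_eigenspace_iff] at hu
    have h8 : ∀ k : ℕ, (f ^ k) u = z ^ k • u := by
      intro k
      induction k with
      | zero => simp
      | succ k ih => rw [pow_succ', Module.End.mul_apply, ih, map_smul, hu, smul_smul, pow_succ]
    simp only [LinearMap.smul_apply, LinearMap.sum_apply, h8, smul_smul]
    have h9 : ∀ k ∈ Finset.range o, (z⁻¹ ^ k * z ^ k) • u = u := by
      intro k _
      rw [← mul_pow, inv_mul_cancel₀ hz0, one_pow, one_smul]
    rw [Finset.sum_congr rfl h9, Finset.sum_const, Finset.card_range, ← Nat.cast_smul_eq_nsmul ℂ,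
      smul_smul, inv_mul_cancel₀ ho0, one_smul]

theorem finrank_eigenspace {V : Type*} [AddCommGroup V] [Module ℂ V] [FiniteDimensional ℂ V]
    {f : Module.End ℂ V} {o : ℕ} (ho : 0 < o) (hf : f ^ o = 1) {z : ℂ} (hz : z ^ o = 1) :
    ∑ k ∈ Finset.range o, LinearMap.trace ℂ V (f ^ k) * z ^ (o - k) =
      o * (Module.finrank ℂ (f.eigenspace z) : ℂ) := by
  have hz0 : z ≠ 0 := by
    rintro rfl
    rw [zero_pow ho.ne'] at hz
    exact zero_ne_one hz
  have ho0 : (o : ℂ) ≠ 0 := Nat.cast_ne_zero.2 ho.ne'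
  rw [← (isProj_eigenspace ho hf hz).trace, map_smul, map_sum, smul_eq_mul, ← mul_assoc,
    mul_inv_cancel₀ ho0, one_mul]
  refine Finset.sum_congr rfl fun k hk => ?_
  rw [map_smul, smul_eq_mul, mul_comm]
  congr 1
  have hk' : k ≤ o := (Finset.mem_range.1 hk).le
  rw [inv_pow]
  refine eq_inv_of_mul_eq_one_left ?_
  rw [← pow_add, Nat.sub_add_cancel hk', hz]

open IntermediateField Polynomial in
theorem relfinrank_sup_le {G V : Type*} [Group G] [Finite G] [AddCommGroup V] [Module ℂ V]
    [FiniteDimensional ℂ V] (ρ : Representation ℂ G V) (g : G) {z : ℂ}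
    (hz : Module.End.HasEigenvalue (ρ g) z) :
    (valueField ρ.character).relfinrank (valueField ρ.character ⊔ ℚ⟮z⟯) ≤
      Module.finrank ℂ V := by
  classical
  set o := Nat.card G with ho
  have hopos : 0 < o := Nat.card_pos
  have hf : (ρ g) ^ o = 1 := by rw [← map_pow, pow_card_eq_one', map_one]
  have hzo : z ^ o = 1 := by
    obtain ⟨u, hu⟩ := hz.exists_hasEigenvector
    have h1 := hu.pow_apply o
    rw [hf, Module.End.one_apply] at h1
    by_contra h2
    have h3 : (z ^ o - 1) • u = 0 := by rw [sub_smul, ← h1, one_smul, sub_self]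
    rcases smul_eq_zero.1 h3 with h | h
    · exact h2 (sub_eq_zero.1 h)
    · exact hu.2 h
  set K := valueField ρ.character with hK
  have hint : IsIntegral K z :=
    IsIntegral.of_pow hopos (by rw [hzo]; exact isIntegral_one)
  set m := Module.finrank ℂ (Module.End.eigenspace (ρ g) z) with hm
  have hm0 : m ≠ 0 := by
    intro h
    rw [Module.End.hasEigenvalue_iff] at hz
    exact hz (Submodule.finrank_eq_zero.1 h)
  set Q : K[X] := ∑ k ∈ Finset.range o, C ⟨ρ.character (g ^ k), mem_valueField _ _⟩ * X ^ (o - k) -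
    C ((o * m : ℕ) : K) with hQ
  have hQe : ∀ w : ℂ, w ^ o = 1 →
      aeval w Q = o * (Module.finrank ℂ (Module.End.eigenspace (ρ g) w) : ℂ) - o * m := by
    intro w hw
    rw [hQ, map_sub, map_sum, ← finrank_eigenspace hopos hf hw]
    congr 1
    · refine Finset.sum_congr rfl fun k _ => ?_
      rw [map_mul, map_pow, aeval_X, aeval_C, ← map_pow]
      rfl
    · rw [aeval_C]
      simp
  have hQz : aeval z Q = 0 := by rw [hQe z hzo, sub_self]
  have hdvd : minpoly K z ∣ Q := minpoly.dvd K z hQz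
  have hdvd2 : minpoly K z ∣ X ^ o - 1 := minpoly.dvd K z (by simp [hzo])
  have hroot : ∀ w ∈ (minpoly K z).rootSet ℂ, Module.End.HasEigenvalue (ρ g) w := by
    intro w hw
    have hw1 : aeval w (minpoly K z) = 0 := (mem_rootSet.1 hw).2
    have hwo : w ^ o = 1 := by
      obtain ⟨R, hR⟩ := hdvd2
      have h1 : aeval w (X ^ o - 1 : K[X]) = 0 := by rw [hR, map_mul, hw1, zero_mul]
      simpa [sub_eq_zero] using h1
    have hwQ : aeval w Q = 0 := by
      obtain ⟨R, hR⟩ := hdvd
      rw [hR, map_mul, hw1, zero_mul]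
    rw [hQe w hwo, ← mul_sub, mul_eq_zero, sub_eq_zero] at hwQ
    have h2 : Module.finrank ℂ (Module.End.eigenspace (ρ g) w) = m := by
      rcases hwQ with h | h
      · exact absurd h (Nat.cast_ne_zero.2 hopos.ne')
      · exact_mod_cast h
    rw [Module.End.hasEigenvalue_iff]
    intro h3
    rw [h3, finrank_bot] at h2
    exact hm0 h2.symm
  have hle : K ≤ K ⊔ ℚ⟮z⟯ := le_sup_left
  have hext : extendScalars hle = K⟮z⟯ := by
    apply le_antisymm
    · have : K ⊔ ℚ⟮z⟯ ≤ (K⟮z⟯).restrictScalars ℚ := by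
        refine sup_le ?_ ?_
        · intro x hx
          exact (K⟮z⟯).algebraMap_mem ⟨x, hx⟩
        · rw [adjoin_simple_le_iff]
          exact mem_adjoin_simple_self K z
      exact this
    · rw [adjoin_simple_le_iff]
      have h1 : ℚ⟮z⟯ ≤ K ⊔ ℚ⟮z⟯ := le_sup_right
      exact h1 (mem_adjoin_simple_self ℚ z)
  have hcard : Fintype.card ((minpoly K z).rootSet ℂ) = (minpoly K z).natDegree :=
    card_rootSet_eq_natDegree (minpoly.irreducible hint).separable
      (IsAlgClosed.splits ((minpoly K z).map (algebraMap K ℂ)))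
  rw [relfinrank_eq_finrank_of_le hle, hext, adjoin.finrank hint, ← hcard]
  have hchar : (ρ g).charpoly ≠ 0 := (LinearMap.charpoly_monic _).ne_zero
  calc Fintype.card ((minpoly K z).rootSet ℂ) ≤ (ρ g).charpoly.roots.toFinset.card := by
        rw [← Set.toFinset_card]
        refine Finset.card_le_card fun w hw => ?_
        rw [Set.mem_toFinset] at hw
        rw [Multiset.mem_toFinset, mem_roots hchar]
        exact (Module.End.hasEigenvalue_iff_isRoot_charpoly _ _).1 (hroot w hw)
    _ ≤ Multiset.card (ρ g).charpoly.roots := Multiset.toFinset_card_le _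
    _ ≤ (ρ g).charpoly.natDegree := card_roots' _
    _ = Module.finrank ℂ V := LinearMap.charpoly_natDegree _

open IntermediateField in
theorem relfinrank_le {G V : Type*} [Group G] [Finite G] [AddCommGroup V] [Module ℂ V]
    [FiniteDimensional ℂ V] (ρ : Representation ℂ G V) (g : G) {z : ℂ}
    (hz : Module.End.HasEigenvalue (ρ g) z) (hle : valueField ρ.character ≤ ℚ⟮z⟯) :
    (valueField ρ.character).relfinrank ℚ⟮z⟯ ≤ Module.finrank ℂ V := by
  have h := relfinrank_sup_le ρ g hz
  rwa [sup_eq_right.2 hle] at h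

end Pool.Agent.FV86
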