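import Pool.Agent.FV86.Defs

/-!
# Fourier inversion on a cyclic group

PROOF. By periodicity replace `m` by `m % e`. Exchange the sums: `∑ i, (ζ^i)^m (ζ^i)⁻¹^k` is a
geometric sum with ratio `ζ^(m-k)`; it is `e` if `k = m % e` and `0` otherwise.
-/

set_option autoImplicit false

namespace Pool.Agent.FV86

theorem inversion {e : ℕ} (he : 0 < e) {ζ : ℂ} (hζ : IsPrimitiveRoot ζ e) (F : ℕ → ℂ)
    (hF : ∀ k, F (k + e) = F k) (m : ℕ) :
    F m = ∑ i ∈ Finset.range e, (ζ ^ i) ^ m *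
      ((e : ℂ)⁻¹ * ∑ k ∈ Finset.range e, ((ζ ^ i)⁻¹) ^ k * F k) := by
  have he' : (e : ℂ) ≠ 0 := by exact_mod_cast he.ne'
  have hζ0 : ζ ≠ 0 := hζ.ne_zero he.ne'
  have hper : ∀ q k : ℕ, F (k + e * q) = F k := by
    intro q
    induction q with
    | zero => intro k; simp
    | succ q ih =>
      intro k
      rw [Nat.mul_succ, ← add_assoc, hF, ih]
  have hmod : F m = F (m % e) := by
    conv_lhs => rw [← Nat.mod_add_div m e]
    rw [hper]
  have hgeom : ∀ k ∈ Finset.range e,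
      ∑ i ∈ Finset.range e, (ζ ^ i) ^ m * ((ζ ^ i)⁻¹) ^ k = if k = m % e then (e : ℂ) else 0 := by
    intro k hk
    have hke : k < e := Finset.mem_range.mp hk
    set w : ℂ := ζ ^ m * (ζ⁻¹) ^ k with hw
    have h1 : ∑ i ∈ Finset.range e, (ζ ^ i) ^ m * ((ζ ^ i)⁻¹) ^ k =
        ∑ i ∈ Finset.range e, w ^ i := by
      refine Finset.sum_congr rfl fun i _ => ?_
      rw [hw, mul_pow, inv_pow, inv_pow, inv_pow, ← pow_mul, ← pow_mul, ← pow_mul, ← pow_mul,
        mul_comm i m, mul_comm i k]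
    have hwe : w ^ e = 1 := by
      rw [hw, mul_pow, ← pow_mul, ← pow_mul, mul_comm m e, mul_comm k e, pow_mul, pow_mul,
        inv_pow, hζ.pow_eq_one]
      simp
    rw [h1]
    split_ifs with hkm
    · have hw1 : w = 1 := by
        have hζm : ζ ^ m = ζ ^ (m % e) := by
          conv_lhs => rw [← Nat.mod_add_div m e]
          rw [pow_add, pow_mul, hζ.pow_eq_one, one_pow, mul_one]
        rw [hw, hζm, ← hkm, inv_pow]
        exact mul_inv_cancel₀ (pow_ne_zero _ hζ0)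
      rw [hw1]
      simp
    · have hw1 : w ≠ 1 := by
        intro h
        apply hkm
        have h2 : ζ ^ m = ζ ^ k := by
          have h3 : ζ ^ m * (ζ⁻¹) ^ k * ζ ^ k = ζ ^ k := by rw [← hw, h, one_mul]
          rwa [inv_pow, inv_mul_cancel_right₀ (pow_ne_zero _ hζ0)] at h3
        have hζm : ζ ^ m = ζ ^ (m % e) := by
          conv_lhs => rw [← Nat.mod_add_div m e]
          rw [pow_add, pow_mul, hζ.pow_eq_one, one_pow, mul_one]
        rw [hζm] at h2
        exact (hζ.pow_inj (Nat.mod_lt _ he) hke h2).symm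
      have h3 : (w - 1) * ∑ i ∈ Finset.range e, w ^ i = 0 := by
        rw [mul_geom_sum, hwe, sub_self]
      rcases mul_eq_zero.mp h3 with h4 | h4
      · exact absurd (sub_eq_zero.mp h4) hw1
      · exact h4
  have hswap : ∑ i ∈ Finset.range e, (ζ ^ i) ^ m *
      ((e : ℂ)⁻¹ * ∑ k ∈ Finset.range e, ((ζ ^ i)⁻¹) ^ k * F k) =
      (e : ℂ)⁻¹ * ∑ k ∈ Finset.range e,
        (∑ i ∈ Finset.range e, (ζ ^ i) ^ m * ((ζ ^ i)⁻¹) ^ k) * F k := by
    simp_rw [Finset.mul_sum, Finset.sum_mul]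
    rw [Finset.sum_comm]
    simp_rw [Finset.mul_sum]
    refine Finset.sum_congr rfl fun k _ => Finset.sum_congr rfl fun i _ => ?_
    ring
  rw [hswap, Finset.sum_congr rfl fun k hk => by rw [hgeom k hk]]
  simp only [ite_mul, zero_mul]
  rw [Finset.sum_ite_eq' (Finset.range e) (m % e) fun k => (e : ℂ) * F k,
    if_pos (Finset.mem_range.mpr (Nat.mod_lt _ he)), ← mul_assoc, inv_mul_cancel₀ he', one_mul,
    hmod]

end Pool.Agent.FV86
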