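import Pool.Agent.FV86.Perm

/-!
# Multiplicities of joint eigenvalues of two commuting elements

PROOF. The endomorphism `E = (e f)⁻¹ ∑ k, ∑ m, z⁻¹^k y⁻¹^m • ρ (x^k v^m)` satisfies
`ρ x * E = z • E` and `ρ v * E = y • E` (shift the sums), so `E * E = E`. Hence its trace, the left
hand side, is the dimension of its range, and each vector `u` of the range satisfies
`ρ x u = z • u`, `ρ v u = y • u`.
-/

set_option autoImplicit false

namespace Pool.Agent.FV86

theorem sum_range_shift {W : Type*} [AddCommMonoid W] [IsLeftCancelAdd W] (g : ℕ → W) (e : ℕ)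
    (h : g e = g 0) :
    ∑ k ∈ Finset.range e, g (k + 1) = ∑ k ∈ Finset.range e, g k := by
  have h1 := Finset.sum_range_succ g e
  have h2 := Finset.sum_range_succ' g e
  rw [h2, h] at h1
  rw [add_comm, add_comm (∑ k ∈ Finset.range e, g k)] at h1
  exact add_left_cancel h1

theorem joint {G V : Type*} [Group G] [AddCommGroup V] [Module ℂ V] [FiniteDimensional ℂ V]
    (ρ : Representation ℂ G V) {x v : G} (hxv : Commute x v) {e f : ℕ} (he : 0 < e) (hf : 0 < f)
    (hx : x ^ e = 1) (hv : v ^ f = 1) {z y : ℂ} (hz : z ^ e = 1) (hy : y ^ f = 1) :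
    ∃ M : ℕ, ((e : ℂ) * f)⁻¹ * ∑ k ∈ Finset.range e, ∑ m ∈ Finset.range f,
        (z⁻¹) ^ k * (y⁻¹) ^ m * ρ.character (x ^ k * v ^ m) = M ∧
      (M ≠ 0 → ∃ u : V, u ≠ 0 ∧ ρ x u = z • u ∧ ρ v u = y • u) := by
  have he' : (e : ℂ) ≠ 0 := by exact_mod_cast he.ne'
  have hf' : (f : ℂ) ≠ 0 := by exact_mod_cast hf.ne'
  have hz0 : z ≠ 0 := by
    rintro rfl
    rw [zero_pow he.ne'] at hz
    exact zero_ne_one hz
  have hy0 : y ≠ 0 := by
    rintro rfl
    rw [zero_pow hf.ne'] at hy
    exact zero_ne_one hy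
  let A : ℕ → ℕ → Module.End ℂ V := fun k m => ((z⁻¹) ^ k * (y⁻¹) ^ m) • ρ (x ^ k * v ^ m)
  let S : Module.End ℂ V := ∑ k ∈ Finset.range e, ∑ m ∈ Finset.range f, A k m
  let E : Module.End ℂ V := ((e : ℂ) * f)⁻¹ • S
  have hxA : ∀ k m, ρ x * A k m = z • A (k + 1) m := by
    intro k m
    simp only [A]
    rw [mul_smul_comm, ← map_mul, smul_smul, ← mul_assoc, ← pow_succ', pow_succ (z⁻¹) k]
    congr 1
    field_simp
  have hvA : ∀ k m, ρ v * A k m = y • A k (m + 1) := by
    intro k m
    simp only [A]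
    have h1 : v * (x ^ k * v ^ m) = x ^ k * v ^ (m + 1) := by
      rw [← mul_assoc, ((hxv.pow_left k).eq).symm, mul_assoc, ← pow_succ']
    rw [mul_smul_comm, ← map_mul, smul_smul, h1, pow_succ (y⁻¹) m]
    congr 1
    field_simp
  have hA0 : ∀ m, A e m = A 0 m := by
    intro m
    simp only [A]
    rw [inv_pow, hz, inv_one, hx, pow_zero, pow_zero]
  have hA1 : ∀ k, A k f = A k 0 := by
    intro k
    simp only [A]
    rw [inv_pow y f, hy, inv_one, hv, pow_zero, pow_zero]
  have hxS : ρ x * S = z • S := by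
    simp only [S]
    rw [Finset.mul_sum, Finset.smul_sum,
      ← sum_range_shift (fun k => z • ∑ m ∈ Finset.range f, A k m) e (by simp only [hA0])]
    refine Finset.sum_congr rfl fun k _ => ?_
    rw [Finset.mul_sum, Finset.smul_sum]
    exact Finset.sum_congr rfl fun m _ => hxA k m
  have hvS : ρ v * S = y • S := by
    simp only [S]
    rw [Finset.mul_sum, Finset.smul_sum]
    refine Finset.sum_congr rfl fun k _ => ?_
    rw [Finset.mul_sum, Finset.smul_sum,
      ← sum_range_shift (fun m => y • A k m) f (by simp only [hA1])]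
    exact Finset.sum_congr rfl fun m _ => hvA k m
  have hxE : ρ x * E = z • E := by
    simp only [E]
    rw [mul_smul_comm, hxS, smul_comm]
  have hvE : ρ v * E = y • E := by
    simp only [E]
    rw [mul_smul_comm, hvS, smul_comm]
  have hxk : ∀ k : ℕ, ρ (x ^ k) * E = z ^ k • E := by
    intro k
    induction k with
    | zero => simp
    | succ k ih =>
      rw [pow_succ', map_mul, mul_assoc, ih, mul_smul_comm, hxE, smul_smul, pow_succ]
  have hvk : ∀ k : ℕ, ρ (v ^ k) * E = y ^ k • E := by
    intro k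
    induction k with
    | zero => simp
    | succ k ih =>
      rw [pow_succ', map_mul, mul_assoc, ih, mul_smul_comm, hvE, smul_smul, pow_succ]
  have hAE : ∀ k m, A k m * E = E := by
    intro k m
    simp only [A]
    rw [smul_mul_assoc, map_mul, mul_assoc, hvk, mul_smul_comm, hxk, smul_smul, smul_smul]
    have h1 : (z⁻¹) ^ k * (y⁻¹) ^ m * y ^ m * z ^ k = 1 := by
      rw [inv_pow, inv_pow]
      have := pow_ne_zero k hz0
      have := pow_ne_zero m hy0
      field_simp
    rw [h1, one_smul]
  have hSE : S * E = ((e : ℂ) * f) • E := by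
    simp only [S]
    rw [Finset.sum_mul, Finset.sum_congr rfl fun k _ => by
      rw [Finset.sum_mul, Finset.sum_congr rfl fun m _ => hAE k m]]
    rw [Finset.sum_const, Finset.sum_const, Finset.card_range, Finset.card_range, mul_smul,
      Nat.cast_smul_eq_nsmul, Nat.cast_smul_eq_nsmul]
  have hEE : IsIdempotentElem E := by
    change E * E = E
    conv_lhs => rw [show E = ((e : ℂ) * f)⁻¹ • S from rfl]
    rw [smul_mul_assoc]
    change ((e : ℂ) * f)⁻¹ • (S * E) = E
    rw [hSE, smul_smul, inv_mul_cancel₀ (mul_ne_zero he' hf'), one_smul]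
  refine ⟨Module.finrank ℂ (LinearMap.range E), ?_, ?_⟩
  · have htr : LinearMap.trace ℂ V E = (Module.finrank ℂ (LinearMap.range E) : ℂ) :=
      (LinearMap.IsIdempotentElem.isProj_range E hEE).trace
    rw [← htr]
    simp only [E, S, A]
    rw [map_smul, smul_eq_mul, map_sum]
    congr 1
    refine Finset.sum_congr rfl fun k _ => ?_
    rw [map_sum]
    refine Finset.sum_congr rfl fun m _ => ?_
    rw [map_smul, smul_eq_mul]
    rfl
  · intro hM
    have hne : LinearMap.range E ≠ ⊥ := by
      intro h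
      apply hM
      rw [h]
      exact finrank_bot ℂ V
    obtain ⟨u, hu, hu0⟩ := Submodule.exists_mem_ne_zero_of_ne_bot hne
    obtain ⟨w, rfl⟩ := hu
    refine ⟨E w, hu0, ?_, ?_⟩
    · have h := congrArg (fun T : Module.End ℂ V => T w) hxE
      simpa using h
    · have h := congrArg (fun T : Module.End ℂ V => T w) hvE
      simpa using h

end Pool.Agent.FV86
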