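import Pool.Agent.FV86.Perm
import Pool.Agent.FV86.Inv

/-!
# Integrality of a pairing

PROOF. For `w` with `w^e = 1` put
`I w = (e * e * |P|)⁻¹ * ∑ k, ∑ k', ∑ v, z⁻¹^k * w⁻¹^k' * χ₁ (x^k * j v) * fix Ω v * χ₂ (x^k' * (j v)⁻¹)`.
It is the average over `D = Multiplicative (ZMod e) × Multiplicative (ZMod e) × P` of the character
of the tensor product of `ρ₁ ∘ h₁` (`h₁ (k,k',v) = x^k * j v`), the dual of `ρ₂` composed with
`h₂ (k,k',v) = x^(-k') * j v`, the permutation representation on `Ω` and the linear character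
`z^(-k) w^(-k')`, so it is a natural number (`average_nat`, `Representation.char_tensor`,
`Representation.char_dual`, `char_ofMulAction`), hence an algebraic integer. By `inversion` for
`F k' = χ₂ (x^k' * (j v)⁻¹)` at `m = e - 1` one has
`χ₂ ((x * j v)⁻¹) = χ₂ (x^(e-1) * (j v)⁻¹) = ∑_w w^(e-1) * (e⁻¹ ∑ k', w⁻¹^k' χ₂ (x^k' (j v)⁻¹))`
(`w = ζ^i`), so the left-hand side is `∑_w w^(e-1) * I w`. The values of `χ₂` at `x^k' * (j v)⁻¹`: the
dual at `x^(-k') * j v`, `x^(-k') = x^((e-1) k')`.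
-/

set_option autoImplicit false

namespace Pool.Agent.FV86

open Finset

/-- The homomorphism `k ↦ x ^ k` from `ZMod e`, written multiplicatively. -/
noncomputable def powHom {M : Type*} [Monoid M] (e : ℕ) [NeZero e] (x : M) (hx : x ^ e = 1) :
    Multiplicative (ZMod e) →* M where
  toFun c := x ^ (ZMod.val (Multiplicative.toAdd c))
  map_one' := by simp
  map_mul' a b := by
    rw [toAdd_mul, ZMod.val_add, ← pow_eq_pow_mod _ hx, pow_add]

theorem powHom_apply {M : Type*} [Monoid M] (e : ℕ) [NeZero e] (x : M) (hx : x ^ e = 1)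
    (c : Multiplicative (ZMod e)) : powHom e x hx c = x ^ (ZMod.val (Multiplicative.toAdd c)) :=
  rfl

theorem sum_zmod (e : ℕ) [NeZero e] (f : ℕ → ℂ) :
    ∑ c : Multiplicative (ZMod e), f (ZMod.val (Multiplicative.toAdd c)) =
      ∑ k ∈ range e, f k := by
  obtain ⟨n, rfl⟩ : ∃ n, e = n + 1 := ⟨e - 1, (Nat.succ_pred_eq_of_pos (NeZero.pos e)).symm⟩
  rw [← Fin.sum_univ_eq_sum_range]
  exact Fintype.sum_equiv Multiplicative.toAdd _ _ (fun c => rfl)

/-- A representation multiplied by a linear character. -/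
noncomputable def scale {D V : Type*} [Group D] [AddCommGroup V] [Module ℂ V]
    (l : D →* ℂ) (ρ : Representation ℂ D V) : Representation ℂ D V where
  toFun d := l d • ρ d
  map_one' := by simp
  map_mul' a b := by
    rw [map_mul, map_mul, smul_mul_smul_comm]

theorem char_scale {D V : Type*} [Group D] [AddCommGroup V] [Module ℂ V]
    (l : D →* ℂ) (ρ : Representation ℂ D V) (d : D) :
    (scale l ρ).character d = l d * ρ.character d := by
  simp [Representation.character, scale]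

section
variable {G P : Type*} [Group G] [Group P] (j : P →* G) {x : G} (hxP : ∀ v, Commute x (j v))
  (e : ℕ) [NeZero e] (hx : x ^ e = 1)

/-- The first homomorphism. -/
noncomputable def hom1 : Multiplicative (ZMod e) × Multiplicative (ZMod e) × P →* G where
  toFun d := powHom e x hx d.1 * j d.2.2
  map_one' := by simp
  map_mul' a b := by
    have h : Commute (x ^ (ZMod.val (Multiplicative.toAdd b.1))) (j a.2.2) :=
      (hxP a.2.2).pow_left _
    have h' : Commute (powHom e x hx b.1) (j a.2.2) := h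
    simp only [Prod.fst_mul, Prod.snd_mul, map_mul]
    rw [mul_assoc, mul_assoc, ← mul_assoc _ (j a.2.2), h'.eq, mul_assoc]

/-- The second homomorphism. -/
noncomputable def hom2 : Multiplicative (ZMod e) × Multiplicative (ZMod e) × P →* G where
  toFun d := powHom e x⁻¹ (by rw [inv_pow, hx, inv_one]) d.2.1 * j d.2.2
  map_one' := by simp
  map_mul' a b := by
    have h : Commute (x⁻¹ ^ (ZMod.val (Multiplicative.toAdd b.2.1))) (j a.2.2) :=
      ((hxP a.2.2).inv_left).pow_left _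
    have h' : Commute (powHom e x⁻¹ (by rw [inv_pow, hx, inv_one]) b.2.1) (j a.2.2) := h
    simp only [Prod.snd_mul, Prod.fst_mul, map_mul]
    rw [mul_assoc, mul_assoc, ← mul_assoc _ (j a.2.2), h'.eq, mul_assoc]

end

/-- The linear character. -/
noncomputable def lin {P : Type*} [Group P] (e : ℕ) [NeZero e] (z w : ℂ) (hz : z ^ e = 1)
    (hw : w ^ e = 1) : Multiplicative (ZMod e) × Multiplicative (ZMod e) × P →* ℂ where
  toFun d := powHom e z hz d.1 * powHom e w hw d.2.1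
  map_one' := by simp
  map_mul' a b := by
    simp only [Prod.fst_mul, Prod.snd_mul, map_mul]
    ring

theorem pair_nat {G V₁ V₂ P Ω : Type*} [Group G]
    [AddCommGroup V₁] [Module ℂ V₁] [FiniteDimensional ℂ V₁]
    [AddCommGroup V₂] [Module ℂ V₂] [FiniteDimensional ℂ V₂]
    (ρ₁ : Representation ℂ G V₁) (ρ₂ : Representation ℂ G V₂)
    [Group P] [Fintype P] (j : P →* G) [MulAction P Ω] [Finite Ω]
    {x : G} (hxP : ∀ v, Commute x (j v)) {e : ℕ} [NeZero e] (hx : x ^ e = 1)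
    {z w : ℂ} (hz : z ^ e = 1) (hw : w ^ e = 1) :
    ∃ N : ℕ, (e : ℂ)⁻¹ * (e : ℂ)⁻¹ * (Fintype.card P : ℂ)⁻¹ *
      ∑ k ∈ range e, ∑ k' ∈ range e, ∑ v : P, z ^ k * w ^ k' * (ρ₁.character (x ^ k * j v) *
        (ρ₂.character (x ^ k' * (j v)⁻¹) * fix Ω v)) = N := by
  classical
  let D := Multiplicative (ZMod e) × Multiplicative (ZMod e) × P
  let pr : D →* P := (MonoidHom.snd (Multiplicative (ZMod e)) P).comp
    (MonoidHom.snd (Multiplicative (ZMod e)) (Multiplicative (ZMod e) × P))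
  let r1 : Representation ℂ D V₁ := ρ₁.comp (hom1 j hxP e hx)
  let r2 : Representation ℂ D (Module.Dual ℂ V₂) := (ρ₂.dual).comp (hom2 j hxP e hx)
  let r3 : Representation ℂ D (MonoidAlgebra ℂ Ω) := (Representation.ofMulAction ℂ P Ω).comp pr
  let σ : Representation ℂ D
      (TensorProduct ℂ V₁ (TensorProduct ℂ (Module.Dual ℂ V₂) (MonoidAlgebra ℂ Ω))) :=
    scale (lin e z w hz hw) (r1.tprod (r2.tprod r3))
  have hchar : ∀ d : D, σ.character d = z ^ (ZMod.val (Multiplicative.toAdd d.1)) *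
      w ^ (ZMod.val (Multiplicative.toAdd d.2.1)) *
      (ρ₁.character (x ^ (ZMod.val (Multiplicative.toAdd d.1)) * j d.2.2) *
        (ρ₂.character (x ^ (ZMod.val (Multiplicative.toAdd d.2.1)) * (j d.2.2)⁻¹) *
          fix Ω d.2.2)) := by
    intro d
    have h1 : r1.character d = ρ₁.character (x ^ (ZMod.val (Multiplicative.toAdd d.1)) *
        j d.2.2) := rfl
    have h2 : r2.character d = ρ₂.dual.character
        ((x⁻¹) ^ (ZMod.val (Multiplicative.toAdd d.2.1)) * j d.2.2) := rfl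
    have h3 : r3.character d = (Representation.ofMulAction ℂ P Ω).character d.2.2 := rfl
    have hc : Commute (x ^ (ZMod.val (Multiplicative.toAdd d.2.1))) (j d.2.2)⁻¹ :=
      ((hxP d.2.2).pow_left _).inv_right
    have h4 : ((x⁻¹) ^ (ZMod.val (Multiplicative.toAdd d.2.1)) * j d.2.2)⁻¹ =
        x ^ (ZMod.val (Multiplicative.toAdd d.2.1)) * (j d.2.2)⁻¹ := by
      rw [mul_inv_rev, inv_pow, inv_inv, hc.eq]
    have h5 : (lin (P := P) e z w hz hw) d = z ^ (ZMod.val (Multiplicative.toAdd d.1)) *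
      w ^ (ZMod.val (Multiplicative.toAdd d.2.1)) := rfl
    rw [char_scale, Representation.char_tensor, Pi.mul_apply, Representation.char_tensor,
      Pi.mul_apply, h1, h2, h3, h5, Representation.char_dual, h4, char_ofMulAction]
  have hav := average_nat σ
  refine ⟨Module.finrank ℂ σ.invariants, ?_⟩
  rw [← hav]
  have hcard : (Fintype.card D : ℂ) = e * e * Fintype.card P := by
    simp only [D, Fintype.card_prod, Fintype.card_multiplicative, ZMod.card, Nat.cast_mul]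
    ring
  rw [hcard, mul_inv, mul_inv]
  congr 1
  rw [Fintype.sum_prod_type]
  simp only [Fintype.sum_prod_type, hchar]
  rw [← sum_zmod e]
  refine Finset.sum_congr rfl fun c _ => ?_
  rw [← sum_zmod e]

theorem isIntegral_pair {G V₁ V₂ P Ω : Type*} [Group G]
    [AddCommGroup V₁] [Module ℂ V₁] [FiniteDimensional ℂ V₁]
    [AddCommGroup V₂] [Module ℂ V₂] [FiniteDimensional ℂ V₂]
    (ρ₁ : Representation ℂ G V₁) (ρ₂ : Representation ℂ G V₂)
    [Group P] [Fintype P] (j : P →* G) [MulAction P Ω] [Finite Ω]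
    {x : G} (hxP : ∀ v, Commute x (j v)) {e : ℕ} (he : 0 < e) (hx : x ^ e = 1)
    {z : ℂ} (hz : z ^ e = 1) :
    IsIntegral ℤ ((Fintype.card P : ℂ)⁻¹ * ∑ v : P,
      ((e : ℂ)⁻¹ * ∑ k ∈ Finset.range e, (z⁻¹) ^ k * ρ₁.character (x ^ k * j v)) *
        (fix Ω v * ρ₂.character ((x * j v)⁻¹))) := by
  have : NeZero e := ⟨he.ne'⟩
  have hζ := Complex.isPrimitiveRoot_exp e he.ne'
  set ζ : ℂ := Complex.exp (2 * Real.pi * Complex.I / e) with hζdef
  have hzi : (z⁻¹) ^ e = 1 := by rw [inv_pow, hz, inv_one]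
  have hwi : ∀ i : ℕ, ((ζ ^ i)⁻¹) ^ e = 1 := by
    intro i
    rw [inv_pow, ← pow_mul, mul_comm, pow_mul, hζ.pow_eq_one, one_pow, inv_one]
  have key : ∀ v : P, ρ₂.character ((x * j v)⁻¹) = ∑ i ∈ range e, (ζ ^ i) ^ (e - 1) *
      ((e : ℂ)⁻¹ * ∑ k ∈ range e, ((ζ ^ i)⁻¹) ^ k * ρ₂.character (x ^ k * (j v)⁻¹)) := by
    intro v
    rw [← inversion he hζ (fun k => ρ₂.character (x ^ k * (j v)⁻¹))
      (fun k => by simp only [pow_add, hx, mul_one]) (e - 1)]
    have h1 : x ^ (e - 1) = x⁻¹ := by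
      rw [eq_inv_iff_mul_eq_one, ← pow_succ, Nat.sub_add_cancel he, hx]
    simp only [h1]
    rw [mul_inv_rev, ((hxP v).inv_inv).eq]
  choose N hN using fun i : ℕ => pair_nat ρ₁ ρ₂ j (Ω := Ω) hxP hx hzi (hwi i)
  have heq : (Fintype.card P : ℂ)⁻¹ * ∑ v : P,
      ((e : ℂ)⁻¹ * ∑ k ∈ Finset.range e, (z⁻¹) ^ k * ρ₁.character (x ^ k * j v)) *
        (fix Ω v * ρ₂.character ((x * j v)⁻¹)) = ∑ i ∈ range e, (ζ ^ i) ^ (e - 1) * (N i : ℂ) := by
    have h1 : ∀ (v : P), ((e : ℂ)⁻¹ * ∑ k ∈ Finset.range e, (z⁻¹) ^ k *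
        ρ₁.character (x ^ k * j v)) * (fix Ω v * ∑ i ∈ range e, (ζ ^ i) ^ (e - 1) *
      ((e : ℂ)⁻¹ * ∑ k ∈ range e, ((ζ ^ i)⁻¹) ^ k * ρ₂.character (x ^ k * (j v)⁻¹))) =
        ∑ i ∈ range e, ∑ k ∈ range e, ∑ k' ∈ range e, (ζ ^ i) ^ (e - 1) * ((e : ℂ)⁻¹ *
          (e : ℂ)⁻¹) * (z⁻¹ ^ k * (ζ ^ i)⁻¹ ^ k' * (ρ₁.character (x ^ k * j v) *
            (ρ₂.character (x ^ k' * (j v)⁻¹) * fix Ω v))) := by
      intro v
      have h0 : ∀ (S F : ℂ) (g : ℕ → ℂ), S * (F * ∑ i ∈ range e, g i) =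
          ∑ i ∈ range e, S * (F * g i) := by
        intro S F g
        rw [Finset.mul_sum, Finset.mul_sum]
      rw [h0]
      refine Finset.sum_congr rfl fun i _ => ?_
      have h2 : ∀ S T : ℂ, (e : ℂ)⁻¹ * S * ((fix Ω v : ℂ) * ((ζ ^ i) ^ (e - 1) * ((e : ℂ)⁻¹ * T)))
          = (ζ ^ i) ^ (e - 1) * ((e : ℂ)⁻¹ * (e : ℂ)⁻¹) * fix Ω v * (S * T) := by
        intro S T
        ring
      rw [h2, Finset.sum_mul_sum, Finset.mul_sum]
      refine Finset.sum_congr rfl fun k _ => ?_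
      rw [Finset.mul_sum]
      refine Finset.sum_congr rfl fun k' _ => ?_
      ring
    simp only [← hN, key, h1]
    simp only [Finset.mul_sum]
    refine Finset.sum_comm.trans (Finset.sum_congr rfl fun i _ => ?_)
    refine Finset.sum_comm.trans (Finset.sum_congr rfl fun k _ => ?_)
    refine Finset.sum_comm.trans (Finset.sum_congr rfl fun k' _ =>
      Finset.sum_congr rfl fun v _ => ?_)
    ring
  rw [heq]
  refine IsIntegral.sum (fun i => (ζ ^ i) ^ (e - 1) * (N i : ℂ)) fun i _ =>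
    IsIntegral.mul ?_ (isIntegral_natCast (N i))
  refine isIntegral_of_pow he ?_
  rw [← pow_mul, ← pow_mul, mul_comm, mul_assoc, mul_comm e, ← mul_assoc, pow_mul', hζ.pow_eq_one,
    one_pow]

end Pool.Agent.FV86
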