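import Pool.Agent.FV86.Defs

/-!
# Sums over a group twisted by a character

PROOF. If `ψ s ≠ 1` for some `s ∈ S`, replacing `a` by `s * a` multiplies the sum by `(ψ s)⁻¹`, so it
is `0`. Otherwise `ψ` is trivial on `S`, the summand `F a = (ψ a)⁻¹ * X a` satisfies
`F (s * a) = F a`, so the sum is `|S|` times the sum over representatives of the right cosets, and
`ℓ ∣ |S|`. (For the second part one can use that the fibres of `a ↦ S a` have `|S|` elements, or
prove `|S| * ∑ over a transversal`; e.g. the quotient by `QuotientGroup.rightRel S`, or pass to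
inverses and use left cosets `A ⧸ S` and `Subgroup.groupEquivQuotientProdSubgroup`.) Values of
`ψ` are roots of unity, so algebraic integers.
-/

set_option autoImplicit false

namespace Pool.Agent.FV86

theorem sum_divBy {A : Type*} [Group A] [Fintype A] (ψ : A →* ℂˣ) (ℓ : ℕ) (S : Subgroup A)
    (hS : (∃ s ∈ S, ψ s ≠ 1) ∨ ℓ ∣ Nat.card S) (X : A → ℂ) (hX : ∀ a, IsIntegral ℤ (X a))
    (hinv : ∀ s ∈ S, ∀ a, X (s * a) = X a) :
    DivBy ℓ (∑ a, (((ψ a)⁻¹ : ℂˣ) : ℂ) * X a) := by
  classical
  by_cases h1 : ∃ s ∈ S, ψ s ≠ 1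
  · obtain ⟨s, hs, hψ⟩ := h1
    have h2 : ∑ a, (((ψ a)⁻¹ : ℂˣ) : ℂ) * X a =
        (((ψ s)⁻¹ : ℂˣ) : ℂ) * ∑ a, (((ψ a)⁻¹ : ℂˣ) : ℂ) * X a := by
      conv_lhs => rw [← Equiv.sum_comp (Equiv.mulLeft s)]
      rw [Finset.mul_sum]
      refine Finset.sum_congr rfl fun a _ => ?_
      rw [Equiv.coe_mulLeft, hinv s hs a, map_mul, mul_inv, Units.val_mul, mul_assoc]
    have h3 : (((ψ s)⁻¹ : ℂˣ) : ℂ) ≠ 1 := by
      intro h
      apply hψ
      have h4 : (ψ s)⁻¹ = 1 := Units.ext h
      exact inv_eq_one.mp h4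
    have h5 : ((((ψ s)⁻¹ : ℂˣ) : ℂ) - 1) * ∑ a, (((ψ a)⁻¹ : ℂˣ) : ℂ) * X a = 0 := by
      rw [sub_mul, one_mul, ← h2, sub_self]
    rcases mul_eq_zero.mp h5 with h6 | h6
    · exact absurd (sub_eq_zero.mp h6) h3
    · rw [h6]
      exact DivBy.zero ℓ
  · have hℓ : ℓ ∣ Nat.card S := hS.resolve_left h1
    have hψ1 : ∀ s ∈ S, ψ s = 1 := by
      intro s hs
      by_contra h
      exact h1 ⟨s, hs, h⟩
    have hψint : ∀ a : A, IsIntegral ℤ ((((ψ a)⁻¹ : ℂˣ) : ℂ)) := by
      intro a
      refine isIntegral_of_pow (n := Nat.card A) Nat.card_pos ?_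
      have h : ((ψ a)⁻¹) ^ Nat.card A = 1 := by
        rw [inv_pow, ← map_pow, pow_card_eq_one', map_one, inv_one]
      rw [← Units.val_pow_eq_pow_val, h, Units.val_one]
    set F : A → ℂ := fun a => (((ψ a)⁻¹ : ℂˣ) : ℂ) * X a with hF
    have hFint : ∀ a, IsIntegral ℤ (F a) := fun a => (hψint a).mul (hX a)
    have hFinv : ∀ s ∈ S, ∀ a, F (s * a) = F a := by
      intro s hs a
      simp only [hF]
      rw [hinv s hs a, map_mul, hψ1 s hs, one_mul]
    let Q := Quotient (QuotientGroup.rightRel S)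
    have : Finite Q := Quotient.finite _
    have : Fintype Q := Fintype.ofFinite Q
    let π : A → Q := fun a => Quotient.mk (QuotientGroup.rightRel S) a
    have hsum : ∑ a, F a = ∑ q : Q, (Nat.card S : ℂ) * F q.out := by
      rw [← Finset.sum_fiberwise Finset.univ π F]
      refine Finset.sum_congr rfl fun q _ => ?_
      have hbij : ∑ a ∈ Finset.univ.filter (fun a => π a = q), F a =
          ∑ s : S, F ((s : A) * q.out) := by
        symm
        refine Finset.sum_bij (fun s _ => (s : A) * q.out) ?_ ?_ ?_ ?_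
        · intro s _
          rw [Finset.mem_filter]
          refine ⟨Finset.mem_univ _, ?_⟩
          have h : (Quotient.mk (QuotientGroup.rightRel S) ((s : A) * q.out)) =
              Quotient.mk (QuotientGroup.rightRel S) q.out := by
            rw [Quotient.eq, QuotientGroup.rightRel_apply, mul_inv_rev, mul_inv_cancel_left]
            exact S.inv_mem s.2
          change Quotient.mk (QuotientGroup.rightRel S) ((s : A) * q.out) = q
          rw [h]
          exact Quotient.out_eq q
        · intro s _ t _ h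
          exact Subtype.ext (mul_right_cancel h)
        · intro a ha
          rw [Finset.mem_filter] at ha
          have h : Quotient.mk (QuotientGroup.rightRel S) q.out =
              Quotient.mk (QuotientGroup.rightRel S) a := by
            rw [Quotient.out_eq]
            exact ha.2.symm
          rw [Quotient.eq, QuotientGroup.rightRel_apply] at h
          exact ⟨⟨a * q.out⁻¹, h⟩, Finset.mem_univ _, by simp⟩
        · intro s _
          rfl
      rw [hbij, Finset.sum_congr rfl fun (s : S) _ => hFinv s s.2 q.out]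
      rw [Finset.sum_const, Finset.card_univ, nsmul_eq_mul, Nat.card_eq_fintype_card]
    change DivBy ℓ (∑ a, F a)
    rw [hsum]
    refine DivBy.sum _ _ fun q _ => ?_
    obtain ⟨c, hc⟩ := hℓ
    refine ⟨(c : ℂ) * F q.out, (isIntegral_natCast c).mul (hFint _), ?_⟩
    rw [hc]
    push_cast
    ring

end Pool.Agent.FV86
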