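import Pool.Agent.FV86.Theta
import Pool.Agent.FV86.Pair
import Pool.Agent.FV86.SumLemma

/-!
# The local argument

PROOF. Let `e = orderOf x`, `ζ` a primitive `e`-th root of unity. By `char_eq_sum_theta`,
`F (x * v) = ∑ i, ζ^i * ∑ a, (ψ a)⁻¹ * theta (χ a) e (ζ^i) x v`. For each `i` use `exists_sel`: in the
second case all `theta` are `0` (`theta_zero`), in the first case, for `s ∈ S p` and `T` from `aut`,
`theta (χ (s * a)) e z x v = T (theta (χ a) e z x v)` because `T z = z`, and this is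
`theta (χ a) e z x v` by `theta_fixed`; so `sum_divBy` applies with `X a = theta (χ a) e z x v`
(`alpha`), resp. with `X a = |P|⁻¹ ∑_v theta (χ a) e z x (j v) * (fix Ω v * χ₂ ((x * j v)⁻¹))`
(`beta`; integrality: `isIntegral_pair`).
-/

set_option autoImplicit false

namespace Pool.Agent.FV86

variable {G A : Type*} [Group G] [Finite G] [Group A] [Fintype A] {n ℓ : ℕ}

omit [Fintype A] in
theorem theta_key (D : Setup G A n ℓ) {x : G} (hx : ℓ.Coprime (orderOf x)) {z : ℂ}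
    (hz : z ^ orderOf x = 1) :
    (∃ p ∈ n.primeFactors, ∀ s ∈ D.S p, ∀ (a : A) (v : G), Commute x v → ∀ r : ℕ,
      v ^ ℓ ^ r = 1 → theta (D.χ (s * a)) (orderOf x) z x v = theta (D.χ a) (orderOf x) z x v) ∨
    ∀ (a : A) (v : G), Commute x v → ∀ r : ℕ, v ^ ℓ ^ r = 1 →
      theta (D.χ a) (orderOf x) z x v = 0 := by
  have hch : ∀ a, D.χ a = (D.ρ a).character := fun a => (funext (D.char a)).symm
  rcases exists_sel z D.npos D.prime with ⟨p, hp⟩ | ⟨hℓn, hq⟩
  · left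
    refine ⟨p, hp.1, fun s hs a v hxv r hv => ?_⟩
    obtain ⟨T, hT1, hT2⟩ := D.aut p hp.1 s hs
    obtain ⟨hTz, hTθ⟩ := theta_fixed (D.ρ a) D.npos D.prime (D.noeig a) hxv hx hv hz hp T hT2
    rw [← hch a] at hTθ
    rw [← hTθ]
    simp only [theta]
    rw [map_mul, map_inv₀, map_natCast, map_sum]
    congr 1
    refine Finset.sum_congr rfl fun k _ => ?_
    rw [map_mul, map_pow, map_inv₀, hTz, hT1]
  · right
    intro a v hxv r hv
    rw [hch a]
    exact theta_zero (D.ρ a) D.npos (D.noeig a) hxv D.prime hv hz hℓn hq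

theorem F_eq (D : Setup G A n ℓ) {x : G} {ζ : ℂ} (hζ : IsPrimitiveRoot ζ (orderOf x)) (v : G) :
    D.F (x * v) = ∑ i ∈ Finset.range (orderOf x), ζ ^ i *
      ∑ a, (((D.ψ a)⁻¹ : ℂˣ) : ℂ) * theta (D.χ a) (orderOf x) (ζ ^ i) x v := by
  have hch : ∀ a, D.χ a = (D.ρ a).character := fun a => (funext (D.char a)).symm
  simp only [Setup.F]
  simp_rw [Finset.mul_sum]
  rw [Finset.sum_comm]
  refine Finset.sum_congr rfl fun a _ => ?_
  rw [hch a, char_eq_sum_theta (D.ρ a) (orderOf_pos x) (pow_orderOf_eq_one x) hζ, Finset.mul_sum]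
  refine Finset.sum_congr rfl fun i _ => ?_
  ring

theorem alpha (D : Setup G A n ℓ) {x v : G} (hxv : Commute x v) (hx : ℓ.Coprime (orderOf x))
    {r : ℕ} (hv : v ^ ℓ ^ r = 1) : DivBy ℓ (D.F (x * v)) := by
  have hch : ∀ a, D.χ a = (D.ρ a).character := fun a => (funext (D.char a)).symm
  have hζ := Complex.isPrimitiveRoot_exp (orderOf x) (orderOf_pos x).ne'
  set ζ : ℂ := Complex.exp (2 * Real.pi * Complex.I / (orderOf x : ℂ)) with hζdef
  rw [F_eq D hζ v]
  refine DivBy.sum _ _ fun i _ => ?_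
  have hz : (ζ ^ i) ^ orderOf x = 1 := by
    rw [← pow_mul, mul_comm, pow_mul, hζ.pow_eq_one, one_pow]
  refine DivBy.mul_left ?_ (isIntegral_of_pow (orderOf_pos x) hz)
  rcases theta_key D hx hz with ⟨p, hp, hinv⟩ | h0
  · refine sum_divBy D.ψ ℓ (D.S p) (D.hS p hp) _ (fun a => ?_) fun s hs a => hinv s hs a v hxv r hv
    rw [hch a]
    exact isIntegral_theta (D.ρ a) hxv (orderOf_pos x) (pow_pos D.prime.pos r)
      (pow_orderOf_eq_one x) hv hz
  · rw [Finset.sum_eq_zero fun a _ => by rw [h0 a v hxv r hv, mul_zero]]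
    exact DivBy.zero ℓ

theorem beta (D : Setup G A n ℓ) {V₂ : Type*} [AddCommGroup V₂] [Module ℂ V₂]
    [FiniteDimensional ℂ V₂] (ρ₂ : Representation ℂ G V₂) {P Ω : Type*} [Group P] [Fintype P]
    (hP : IsPGroup ℓ P) (j : P →* G) [MulAction P Ω] [Finite Ω] {x : G}
    (hxP : ∀ v, Commute x (j v)) (hx : ℓ.Coprime (orderOf x)) :
    DivBy ℓ ((Fintype.card P : ℂ)⁻¹ * ∑ v : P,
      D.F (x * j v) * ρ₂.character ((x * j v)⁻¹) * fix Ω v) := by
  have hch : ∀ a, D.χ a = (D.ρ a).character := fun a => (funext (D.char a)).symm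
  have hζ := Complex.isPrimitiveRoot_exp (orderOf x) (orderOf_pos x).ne'
  set ζ : ℂ := Complex.exp (2 * Real.pi * Complex.I / (orderOf x : ℂ)) with hζdef
  have hjv : ∀ v : P, ∃ r : ℕ, (j v) ^ ℓ ^ r = 1 := by
    intro v
    obtain ⟨r, hr⟩ := hP v
    exact ⟨r, by rw [← map_pow, hr, map_one]⟩
  have key : (Fintype.card P : ℂ)⁻¹ * ∑ v : P,
      D.F (x * j v) * ρ₂.character ((x * j v)⁻¹) * fix Ω v =
      ∑ i ∈ Finset.range (orderOf x), ζ ^ i * ∑ a, (((D.ψ a)⁻¹ : ℂˣ) : ℂ) *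
        ((Fintype.card P : ℂ)⁻¹ * ∑ v : P, theta (D.χ a) (orderOf x) (ζ ^ i) x (j v) *
          (fix Ω v * ρ₂.character ((x * j v)⁻¹))) := by
    have h1 : ∀ v : P, D.F (x * j v) * ρ₂.character ((x * j v)⁻¹) * fix Ω v =
        ∑ i ∈ Finset.range (orderOf x), ∑ a, ζ ^ i * ((((D.ψ a)⁻¹ : ℂˣ) : ℂ) *
          (theta (D.χ a) (orderOf x) (ζ ^ i) x (j v) *
            (fix Ω v * ρ₂.character ((x * j v)⁻¹)))) := by
      intro v
      rw [F_eq D hζ (j v), Finset.sum_mul, Finset.sum_mul]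
      refine Finset.sum_congr rfl fun i _ => ?_
      rw [Finset.mul_sum, Finset.sum_mul, Finset.sum_mul]
      refine Finset.sum_congr rfl fun a _ => ?_
      ring
    rw [Finset.sum_congr rfl fun v _ => h1 v, Finset.sum_comm, Finset.mul_sum]
    refine Finset.sum_congr rfl fun i _ => ?_
    rw [Finset.sum_comm, Finset.mul_sum, Finset.mul_sum]
    refine Finset.sum_congr rfl fun a _ => ?_
    rw [← Finset.mul_sum, ← Finset.mul_sum]
    ring
  rw [key]
  refine DivBy.sum _ _ fun i _ => ?_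
  have hz : (ζ ^ i) ^ orderOf x = 1 := by
    rw [← pow_mul, mul_comm, pow_mul, hζ.pow_eq_one, one_pow]
  refine DivBy.mul_left ?_ (isIntegral_of_pow (orderOf_pos x) hz)
  rcases theta_key D hx hz with ⟨p, hp, hinv⟩ | h0
  · refine sum_divBy D.ψ ℓ (D.S p) (D.hS p hp) _ (fun a => ?_) fun s hs a => ?_
    · rw [hch a]
      exact isIntegral_pair (D.ρ a) ρ₂ j hxP (orderOf_pos x) (pow_orderOf_eq_one x) hz
    · congr 1
      refine Finset.sum_congr rfl fun v _ => ?_
      obtain ⟨r, hr⟩ := hjv v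
      rw [hinv s hs a (j v) (hxP v) r hr]
  · rw [Finset.sum_eq_zero fun a _ => by
      rw [Finset.sum_eq_zero fun v _ => by
        obtain ⟨r, hr⟩ := hjv v
        rw [h0 a (j v) (hxP v) r hr, zero_mul], mul_zero, mul_zero]]
    exact DivBy.zero ℓ

end Pool.Agent.FV86
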