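import Pool.Agent.FV86.Core
import Pool.Agent.FV86.Deg
import Pool.Agent.FV86.CycChar
import Pool.Agent.FV86.Comb

/-!
# The main theorem
-/

set_option autoImplicit false

namespace Pool.Agent.FV86

open IntermediateField in
theorem cyc_le_adjoin {n : ℕ} (hn : 0 < n) {z : ℂ} (hz : orderOf z ≠ 0) (h : n ∣ orderOf z) :
    cyc n ≤ ℚ⟮z⟯ := by
  have h1 : IsPrimitiveRoot (z ^ (orderOf z / n)) n :=
    (IsPrimitiveRoot.orderOf z).pow (Nat.pos_of_ne_zero hz) (Nat.div_mul_cancel h).symm
  have h2 := Complex.isPrimitiveRoot_exp n hn.ne'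
  haveI : NeZero n := ⟨hn.ne'⟩
  obtain ⟨i, _, hi⟩ := h1.eq_pow_of_pow_eq_one h2.pow_eq_one
  rw [cyc, adjoin_simple_le_iff, ← hi]
  exact pow_mem (pow_mem (mem_adjoin_simple_self ℚ z) _) _

theorem orderOf_pos_of_eigen {G V : Type*} [Group G] [Finite G] [AddCommGroup V] [Module ℂ V]
    (ρ : Representation ℂ G V) (g : G) {z : ℂ}
    (hz : Module.End.HasEigenvalue (ρ g) z) : 0 < orderOf z :=
  Nat.pos_of_ne_zero fun h0 => by
    have h1 := orderOf_dvd ρ g hz
    rw [h0, zero_dvd_iff] at h1
    exact (orderOf_pos g).ne' h1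

theorem good {G V : Type*} [Group G] [Finite G] [AddCommGroup V] [Module ℂ V]
    [FiniteDimensional ℂ V] (ρ : Representation ℂ G V) [ρ.IsIrreducible]
    (h1 : 1 < Module.finrank ℂ V) (g : G) {z : ℂ} (hz : Module.End.HasEigenvalue (ρ g) z)
    (hd : conductor ρ.character ∣ orderOf z) :
    HasSmallCharacter ρ ∧ (∃ g : G, orderOf g = conductor ρ.character) ∧
      (valueField ρ.character).relfinrank (cyc (conductor ρ.character)) ≤ Module.finrank ℂ V := by
  have hpos := orderOf_pos_of_eigen ρ g hz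
  have hc := conductor_pos ρ
  have hle1 := valueField_le_conductor ρ
  have hle2 := cyc_le_adjoin hc hpos.ne' hd
  have hdeg := relfinrank_le ρ g hz (hle1.trans hle2)
  refine ⟨?_, ?_, ?_⟩
  · obtain ⟨σ, hσ, hσf⟩ := exists_linear ρ g hz
    refine ⟨Subgroup.zpowers g, zpowers_ne_top ρ h1 g, ℂ, inferInstance, inferInstance,
      inferInstance, σ, hσ, ?_, ?_⟩
    · rw [hσf]
      exact hle1.trans hle2
    · rw [hσf, Module.finrank_self, one_mul]
      exact hdeg
  · have hdg : conductor ρ.character ∣ orderOf g := hd.trans (orderOf_dvd ρ g hz)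
    refine ⟨g ^ (orderOf g / conductor ρ.character), ?_⟩
    rw [orderOf_pow_of_dvd (Nat.div_pos (Nat.le_of_dvd (orderOf_pos g) hdg) hc).ne'
      (Nat.div_dvd_of_dvd hdg), Nat.div_div_self hdg (orderOf_pos g).ne']
  · refine le_trans ?_ hdeg
    have hmul := IntermediateField.relfinrank_mul_relfinrank hle1 hle2
    rw [← hmul]
    refine Nat.le_mul_of_pos_right _ ?_
    have h3 := IntermediateField.finrank_bot_mul_relfinrank hle2
    have h4 : 0 < Module.finrank ℚ (IntermediateField.adjoin ℚ {z}) := by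
      haveI : FiniteDimensional ℚ (IntermediateField.adjoin ℚ {z}) := by
        apply IntermediateField.adjoin.finiteDimensional
        refine IsIntegral.of_pow hpos ?_
        rw [pow_orderOf_eq_one]
        exact isIntegral_one
      exact Module.finrank_pos
    rw [← h3] at h4
    exact Nat.pos_of_mul_pos_left h4

theorem main {G V : Type*} [Group G] [Finite G] [AddCommGroup V] [Module ℂ V]
    [FiniteDimensional ℂ V] (ρ : Representation ℂ G V) [ρ.IsIrreducible]
    (h1 : 1 < Module.finrank ℂ V) :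
    (HasSmallCharacter ρ ∧ (∃ g : G, orderOf g = conductor ρ.character) ∧
      (valueField ρ.character).relfinrank (cyc (conductor ρ.character)) ≤ Module.finrank ℂ V) ∨
    Exceptional ρ.character := by
  by_cases hex : ∃ ℓ : ℕ, ℓ.Prime ∧
      ∃ ψ : (valueField ρ.character ≃ₐ[ℚ] valueField ρ.character) →* ℂˣ,
      ∀ p ∈ (conductor ρ.character).primeFactors,
        (∃ s ∈ inertia ρ.character p, ψ s ≠ 1) ∨ ℓ ∣ Nat.card (inertia ρ.character p)
  · obtain ⟨ℓ, hℓ, ψ, hψ⟩ := hex
    obtain ⟨g, z, hz, hd⟩ := core ρ hℓ ψ hψ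
    exact Or.inl (good ρ h1 g hz hd)
  · right
    haveI : FiniteDimensional ℚ (valueField ρ.character) :=
      finiteDimensional_of_le Nat.card_pos (valueField_le ρ)
    have hcomb := exists_psi (A := valueField ρ.character ≃ₐ[ℚ] valueField ρ.character)
      (comm_of_le Nat.card_pos (valueField_le ρ)) (conductor ρ.character).primeFactors
      (inertia ρ.character) (fun p hp => inertia_ne ρ hp)
    refine ⟨?_, ?_, ?_⟩
    · by_contra hc
      exact hex (hcomb (Or.inl (by omega)))
    · by_contra hc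
      apply hex
      apply hcomb
      right
      by_cases h2 : ∃ m : ℕ, m.Prime ∧
          ∃ P : Sylow m (valueField ρ.character ≃ₐ[ℚ] valueField ρ.character), ¬ IsCyclic P
      · obtain ⟨m, hm, hP⟩ := h2
        refine ⟨m, hm, fun m' hm' hne P' => ?_⟩
        by_contra hP'
        exact hc ⟨m', m, hm', hm, hne, ⟨P', hP'⟩, hP⟩
      · refine ⟨2, Nat.prime_two, fun m' hm' _ P' => ?_⟩
        by_contra hP'
        exact h2 ⟨m', hm', P', hP'⟩
    · intro ℓ hℓ ψ
      have hblock : ∃ p ∈ (conductor ρ.character).primeFactors,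
          (∀ σ ∈ inertia ρ.character p,
            (ψ : (valueField ρ.character ≃ₐ[ℚ] valueField ρ.character) →* ℂˣ) σ = 1) ∧
          ¬ ℓ ∣ Nat.card (inertia ρ.character p) := by
        by_contra hc
        push Not at hc
        apply hex
        refine ⟨ℓ, hℓ, ψ, fun p hp => ?_⟩
        by_cases h3 : ∃ s ∈ inertia ρ.character p,
            (ψ : (valueField ρ.character ≃ₐ[ℚ] valueField ρ.character) →* ℂˣ) s ≠ 1
        · exact Or.inl h3
        · push Not at h3
          exact Or.inr (hc p hp h3)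
      obtain ⟨p, hp, h1, h2⟩ := hblock
      rw [← inertia_eq] at h1 h2
      exact ⟨p, hp, h1, h2⟩

end Pool.Agent.FV86
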