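import Pool.Agent.FV86.Joint
import Pool.Agent.FV86.Inv

/-!
# The characters on the eigenspaces

PROOFS. `char_eq_sum_theta`: `inversion` with `F k = χ (x^k * v)`, `m = 1`.
`theta_eq_sum`: `inversion` in the second variable: for fixed `k` apply it to
`F m = χ (x^k * v^m)`, period `f`, at `m = 1`, and exchange the sums; the inner double sum is the
number `M` of `joint`.
`isIntegral_theta`: from `theta_eq_sum` (roots of unity times natural numbers).
`theta_fixed`: `T z = z` by the hypothesis on `T` (if `p = ℓ` then `p` does not divide `orderOf z`,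
which divides `e`, and `n.factorization p ≥ 1`). In the sum of `theta_eq_sum` with
`f = ℓ ^ r`, if `M ≠ 0` there is a joint eigenvector, so `z * y` is an eigenvalue of `ρ (x * v)`. If
`p ≠ ℓ` then `orderOf y ∣ ℓ ^ r` is not divisible by `p ^ (n.factorization p)` (exponent `≥ 1`), so
`T y = y`. If `p = ℓ`: `orderOf (z * y) = orderOf z * orderOf y` (coprime:
`Commute.orderOf_mul_eq_mul_orderOf_of_coprime`); if `ℓ ^ (n.factorization ℓ) ∣ orderOf y` then
all prime powers of `n` divide `orderOf (z * y)`, so `n` does, against `noeig`; so `T y = y`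
(`y ^ |G| = 1` because `v ^ |G| = 1` and `v u = y u`, or `ρ v u = y • u` and `ρ v ^ |G| = 1`).
`theta_zero`: all `M` vanish, because `M ≠ 0` makes `z` an eigenvalue of `ρ x` with `n ∣ orderOf z`.
-/

set_option autoImplicit false

namespace Pool.Agent.FV86

variable {G V : Type*} [Group G] [AddCommGroup V] [Module ℂ V] [FiniteDimensional ℂ V]

theorem char_eq_sum_theta (ρ : Representation ℂ G V) {x v : G} {e : ℕ} (he : 0 < e)
    (hx : x ^ e = 1) {ζ : ℂ} (hζ : IsPrimitiveRoot ζ e) :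
    ρ.character (x * v) =
      ∑ i ∈ Finset.range e, ζ ^ i * theta ρ.character e (ζ ^ i) x v := by
  have h := inversion he hζ (fun k => ρ.character (x ^ k * v))
    (fun k => by simp only [pow_add, hx, mul_one]) 1
  simp only [pow_one] at h
  exact h

theorem theta_eq_sum (ρ : Representation ℂ G V) {x v : G} (hxv : Commute x v) {e f : ℕ}
    (he : 0 < e) (hf : 0 < f) (hx : x ^ e = 1) (hv : v ^ f = 1) {z η : ℂ} (hz : z ^ e = 1)
    (hη : IsPrimitiveRoot η f) :
    ∃ M : ℕ → ℕ, theta ρ.character e z x v = ∑ i ∈ Finset.range f, η ^ i * M i ∧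
      ∀ i, M i ≠ 0 → ∃ u : V, u ≠ 0 ∧ ρ x u = z • u ∧ ρ v u = (η ^ i) • u := by
  have hηi : ∀ i : ℕ, (η ^ i) ^ f = 1 := by
    intro i
    rw [← pow_mul, mul_comm, pow_mul, hη.pow_eq_one, one_pow]
  choose M hM hM2 using fun i : ℕ => joint ρ hxv he hf hx hv hz (hηi i)
  refine ⟨M, ?_, hM2⟩
  have h1 : ∀ k : ℕ, ρ.character (x ^ k * v) = ∑ i ∈ Finset.range f, η ^ i *
      ((f : ℂ)⁻¹ * ∑ m ∈ Finset.range f, ((η ^ i)⁻¹) ^ m * ρ.character (x ^ k * v ^ m)) := by
    intro k
    have h := inversion hf hη (fun m => ρ.character (x ^ k * v ^ m))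
      (fun m => by simp only [pow_add, hv, mul_one]) 1
    simp only [pow_one] at h
    exact h
  rw [theta]
  simp_rw [h1, Finset.mul_sum]
  rw [Finset.sum_comm]
  refine Finset.sum_congr rfl fun i _ => ?_
  rw [← hM i]
  simp_rw [Finset.mul_sum]
  refine Finset.sum_congr rfl fun k _ => ?_
  refine Finset.sum_congr rfl fun m _ => ?_
  rw [mul_inv]
  ring

theorem isIntegral_theta (ρ : Representation ℂ G V) {x v : G} (hxv : Commute x v) {e f : ℕ}
    (he : 0 < e) (hf : 0 < f) (hx : x ^ e = 1) (hv : v ^ f = 1) {z : ℂ} (hz : z ^ e = 1) :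
    IsIntegral ℤ (theta ρ.character e z x v) := by
  have hη := Complex.isPrimitiveRoot_exp f hf.ne'
  obtain ⟨M, hM, -⟩ := theta_eq_sum ρ hxv he hf hx hv hz hη
  rw [hM]
  refine IsIntegral.sum _ fun i _ => ?_
  exact ((isIntegral_of_pow hf hη.pow_eq_one).pow i).mul (isIntegral_natCast _)

/-- The condition `i(z) = p`. -/
def Sel (n ℓ p : ℕ) (z : ℂ) : Prop :=
  p ∈ n.primeFactors ∧ ((p ≠ ℓ ∧ ¬ p ^ n.factorization p ∣ orderOf z) ∨
    (p = ℓ ∧ ∀ q ∈ n.primeFactors, q ≠ ℓ → q ^ n.factorization q ∣ orderOf z))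

theorem dvd_of_prime_powers {n N : ℕ} (hn : 0 < n)
    (h : ∀ q ∈ n.primeFactors, q ^ n.factorization q ∣ N) : n ∣ N := by
  rw [Nat.dvd_iff_prime_pow_dvd_dvd]
  intro q k hq hk
  by_cases hk0 : k = 0
  · rw [hk0, pow_zero]
    exact one_dvd _
  · have h1 : q ∣ n := (dvd_pow_self q hk0).trans hk
    have h2 : k ≤ n.factorization q := (hq.pow_dvd_iff_le_factorization hn.ne').1 hk
    exact (pow_dvd_pow q h2).trans (h q (Nat.mem_primeFactors.2 ⟨hq, h1, hn.ne'⟩))

theorem theta_fixed [Finite G] (ρ : Representation ℂ G V) {n ℓ : ℕ} (hn : 0 < n) (hℓ : ℓ.Prime)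
    (noeig : ∀ g z, Module.End.HasEigenvalue (ρ g) z → ¬ n ∣ orderOf z)
    {x v : G} (hxv : Commute x v) (hx : ℓ.Coprime (orderOf x)) {r : ℕ} (hv : v ^ ℓ ^ r = 1)
    {z : ℂ} (hz : z ^ orderOf x = 1) {p : ℕ} (hp : Sel n ℓ p z) (T : ℂ ≃+* ℂ)
    (hT : ∀ z : ℂ, z ^ Nat.card G = 1 → ¬ p ^ n.factorization p ∣ orderOf z → T z = z) :
    T z = z ∧ T (theta ρ.character (orderOf x) z x v) = theta ρ.character (orderOf x) z x v := by
  obtain ⟨hpn, hsel⟩ := hp
  have hpp := Nat.prime_of_mem_primeFactors hpn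
  have hv1 : n.factorization p ≠ 0 :=
    (hpp.factorization_pos_of_dvd hn.ne' (Nat.dvd_of_mem_primeFactors hpn)).ne'
  have hpdvd : ∀ N : ℕ, p ^ n.factorization p ∣ N → p ∣ N := fun N h =>
    (dvd_pow_self p hv1).trans h
  have hord : orderOf z ∣ orderOf x := orderOf_dvd_of_pow_eq_one hz
  have hTz : T z = z := by
    refine hT z ?_ ?_
    · obtain ⟨c, hc⟩ := orderOf_dvd_natCard x
      rw [hc, pow_mul, hz, one_pow]
    · rcases hsel with h | h
      · exact h.2
      · intro h2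
        rw [h.1] at h2 hpdvd
        have h3 : ℓ ∣ orderOf x := by
          refine dvd_trans ?_ hord
          rw [h.1] at hv1
          exact (dvd_pow_self ℓ hv1).trans h2
        exact hℓ.one_lt.ne' (Nat.eq_one_of_dvd_coprimes hx dvd_rfl h3)
  refine ⟨hTz, ?_⟩
  have hf : 0 < ℓ ^ r := pow_pos hℓ.pos r
  obtain ⟨η, hη⟩ : ∃ η : ℂ, IsPrimitiveRoot η (ℓ ^ r) :=
    ⟨_, Complex.isPrimitiveRoot_exp (ℓ ^ r) hf.ne'⟩
  obtain ⟨M, hM, hM2⟩ := theta_eq_sum ρ hxv (orderOf_pos x) hf (pow_orderOf_eq_one x) hv hz hη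
  rw [hM, map_sum]
  refine Finset.sum_congr rfl fun i _ => ?_
  rw [map_mul, map_natCast]
  by_cases hMi : M i = 0
  · rw [hMi, Nat.cast_zero, mul_zero, mul_zero]
  · obtain ⟨u, hu0, hxu, hvu⟩ := hM2 i hMi
    set y := η ^ i with hy
    have hyf : y ^ ℓ ^ r = 1 := by
      rw [hy, ← pow_mul, mul_comm, pow_mul, hη.pow_eq_one, one_pow]
    have hyord : orderOf y ∣ ℓ ^ r := orderOf_dvd_of_pow_eq_one hyf
    have hvk : ∀ k : ℕ, ρ (v ^ k) u = y ^ k • u := by
      intro k
      induction k with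
      | zero => simp
      | succ k ih =>
        rw [pow_succ, map_mul, Module.End.mul_apply, hvu, map_smul, ih, smul_smul, pow_succ]
        congr 1
        ring
    have hyG : y ^ Nat.card G = 1 := by
      have h1 := hvk (Nat.card G)
      rw [pow_card_eq_one', map_one, Module.End.one_apply] at h1
      by_contra h2
      have h3 : (y ^ Nat.card G - 1) • u = 0 := by rw [sub_smul, ← h1, one_smul, sub_self]
      rcases smul_eq_zero.1 h3 with h | h
      · exact h2 (sub_eq_zero.1 h)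
      · exact hu0 h
    have hTy : T y = y := by
      refine hT y hyG ?_
      rcases hsel with h | h
      · intro h2
        have h3 : p ∣ ℓ ^ r := (hpdvd _ h2).trans hyord
        exact h.1 ((Nat.prime_dvd_prime_iff_eq hpp hℓ).1 (hpp.dvd_of_dvd_pow h3))
      · intro h2
        obtain ⟨hpl, hq⟩ := h
        rw [hpl] at h2
        have hcop : (orderOf z).Coprime (orderOf y) := by
          refine Nat.Coprime.coprime_dvd_left hord ?_
          refine Nat.Coprime.coprime_dvd_right hyord ?_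
          exact Nat.Coprime.pow_right _ hx.symm
        have horder : orderOf (z * y) = orderOf z * orderOf y :=
          (Commute.all z y).orderOf_mul_eq_mul_orderOf_of_coprime hcop
        have heig : Module.End.HasEigenvalue (ρ (x * v)) (z * y) := by
          apply Module.End.hasEigenvalue_of_hasEigenvector (x := u)
          refine ⟨?_, hu0⟩
          rw [Module.End.mem_eigenspace_iff, map_mul, Module.End.mul_apply, hvu, map_smul, hxu,
            smul_smul, mul_comm]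
        apply noeig _ _ heig
        rw [horder]
        refine dvd_of_prime_powers hn fun q hqn => ?_
        by_cases hql : q = ℓ
        · rw [hql]
          exact h2.trans (Dvd.intro_left _ rfl)
        · exact (hq q hqn hql).trans (Dvd.intro _ rfl)
    rw [hTy]

theorem theta_zero [Finite G] (ρ : Representation ℂ G V) {n ℓ : ℕ} (hn : 0 < n)
    (noeig : ∀ g z, Module.End.HasEigenvalue (ρ g) z → ¬ n ∣ orderOf z)
    {x v : G} (hxv : Commute x v) {r : ℕ} (hℓ : ℓ.Prime) (hv : v ^ ℓ ^ r = 1)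
    {z : ℂ} (hz : z ^ orderOf x = 1) (hℓn : ¬ ℓ ∣ n)
    (hq : ∀ q ∈ n.primeFactors, q ≠ ℓ → q ^ n.factorization q ∣ orderOf z) :
    theta ρ.character (orderOf x) z x v = 0 := by
  have hf : 0 < ℓ ^ r := pow_pos hℓ.pos r
  obtain ⟨η, hη⟩ : ∃ η : ℂ, IsPrimitiveRoot η (ℓ ^ r) :=
    ⟨_, Complex.isPrimitiveRoot_exp (ℓ ^ r) hf.ne'⟩
  obtain ⟨M, hM, hM2⟩ := theta_eq_sum ρ hxv (orderOf_pos x) hf (pow_orderOf_eq_one x) hv hz hη
  rw [hM]
  refine Finset.sum_eq_zero fun i _ => ?_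
  have hMi : M i = 0 := by
    by_contra h
    obtain ⟨u, hu0, hxu, -⟩ := hM2 i h
    have heig : Module.End.HasEigenvalue (ρ x) z := by
      apply Module.End.hasEigenvalue_of_hasEigenvector (x := u)
      exact ⟨Module.End.mem_eigenspace_iff.2 hxu, hu0⟩
    apply noeig _ _ heig
    refine dvd_of_prime_powers hn fun q hqn => hq q hqn ?_
    rintro rfl
    exact hℓn (Nat.dvd_of_mem_primeFactors hqn)
  rw [hMi, Nat.cast_zero, mul_zero]

theorem exists_sel {n ℓ : ℕ} (z : ℂ) (hn : 0 < n) (hℓ : ℓ.Prime) :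
    (∃ p, Sel n ℓ p z) ∨
      (¬ ℓ ∣ n ∧ ∀ q ∈ n.primeFactors, q ≠ ℓ → q ^ n.factorization q ∣ orderOf z) := by
  by_cases h : ∃ p ∈ n.primeFactors, p ≠ ℓ ∧ ¬ p ^ n.factorization p ∣ orderOf z
  · obtain ⟨p, hp, hp1, hp2⟩ := h
    exact Or.inl ⟨p, hp, Or.inl ⟨hp1, hp2⟩⟩
  · push Not at h
    by_cases h2 : ℓ ∣ n
    · exact Or.inl ⟨ℓ, Nat.mem_primeFactors.2 ⟨hℓ, h2, hn.ne'⟩, Or.inr ⟨rfl, h⟩⟩
    · exact Or.inr ⟨h2, h⟩

end Pool.Agent.FV86
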